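import Pool.Agent.MP_410f3c_al.V.Tip

/-!
# The abstract theorem
-/

set_option autoImplicit false

open Polynomial Filter Topology MeasureTheory

namespace Pool.Agent.MP_410f3c_al.V

/-- For a fixed value, only countably many slopes are bad. -/
theorem bad_countable (a v : ℂ) (ha : a ≠ 0) (hv : v ≠ a) :
    {τ : ℝ | ∃ y : ℝ, 0 ≤ y ∧ v = a * Complex.exp ((1 + τ * Complex.I) * y)}.Countable := by
  rcases Set.eq_empty_or_nonempty
    {τ : ℝ | ∃ y : ℝ, 0 ≤ y ∧ v = a * Complex.exp ((1 + τ * Complex.I) * y)} with h | ⟨τ₀, y₀, hy₀, h₀⟩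
  · rw [h]; exact Set.countable_empty
  · have hy₀' : y₀ ≠ 0 := by
      rintro rfl
      apply hv
      rw [h₀, Complex.ofReal_zero, mul_zero, Complex.exp_zero, mul_one]
    refine Set.Countable.mono ?_
      (Set.countable_range fun n : ℤ => τ₀ + n * (2 * Real.pi) / y₀)
    rintro τ ⟨y, hy, h⟩
    have hn : ∀ τ y : ℝ, ‖a * Complex.exp ((1 + τ * Complex.I) * y)‖ = ‖a‖ * Real.exp y := by
      intro τ y
      rw [norm_mul, Complex.norm_exp]
      congr 2
      simp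
    have hyy : y = y₀ := by
      have h1 : ‖a‖ * Real.exp y = ‖a‖ * Real.exp y₀ := by
        rw [← hn τ y, ← hn τ₀ y₀, ← h, ← h₀]
      exact Real.exp_injective (mul_left_cancel₀ (norm_ne_zero_iff.mpr ha) h1)
    subst hyy
    rw [h] at h₀
    have h2 := mul_left_cancel₀ ha h₀
    rw [Complex.exp_eq_exp_iff_exists_int] at h2
    obtain ⟨n, hn⟩ := h2
    refine ⟨n, ?_⟩
    have h3 : (τ * y : ℝ) = τ₀ * y + n * (2 * Real.pi) := by
      have h4 := congrArg Complex.im hn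
      simpa using h4
    show τ₀ + n * (2 * Real.pi) / y = τ
    field_simp
    linarith

/-- A good slope for finitely many values. -/
theorem exists_slope (a : ℂ) (ha : a ≠ 0) (Z : Set ℂ) (hZ : Z.Finite) (haZ : a ∉ Z) :
    ∃ R : Ray, R.a = a ∧ ∀ v ∈ Z, v ∉ R.Lam 0 := by
  have h1 : (⋃ v ∈ Z, {τ : ℝ | ∃ y : ℝ, 0 ≤ y ∧
      v = a * Complex.exp ((1 + τ * Complex.I) * y)}).Countable :=
    hZ.countable.biUnion fun v hv => bad_countable a v ha (fun h => haZ (h ▸ hv))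
  obtain ⟨τ, hτ⟩ : ∃ τ : ℝ, τ ∉ ⋃ v ∈ Z, {τ : ℝ | ∃ y : ℝ, 0 ≤ y ∧
      v = a * Complex.exp ((1 + τ * Complex.I) * y)} := by
    by_contra hcon
    push Not at hcon
    exact Set.not_countable_univ (h1.mono fun τ _ => hcon τ)
  refine ⟨⟨a, 1 + τ * Complex.I, ha, by simp⟩, rfl, ?_⟩
  rintro v hv ⟨y, hy, h⟩
  apply hτ
  rw [Set.mem_iUnion₂]
  exact ⟨v, hv, y, hy, h⟩

theorem roots_finite {p : ℂ[X]} (hp : 0 < p.natDegree) :
    {e : ℂ | (derivative p).eval e = 0}.Finite := by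
  have h : derivative p ≠ 0 := by
    intro h0
    have := Polynomial.derivative_eq_zero.mp h0
    omega
  exact Polynomial.finite_setOf_isRoot h

namespace Ray

/-- If almost all the coefficients vanish then there is no logarithmic term. -/
theorem eq_zero_of_cls {R : Ray} {T : ℂ} {I : ℕ → ℂ} {M : ℕ} (hI : ∀ m, M ≤ m → I m = 0)
    (h : R.Cls T (psF I)) : T = 0 := by
  obtain ⟨g, hg, hv⟩ := h
  have ha : 0 < ‖R.a‖ := R.norm_a_pos
  set C : ℝ := ∑ m ∈ Finset.range M, ‖I m‖ / ‖R.a‖ ^ m with hC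
  have hC0 : 0 ≤ C := Finset.sum_nonneg fun m _ => by positivity
  have hIC : ∀ m, ‖I m‖ ≤ C * ‖R.a‖ ^ m := by
    intro m
    rcases lt_or_ge m M with hm | hm
    · have h1 : ‖I m‖ / ‖R.a‖ ^ m ≤ C :=
        Finset.single_le_sum (f := fun m => ‖I m‖ / ‖R.a‖ ^ m) (fun m _ => by positivity)
          (Finset.mem_range.mpr hm)
      rwa [div_le_iff₀ (by positivity)] at h1
    · rw [hI m hm, norm_zero]; positivity
  have hval : ∀ x : ℝ, 0 < x → T * lg x + g x
      = ∑ m ∈ Finset.range M, (R.W x)⁻¹ ^ (m + 1) * I m := by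
    intro x hx
    rw [hasVal_unique (hv x hx) (R.hasVal_psF hC0 hIC hx)]
    refine tsum_eq_sum fun m hm => ?_
    rw [Finset.mem_range, not_lt] at hm
    rw [hI m hm, mul_zero]
  refine eq_zero_of_tame hg ?_
  have hcont : ContinuousAt (fun x : ℝ => ∑ m ∈ Finset.range M, (R.W x)⁻¹ ^ (m + 1) * I m) 0 := by
    have h1 : Continuous fun x : ℝ => (R.W x)⁻¹ :=
      (R.W_cont.comp Complex.continuous_ofReal).inv₀ fun x => R.W_ne _
    exact (continuous_finset_sum _ fun m _ => (h1.pow _).mul continuous_const).continuousAt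
  have hbd : Bd (fun x : ℝ => ∑ m ∈ Finset.range M, (R.W x)⁻¹ ^ (m + 1) * I m) :=
    (hcont.tendsto.mono_left nhdsWithin_le_nhds).isBigO_one ℝ
  refine hbd.congr' ?_ (Filter.EventuallyEq.refl _ _)
  filter_upwards [self_mem_nhdsWithin] with x hx
  rw [← hval x hx]
  rfl

theorem con_tip {R : Ray} {p q : ℂ[X]} {P : ℕ → ℂ[X]} (hp : 0 < p.natDegree) (hA : HypA p q P)
    (hB : R.HypB p P) {e : ℂ} (he : p.eval e = R.a) : R.Con p P e := by
  obtain ⟨T, _, N, hN, h⟩ := tip_cls R hp hA hB he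
  refine ⟨N, hN, fun x hx y hy hxD hyD => ?_⟩
  have h1 := Cls.sub (h y hy hyD) (h x hx hxD)
  rw [AA_sub, sub_self] at h1
  exact h1

end Ray

/-- The abstract non-vanishing theorem. -/
theorem abstract_main {p q : ℂ[X]} {P : ℕ → ℂ[X]} (hp : 0 < p.natDegree) {s t : ℂ}
    (h0 : p.eval s ≠ 0) (h0' : (derivative p).eval s ≠ 0)
    (h1 : p.eval t ≠ p.eval s ∨ ((derivative p).eval t ≠ 0 ∧
      Complex.exp (q.eval s / p.eval s) / (derivative p).eval s ≠
        Complex.exp (q.eval t / p.eval t) / (derivative p).eval t))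
    (hA : HypA p q P) (hB : ∀ R : Ray, R.HypB p P) (M : ℕ) :
    ∃ m, M ≤ m ∧ (P m).eval t ≠ (P m).eval s := by
  by_contra hcon
  push Not at hcon
  -- the slope
  obtain ⟨R, hRa, hR⟩ := exists_slope (p.eval s) h0
    (((fun e => p.eval e) '' {e : ℂ | (derivative p).eval e = 0} ∪ {p.eval t}) \ {p.eval s})
    (Set.Finite.subset (((roots_finite hp).image _).union (Set.finite_singleton _))
      Set.diff_subset) (fun h => h.2 rfl)
  have hcrit : ∀ e, (derivative p).eval e = 0 → p.eval e ≠ R.a → e ∈ R.DD p := by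
    intro e he hne
    rw [hRa] at hne
    exact hR _ ⟨Or.inl ⟨e, he, rfl⟩, hne⟩
  have hcon' : ∀ e, R.Con p P e :=
    Ray.con_all hp (hB R) (fun e he => Ray.con_tip hp hA (hB R) he) hcrit
  obtain ⟨T₀, hT₀, N₀, hN₀, hN₀'⟩ := tip_cls R hp hA (hB R) (e := s) hRa.symm
  obtain ⟨y₀, hy₀, hy₀D⟩ := Ray.DD_dense (R := R) hp s hN₀
  have hT₀' := hT₀ h0'
  have hA0 := hN₀' y₀ hy₀ hy₀D
  have hfin : ∀ T : ℂ, R.Cls T (AA P s t) → T = 0 := by
    intro T hT
    refine Ray.eq_zero_of_cls (M := M) ?_ hT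
    intro m hm
    rw [hcon m hm, sub_self]
  by_cases ht : p.eval t = p.eval s
  · obtain ⟨ht', hne⟩ := h1.resolve_left (fun h => h ht)
    obtain ⟨T₁, hT₁, N₁, hN₁, hN₁'⟩ := tip_cls R hp hA (hB R) (e := t) (by rw [ht, hRa])
    obtain ⟨y₁, hy₁, hy₁D⟩ := Ray.DD_dense (R := R) hp t hN₁
    have hT₁' := hT₁ ht'
    have hrel : R.Rel P y₀ y₁ := Ray.rel_all hp hcon' hy₀D hy₁D
    have h2 := Ray.Cls.sub (Ray.Cls.add hA0 hrel) (hN₁' y₁ hy₁ hy₁D)
    rw [AA_add, sub_eq_add_neg (AA P s y₁), AA_neg, AA_add, add_zero] at h2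
    have h3 := hfin _ h2
    apply hne
    rw [hT₀', hT₁'] at h3
    linear_combination -h3
  · have htD : t ∈ R.DD p := hR _ ⟨Or.inr rfl, ht⟩
    have hrel : R.Rel P y₀ t := Ray.rel_all hp hcon' hy₀D htD
    have h2 := Ray.Cls.add hA0 hrel
    rw [AA_add, add_zero] at h2
    have h3 := hfin _ h2
    rw [hT₀', div_eq_zero_iff] at h3
    rcases h3 with h3 | h3
    · exact Complex.exp_ne_zero _ (neg_eq_zero.mp h3)
    · exact h0' h3

end Pool.Agent.MP_410f3c_al.V
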