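import Mathlib

/-!
# Approximation of the exponential
-/

set_option autoImplicit false

namespace Pool.Agent.MP_410f3c_al.V

/-- The ratio of the coefficients. -/
noncomputable def Rat (d m l : ℕ) : ℝ :=
  (l.factorial * d ^ l * m.choose l * (d * m + 1 - l).factorial : ℝ) / (d * m + 1).factorial

theorem Rat_zero (d m : ℕ) : Rat d m 0 = 1 := by
  unfold Rat
  simp only [Nat.factorial_zero, Nat.cast_one, pow_zero, Nat.choose_zero_right, Nat.sub_zero,
    mul_one, one_mul]
  exact div_self (Nat.cast_ne_zero.mpr (Nat.factorial_ne_zero _))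

theorem Rat_of_lt {d m l : ℕ} (h : m < l) : Rat d m l = 0 := by
  unfold Rat
  rw [Nat.choose_eq_zero_of_lt h]
  simp

theorem Rat_nonneg (d m l : ℕ) : 0 ≤ Rat d m l := by
  unfold Rat; positivity

theorem Rat_succ {d m l : ℕ} (hd : 0 < d) (hl : l < m) :
    Rat d m (l + 1) = Rat d m l * (d * (m - l) / (d * m + 1 - l)) := by
  obtain ⟨k, rfl⟩ : ∃ k, m = l + 1 + k := ⟨m - (l + 1), by omega⟩
  obtain ⟨e, rfl⟩ : ∃ e, d = e + 1 := ⟨d - 1, by omega⟩
  have h1 : (e + 1) * (l + 1 + k) + 1 - l = (e * (l + 1 + k) + k + 1) + 1 := by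
    have : (e + 1) * (l + 1 + k) = e * (l + 1 + k) + (l + 1 + k) := by ring
    omega
  have h2 : (e + 1) * (l + 1 + k) + 1 - (l + 1) = e * (l + 1 + k) + k + 1 := by
    have : (e + 1) * (l + 1 + k) = e * (l + 1 + k) + (l + 1 + k) := by ring
    omega
  have h3 : ((l + 1 + k).choose (l + 1) : ℝ) * (l + 1) = (l + 1 + k).choose l * (k + 1) := by
    have := Nat.choose_succ_right_eq (l + 1 + k) l
    have h4 : l + 1 + k - l = k + 1 := by omega
    rw [h4] at this
    exact_mod_cast this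
  unfold Rat
  rw [h1, h2, Nat.factorial_succ (e * (l + 1 + k) + k + 1), Nat.factorial_succ l]
  have h5 : ((((e + 1) * (l + 1 + k) + 1).factorial : ℕ) : ℝ) ≠ 0 :=
    Nat.cast_ne_zero.mpr (Nat.factorial_ne_zero _)
  have h6 : ((e : ℝ) + 1) * (l + 1 + k) + 1 - l = e * (l + 1 + k) + k + 2 := by ring
  have h7 : (e : ℝ) * (l + 1 + k) + k + 2 ≠ 0 := by positivity
  push_cast
  rw [h6]
  have h8 : ((l : ℝ) + 1 + k - l) = k + 1 := by ring
  rw [h8]
  field_simp
  linear_combination (((e : ℝ) * (l + 1 + k) + k + 2) * (e + 1) * (e + 1) ^ l) * h3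

theorem Rat_bound {d m : ℕ} (hd : 0 < d) (l : ℕ) :
    Rat d m l ≤ 1 ∧ 1 - Rat d m l ≤ d / (m + 1) * l ^ 2 := by
  have hd1 : (1 : ℝ) ≤ d := by exact_mod_cast hd
  induction l with
  | zero => rw [Rat_zero]; simp
  | succ l ih =>
    rcases lt_or_ge l m with hl | hl
    · have hlm : (l : ℝ) + 1 ≤ m := by exact_mod_cast hl
      have hm0 : (0 : ℝ) ≤ m := Nat.cast_nonneg _
      have hl0 : (0 : ℝ) ≤ l := Nat.cast_nonneg _
      rw [Rat_succ hd hl]
      have hden : (0 : ℝ) < d * m + 1 - l := by nlinarith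
      set ρ : ℝ := d * (m - l) / (d * m + 1 - l) with hρ
      have hρ0 : 0 ≤ ρ := div_nonneg (by nlinarith) hden.le
      have hρ1 : ρ ≤ 1 := by
        rw [hρ, div_le_one hden]
        nlinarith
      have hρ2 : 1 - ρ ≤ d * (l + 1) / (m + 1) := by
        rw [hρ, one_sub_div hden.ne', div_le_div_iff₀ hden (by positivity)]
        have e1 : (d : ℝ) * m + 1 - l - d * (m - l) = 1 + (d - 1) * l := by ring
        rw [e1]
        have e2 : (0 : ℝ) ≤ (d - 1) := by linarith
        have e3 : (d : ℝ) * (l + 1) * (d * m + 1 - l) - (1 + (d - 1) * l) * (m + 1)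
            = (d - 1) * (l + 1) * (d * m + 1 - l) + (l + 1) * ((d - 1) * m) + l * (m - l)
              - (d - 1) * l * (m + 1) := by ring
        have e4 : (d - 1) * (l : ℝ) * (m + 1) ≤ (d - 1) * (l + 1) * (d * m + 1 - l)
            + (l + 1) * ((d - 1) * m) := by
          have e5 : (l : ℝ) * (m + 1) ≤ (l + 1) * (d * m + 1 - l) + (l + 1) * m := by
            nlinarith
          nlinarith
        nlinarith [mul_nonneg hl0 (by linarith : (0 : ℝ) ≤ m - l)]
      refine ⟨?_, ?_⟩
      · calc Rat d m l * ρ ≤ 1 * 1 := mul_le_mul ih.1 hρ1 hρ0 zero_le_one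
          _ = 1 := one_mul 1
      · have e1 : 1 - Rat d m l * ρ = (1 - Rat d m l) + Rat d m l * (1 - ρ) := by ring
        have e2 : Rat d m l * (1 - ρ) ≤ 1 * (1 - ρ) :=
          mul_le_mul_of_nonneg_right ih.1 (by linarith)
        rw [e1]
        have e3 : (d : ℝ) / (m + 1) * l ^ 2 + d * (l + 1) / (m + 1)
            ≤ d / (m + 1) * ((l + 1 : ℕ) : ℝ) ^ 2 := by
          push_cast
          rw [div_mul_eq_mul_div, ← add_div, div_mul_eq_mul_div]
          refine div_le_div_of_nonneg_right ?_ (by positivity)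
          nlinarith
        linarith [ih.2]
    · rw [Rat_of_lt (by omega : m < l + 1)]
      refine ⟨zero_le_one, ?_⟩
      rw [sub_zero, div_mul_eq_mul_div, le_div_iff₀ (by positivity), one_mul]
      have h1 : (m : ℝ) ≤ l := by exact_mod_cast hl
      push_cast
      nlinarith [sq_nonneg ((l : ℝ) + 1), Nat.cast_nonneg (α := ℝ) m]

theorem exp_approx {d m : ℕ} (hd : 0 < d) (x : ℂ) :
    ‖∑ l ∈ Finset.range (m + 1), (Rat d m l : ℂ) * (x ^ l / l.factorial) - Complex.exp x‖
      ≤ d / (m + 1) * Real.exp (4 * ‖x‖) := by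
  have h1 : HasSum (fun l : ℕ => x ^ l / (l.factorial : ℂ)) (Complex.exp x) := by
    have := NormedSpace.expSeries_div_hasSum_exp (𝔸 := ℂ) x
    rwa [← Complex.exp_eq_exp_ℂ] at this
  have h2 : HasSum (fun l : ℕ => (Rat d m l : ℂ) * (x ^ l / (l.factorial : ℂ)))
      (∑ l ∈ Finset.range (m + 1), (Rat d m l : ℂ) * (x ^ l / l.factorial)) := by
    refine hasSum_sum_of_ne_finset_zero fun l hl => ?_
    rw [Finset.mem_range, not_lt] at hl
    rw [Rat_of_lt (by omega), Complex.ofReal_zero, zero_mul]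
  have h3 : HasSum (fun l : ℕ => (d : ℝ) / (m + 1) * ((4 * ‖x‖) ^ l / (l.factorial : ℝ)))
      (d / (m + 1) * Real.exp (4 * ‖x‖)) := by
    have := NormedSpace.expSeries_div_hasSum_exp (𝔸 := ℝ) (4 * ‖x‖)
    rw [← Real.exp_eq_exp_ℝ] at this
    exact this.mul_left _
  refine (h2.sub h1).norm_le_of_bounded h3 fun l => ?_
  have h4 : (Rat d m l : ℂ) * (x ^ l / (l.factorial : ℂ)) - x ^ l / (l.factorial : ℂ)
      = -((1 - Rat d m l : ℝ) : ℂ) * (x ^ l / (l.factorial : ℂ)) := by
    push_cast; ring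
  obtain ⟨h5, h6⟩ := Rat_bound (m := m) hd l
  rw [h4, norm_mul, norm_neg, Complex.norm_real, Real.norm_of_nonneg (by linarith), norm_div,
    norm_pow, Complex.norm_natCast]
  have h7 : (l : ℝ) ^ 2 ≤ 4 ^ l := by
    have h8 : (l : ℝ) ≤ 2 ^ l := by exact_mod_cast Nat.lt_two_pow_self.le
    calc (l : ℝ) ^ 2 ≤ (2 ^ l) ^ 2 := pow_le_pow_left₀ (Nat.cast_nonneg _) h8 2
      _ = 4 ^ l := by rw [← pow_mul, mul_comm, pow_mul]; norm_num
  calc (1 - Rat d m l) * (‖x‖ ^ l / l.factorial)
      ≤ (d / (m + 1) * l ^ 2) * (‖x‖ ^ l / l.factorial) :=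
        mul_le_mul_of_nonneg_right h6 (by positivity)
    _ ≤ (d / (m + 1) * 4 ^ l) * (‖x‖ ^ l / l.factorial) :=
        mul_le_mul_of_nonneg_right (mul_le_mul_of_nonneg_left h7 (by positivity)) (by positivity)
    _ = d / (m + 1) * ((4 * ‖x‖) ^ l / l.factorial) := by rw [mul_pow]; ring

/-- The numerical bound for the error terms. -/
theorem num_bound {d m l : ℕ} (hd : 0 < d) (hl : l ≤ m) :
    (m.choose l : ℝ) * (d * m - l).factorial / (d * m + 1).factorial
      ≤ 1 / (m + 1) * (1 / l.factorial) := by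
  have hdm : m ≤ d * m := Nat.le_mul_of_pos_left m hd
  have h1 : m.choose l * l.factorial * (d * m - l).factorial ≤ (d * m).factorial := by
    have e1 : m.choose l * l.factorial = m.descFactorial l := by
      rw [Nat.descFactorial_eq_factorial_mul_choose, mul_comm]
    have e2 : (d * m - l).factorial * (d * m).descFactorial l = (d * m).factorial :=
      Nat.factorial_mul_descFactorial (hl.trans hdm)
    rw [e1, ← e2, mul_comm]
    exact Nat.mul_le_mul_left _ (Nat.descFactorial_le _ hdm)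
  have h2 : (m.choose l : ℝ) * l.factorial * (d * m - l).factorial ≤ (d * m).factorial := by
    exact_mod_cast h1
  have h3 : ((m : ℝ) + 1) ≤ (d * m : ℕ) + 1 := by
    have : (m : ℝ) ≤ (d * m : ℕ) := by exact_mod_cast hdm
    linarith
  rw [Nat.factorial_succ, one_div_mul_one_div, div_le_div_iff₀ (by positivity) (by positivity),
    one_mul]
  push_cast at h3 ⊢
  calc (m.choose l : ℝ) * (d * m - l).factorial * ((m + 1) * l.factorial)
      = (m + 1) * ((m.choose l : ℝ) * l.factorial * (d * m - l).factorial) := by ring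
    _ ≤ (d * m + 1) * (d * m).factorial :=
        mul_le_mul h3 h2 (by positivity) (by positivity)

end Pool.Agent.MP_410f3c_al.V
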