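import Pool.Agent.MP_410f3c_al.V.Topo

/-!
# The uniformizer at a tip
-/

set_option autoImplicit false

open Polynomial Filter Topology

namespace Pool.Agent.MP_410f3c_al.V

theorem taylor_bound {f : ℂ → ℂ} (hf : AnalyticAt ℂ f 0) (k : ℕ) :
    ∃ c : ℕ → ℂ, (0 < k → c 0 = f 0) ∧ ∃ C : ℝ, 0 ≤ C ∧ ∃ ρ > 0, ∀ u : ℂ, ‖u‖ < ρ →
      ‖f u - ∑ j ∈ Finset.range k, c j * u ^ j‖ ≤ C * ‖u‖ ^ k := by
  obtain ⟨s, hs⟩ := hf
  have h1 := hs.isBigO_sub_partialSum_pow k
  rw [Asymptotics.isBigO_iff'] at h1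
  obtain ⟨C, hC, h1⟩ := h1
  rw [Metric.eventually_nhds_iff] at h1
  obtain ⟨ρ, hρ, h1⟩ := h1
  have h2 : ∀ u : ℂ, ‖u‖ < ρ →
      ‖f u - ∑ j ∈ Finset.range k, s.coeff j * u ^ j‖ ≤ C * ‖u‖ ^ k := by
    intro u hu
    have h3 := h1 (y := u) (by rwa [dist_zero_right])
    rw [norm_pow, norm_norm, zero_add] at h3
    have h4 : s.partialSum k u = ∑ j ∈ Finset.range k, s.coeff j * u ^ j := by
      unfold FormalMultilinearSeries.partialSum
      refine Finset.sum_congr rfl fun j _ => ?_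
      rw [FormalMultilinearSeries.apply_eq_pow_smul_coeff, smul_eq_mul, mul_comm]
    rwa [h4] at h3
  refine ⟨s.coeff, ?_, C, hC.le, ρ, hρ, h2⟩
  intro hk
  have h5 := h2 0 (by simpa using hρ)
  rw [norm_zero, zero_pow hk.ne', mul_zero] at h5
  have h6 := norm_le_zero_iff.mp h5
  rw [Finset.sum_eq_single 0] at h6
  · rw [pow_zero, mul_one] at h6
    exact (sub_eq_zero.mp h6).symm
  · intro j _ hj
    rw [zero_pow hj, mul_zero]
  · intro h
    exact absurd (Finset.mem_range.mpr hk) h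

theorem eventually_ne_const {p : ℂ[X]} (hp : 0 < p.natDegree) (a e : ℂ) :
    ¬ ∀ᶠ t in 𝓝 e, p.eval t = a := by
  intro h
  have h2 : p = C a := by
    refine Polynomial.eq_of_infinite_eval_eq _ _ ?_
    refine Set.Infinite.mono (s := {z | p.eval z = a}) ?_ ?_
    · intro z hz
      simpa using hz
    · have h3 : {z | p.eval z = a} ∈ 𝓝 e := h
      exact infinite_of_mem_nhds e h3
  rw [h2] at hp
  simp at hp

theorem uniformizer (R : Ray) {p : ℂ[X]} (hp : 0 < p.natDegree) {e : ℂ} (he : p.eval e = R.a) :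
    ∃ k : ℕ, 0 < k ∧ ∃ θ : ℂ → ℂ, ∃ ρ > 0, θ 0 = e ∧ deriv θ 0 ≠ 0 ∧
      (∀ u : ℂ, ‖u‖ < ρ → AnalyticAt ℂ θ u ∧ p.eval (θ u) = R.W (-u ^ k)) ∧
      (∀ ρ' > 0, ∀ᶠ t in 𝓝 e, ∃ u : ℂ, ‖u‖ < ρ' ∧ θ u = t) := by
  have hκ0 : R.κ ≠ 0 := by intro h; have := R.hκ; rw [h] at this; simp at this
  have hpa : AnalyticAt ℂ (fun z => p.eval z) e := p.differentiable.analyticAt e
  set F : ℂ → ℂ := fun t => -(Complex.log (p.eval t / R.a) / R.κ) with hF
  have hone : p.eval e / R.a = 1 := by rw [he, div_self R.ha]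
  have hFa : AnalyticAt ℂ F e := by
    refine AnalyticAt.neg (AnalyticAt.div ?_ analyticAt_const hκ0)
    refine AnalyticAt.clog (hpa.div analyticAt_const R.ha) ?_
    rw [hone]
    exact Complex.one_mem_slitPlane
  have hFe : F e = 0 := by
    rw [hF]
    simp only
    rw [hone, Complex.log_one, zero_div, neg_zero]
  have hne : ∀ᶠ t in 𝓝 e, p.eval t ≠ 0 := by
    have := hpa.continuousAt
    refine this.eventually_ne ?_
    rw [he]; exact R.ha
  have hexpF : ∀ t, p.eval t ≠ 0 → R.W (-F t) = p.eval t := by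
    intro t ht
    unfold Ray.W
    have h1 : R.κ * -F t = Complex.log (p.eval t / R.a) := by
      rw [hF]
      simp only
      rw [neg_neg]
      field_simp
    rw [h1, Complex.exp_log (div_ne_zero ht R.ha)]
    field_simp [R.ha]
  have hFn : ¬ ∀ᶠ t in 𝓝 e, F t = 0 := by
    intro h
    apply eventually_ne_const hp R.a e
    filter_upwards [h, hne] with t ht1 ht2
    have := hexpF t ht2
    rw [ht1, neg_zero, R.W_zero] at this
    exact this.symm
  obtain ⟨n, g, hga, hg0, hFg⟩ := hFa.exists_eventuallyEq_pow_smul_nonzero_iff.mpr hFn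
  have hn : 0 < n := by
    rcases Nat.eq_zero_or_pos n with h | h
    · exfalso
      have h1 := hFg.self_of_nhds
      rw [h, hFe, pow_zero, one_smul] at h1
      exact hg0 h1.symm
    · exact h
  have hnC : (n : ℂ) ≠ 0 := by exact_mod_cast hn.ne'
  obtain ⟨γ, hγ⟩ := IsAlgClosed.exists_pow_nat_eq (g e) hn
  have hγ0 : γ ≠ 0 := by
    intro h
    rw [h, zero_pow hn.ne'] at hγ
    exact hg0 hγ.symm
  set E : ℂ → ℂ := fun t => γ * Complex.exp (Complex.log (g t / g e) / n) with hE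
  have hEa : AnalyticAt ℂ E e := by
    refine AnalyticAt.mul analyticAt_const (AnalyticAt.cexp (AnalyticAt.div ?_
      analyticAt_const hnC))
    refine AnalyticAt.clog (hga.div analyticAt_const hg0) ?_
    rw [div_self hg0]
    exact Complex.one_mem_slitPlane
  have hEe : E e = γ := by
    rw [hE]
    simp only
    rw [div_self hg0, Complex.log_one, zero_div, Complex.exp_zero, mul_one]
  set v : ℂ → ℂ := fun t => (t - e) * E t with hv
  have hva : AnalyticAt ℂ v e := (analyticAt_id.sub analyticAt_const).mul hEa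
  have hve : v e = 0 := by rw [hv]; simp
  have hvd : HasDerivAt v γ e := by
    have h1 := ((hasDerivAt_id e).sub_const e).mul hEa.differentiableAt.hasDerivAt
    simp only [id, sub_self, zero_mul, one_mul, add_zero] at h1
    rw [hEe] at h1
    exact h1
  have hvF : ∀ᶠ t in 𝓝 e, v t ^ n = F t := by
    have hgne : ∀ᶠ t in 𝓝 e, g t ≠ 0 := hga.continuousAt.eventually_ne hg0
    filter_upwards [hFg, hgne] with t ht1 ht2
    rw [ht1, hv, hE]
    simp only
    rw [mul_pow, mul_pow, hγ, ← Complex.exp_nat_mul, mul_div_cancel₀ _ hnC,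
      Complex.exp_log (div_ne_zero ht2 hg0), smul_eq_mul]
    field_simp
  have hvd' : deriv v e ≠ 0 := by rw [hvd.deriv]; exact hγ0
  obtain ⟨σ, ρ₀, hρ₀, hσe, hσ, hσl, hσd⟩ := local_inverse hva hvd'
  rw [hve] at hσe hσ hσd
  have hσc : ContinuousAt σ 0 := (hσ 0 (Metric.mem_ball_self hρ₀)).1.continuousAt
  have hU : ∀ᶠ u in 𝓝 (0 : ℂ), v (σ u) ^ n = F (σ u) ∧ p.eval (σ u) ≠ 0 := by
    have h1 : Tendsto σ (𝓝 0) (𝓝 e) := by
      have := hσc.tendsto
      rwa [hσe] at this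
    exact h1.eventually (hvF.and hne)
  rw [Metric.eventually_nhds_iff] at hU
  obtain ⟨ρ₁, hρ₁, hU⟩ := hU
  refine ⟨n, hn, σ, min ρ₀ ρ₁, lt_min hρ₀ hρ₁, hσe, ?_, ?_, ?_⟩
  · rw [hσd.deriv, hvd.deriv]
    exact inv_ne_zero hγ0
  · intro u hu
    have hu0 : u ∈ Metric.ball (0 : ℂ) ρ₀ := by
      rw [Metric.mem_ball, dist_zero_right]
      exact lt_of_lt_of_le hu (min_le_left _ _)
    obtain ⟨h1, h2⟩ := hσ u hu0
    refine ⟨h1, ?_⟩
    obtain ⟨h3, h4⟩ := hU (y := u) (by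
      rw [dist_zero_right]
      exact lt_of_lt_of_le hu (min_le_right _ _))
    rw [← hexpF _ h4, ← h3, h2]
  · intro ρ' hρ'
    have h1 : ∀ᶠ t in 𝓝 e, ‖v t‖ < ρ' := by
      have h2 : Tendsto (fun t => ‖v t‖) (𝓝 e) (𝓝 ‖v e‖) := hva.continuousAt.norm
      rw [hve, norm_zero] at h2
      exact h2.eventually_lt_const hρ'
    filter_upwards [h1, hσl] with t ht1 ht2
    exact ⟨v t, ht1, ht2⟩

end Pool.Agent.MP_410f3c_al.V
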