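import Pool.Agent.MP_410f3c_al.V.Kern
import Pool.Agent.MP_410f3c_al.V.Unif

/-!
# The functionals along the valleys
-/

set_option autoImplicit false

open Polynomial Filter Topology MeasureTheory

namespace Pool.Agent.MP_410f3c_al.V

/-- The asymptotic hypothesis. -/
def HypA (p q : ℂ[X]) (P : ℕ → ℂ[X]) : Prop :=
  ∀ T : Set ℂ, IsCompact T → (∀ t ∈ T, p.eval t ≠ 0) → ∃ C : ℝ, 0 ≤ C ∧ ∀ m : ℕ, ∀ t ∈ T,
    ‖(derivative (P m)).eval t - Complex.exp (q.eval t / p.eval t) * (p.eval t) ^ m‖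
      ≤ C / (m + 1) * ‖p.eval t‖ ^ m

theorem exp_neg_le_rpow {y β : ℝ} (hy : 0 < y) (hβ0 : 0 ≤ β) (hβ1 : β ≤ 1) :
    Real.exp (-y) ≤ y ^ (-β) := by
  rw [Real.rpow_def_of_pos hy]
  apply Real.exp_le_exp.mpr
  have h1 : Real.log y ≤ y - 1 := Real.log_le_sub_one_of_pos hy
  rcases le_total 0 (Real.log y) with h | h
  · nlinarith
  · nlinarith

theorem exp_int_bound {m k : ℕ} (hm : 0 < m) (hk : 0 < k) {r₁ : ℝ} (hr₁ : 0 < r₁) (hr : r₁ ≤ 1) :
    ∫ r in (0 : ℝ)..r₁, Real.exp (-(m * r ^ k)) ≤ 2 * (m : ℝ) ^ (-(1 / (2 * (k : ℝ)))) := by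
  have hm' : (0 : ℝ) < m := by exact_mod_cast hm
  have hk' : (1 : ℝ) ≤ k := by exact_mod_cast hk
  have hβ0 : 0 ≤ 1 / (2 * (k : ℝ)) := by positivity
  have hβ1 : 1 / (2 * (k : ℝ)) ≤ 1 := by
    rw [div_le_one (by positivity)]; linarith
  have h1 : ∫ r in (0 : ℝ)..r₁, Real.exp (-(m * r ^ k))
      ≤ ∫ r in (0 : ℝ)..r₁, (m : ℝ) ^ (-(1 / (2 * (k : ℝ)))) * r ^ (-(1 / 2 : ℝ)) := by
    refine intervalIntegral.integral_mono_on_of_le_Ioo hr₁.le ?_ ?_ ?_
    · exact Continuous.intervalIntegrable (by fun_prop) _ _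
    · exact (intervalIntegral.intervalIntegrable_rpow' (by norm_num)).const_mul _
    · intro r hr'
      have hr0 : 0 < r := hr'.1
      refine (exp_neg_le_rpow (by positivity) hβ0 hβ1).trans ?_
      rw [Real.mul_rpow hm'.le (by positivity)]
      refine mul_le_mul_of_nonneg_left ?_ (by positivity)
      rw [← Real.rpow_natCast, ← Real.rpow_mul hr0.le]
      refine le_of_eq ?_
      congr 1
      field_simp
  refine h1.trans ?_
  rw [intervalIntegral.integral_const_mul, integral_rpow (Or.inl (by norm_num))]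
  have h2 : (r₁ ^ (-(1 / 2 : ℝ) + 1) - (0 : ℝ) ^ (-(1 / 2 : ℝ) + 1)) / (-(1 / 2) + 1) ≤ 2 := by
    rw [Real.zero_rpow (by norm_num), sub_zero, div_le_iff₀ (by norm_num)]
    have h3 : r₁ ^ (-(1 / 2 : ℝ) + 1) ≤ 1 := Real.rpow_le_one hr₁.le hr (by norm_num)
    linarith
  have h4 : (0 : ℝ) ≤ (m : ℝ) ^ (-(1 / (2 * (k : ℝ)))) := by positivity
  nlinarith

theorem exp_int_summable {k : ℕ} (hk : 0 < k) {r₁ : ℝ} (hr₁ : 0 < r₁) (hr : r₁ ≤ 1) :
    Summable (fun m : ℕ => 1 / ((m : ℝ) + 1) * ∫ r in (0 : ℝ)..r₁, Real.exp (-(m * r ^ k))) := by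
  rw [← summable_nat_add_iff 1]
  have hk' : (1 : ℝ) ≤ k := by exact_mod_cast hk
  have hβ0 : 0 < 1 / (2 * (k : ℝ)) := by positivity
  have h1 : Summable (fun m : ℕ => 2 * ((m + 1 : ℕ) : ℝ) ^ (-(1 + 1 / (2 * (k : ℝ))))) := by
    refine Summable.mul_left _ ?_
    exact (summable_nat_add_iff (f := fun m : ℕ => (m : ℝ) ^ (-(1 + 1 / (2 * (k : ℝ))))) 1).mpr
      (Real.summable_nat_rpow.mpr (by linarith))
  refine Summable.of_nonneg_of_le ?_ ?_ h1
  · intro m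
    refine mul_nonneg (by positivity) ?_
    exact intervalIntegral.integral_nonneg hr₁.le (fun r _ => (Real.exp_pos _).le)
  · intro m
    have h2 := exp_int_bound (m := m + 1) (k := k) (Nat.succ_pos m) hk hr₁ hr
    have hm' : (0 : ℝ) < ((m + 1 : ℕ) : ℝ) := by positivity
    have h3 : 1 / (((m + 1 : ℕ) : ℝ) + 1) ≤ ((m + 1 : ℕ) : ℝ) ^ (-1 : ℝ) := by
      rw [Real.rpow_neg_one, one_div]
      exact inv_anti₀ hm' (by linarith)
    calc 1 / (((m + 1 : ℕ) : ℝ) + 1) * ∫ r in (0 : ℝ)..r₁, Real.exp (-(((m + 1 : ℕ) : ℝ) * r ^ k))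
        ≤ ((m + 1 : ℕ) : ℝ) ^ (-1 : ℝ) *
          (2 * ((m + 1 : ℕ) : ℝ) ^ (-(1 / (2 * (k : ℝ))))) := by
          refine mul_le_mul h3 h2 ?_ (by positivity)
          exact intervalIntegral.integral_nonneg hr₁.le (fun r _ => (Real.exp_pos _).le)
      _ = 2 * (((m + 1 : ℕ) : ℝ) ^ (-1 : ℝ) * ((m + 1 : ℕ) : ℝ) ^ (-(1 / (2 * (k : ℝ))))) := by
          ring
      _ = 2 * ((m + 1 : ℕ) : ℝ) ^ (-(1 + 1 / (2 * (k : ℝ)))) := by
          rw [← Real.rpow_add hm']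
          congr 2
          ring

/-- The functional along a valley. -/
theorem valley_cls (R : Ray) {p q : ℂ[X]} {P : ℕ → ℂ[X]} (hA : HypA p q P) {k : ℕ} (hk : 0 < k)
    {θ : ℂ → ℂ} {ρ ρ₁ : ℝ} (hρ₁ : 0 < ρ₁) (hρ : ρ₁ < ρ) (hρ1 : ρ₁ ≤ 1)
    (hsm : ‖R.κ‖ * ρ₁ ^ k ≤ 1 / 4)
    (hθ : ∀ u : ℂ, ‖u‖ < ρ → AnalyticAt ℂ θ u ∧ p.eval (θ u) = R.W (-u ^ k))
    {c : ℕ → ℂ} {C₂ : ℝ} (hC₂ : 0 ≤ C₂)
    (hT : ∀ u : ℂ, ‖u‖ ≤ ρ₁ → ‖Complex.exp (q.eval (θ u) / p.eval (θ u)) * deriv θ u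
      - ∑ j ∈ Finset.range k, c j * u ^ j‖ ≤ C₂ * ‖u‖ ^ k)
    {ω : ℂ} (hω : ω ^ k = 1) {r₁ : ℝ} (hr₁ : 0 < r₁) (hr : r₁ ≤ ρ₁) :
    R.Cls (c (k - 1) / (R.a * R.κ * k)) (AA P (θ 0) (θ (ω * r₁))) := by
  have hωn : ‖ω‖ = 1 := by
    have h1 : ‖ω‖ ^ k = 1 := by rw [← norm_pow, hω, norm_one]
    exact (pow_eq_one_iff_of_nonneg (norm_nonneg _) hk.ne').mp h1
  have hnr : ∀ r : ℝ, 0 ≤ r → ‖ω * (r : ℂ)‖ = r := by
    intro r hr0
    rw [norm_mul, hωn, one_mul, Complex.norm_real, Real.norm_of_nonneg hr0]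
  -- compactness
  have hball : ∀ u : ℂ, u ∈ Metric.closedBall (0 : ℂ) ρ₁ → ‖u‖ < ρ := by
    intro u hu
    rw [Metric.mem_closedBall, dist_zero_right] at hu
    linarith
  have hθc : ContinuousOn θ (Metric.closedBall 0 ρ₁) := fun u hu =>
    (hθ u (hball u hu)).1.continuousAt.continuousWithinAt
  have hθ'c : ContinuousOn (deriv θ) (Metric.closedBall 0 ρ₁) := fun u hu =>
    (hθ u (hball u hu)).1.deriv.continuousAt.continuousWithinAt
  have hTc : IsCompact (θ '' Metric.closedBall 0 ρ₁) := (isCompact_closedBall _ _).image_of_continuousOn hθc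
  obtain ⟨C, hC0, hC⟩ := hA _ hTc (by
    rintro _ ⟨u, hu, rfl⟩
    rw [(hθ u (hball u hu)).2]
    exact R.W_ne _)
  obtain ⟨B, hB⟩ := (isCompact_closedBall (0 : ℂ) ρ₁).exists_bound_of_continuousOn hθ'c
  have hB0 : 0 ≤ B := (norm_nonneg _).trans (hB 0 (Metric.mem_closedBall_self hρ₁.le))
  have hmem : ∀ r : ℝ, r ∈ Set.Icc 0 r₁ → ω * (r : ℂ) ∈ Metric.closedBall (0 : ℂ) ρ₁ := by
    intro r hr'
    rw [Metric.mem_closedBall, dist_zero_right, hnr r hr'.1]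
    linarith [hr'.2]
  have hpw : ∀ r : ℝ, r ∈ Set.Icc 0 r₁ → ∀ m : ℕ, (p.eval (θ (ω * r))) ^ m
      = R.a ^ m * Complex.exp (-(R.κ * (m * (r ^ k : ℝ)))) := by
    intro r hr' m
    rw [(hθ _ (hball _ (hmem r hr'))).2]
    unfold Ray.W
    rw [mul_pow, ← Complex.exp_nat_mul, mul_pow, hω]
    congr 2
    push_cast
    ring
  -- the functions along the path
  set Θ : ℂ → ℂ := fun u => Complex.exp (q.eval (θ u) / p.eval (θ u)) * deriv θ u with hΘ
  have hΘc : ContinuousOn Θ (Metric.closedBall 0 ρ₁) := by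
    refine ContinuousOn.mul ?_ hθ'c
    refine Complex.continuous_exp.comp_continuousOn ?_
    refine ContinuousOn.div (q.continuous.comp_continuousOn hθc)
      (p.continuous.comp_continuousOn hθc) ?_
    intro u hu
    rw [(hθ u (hball u hu)).2]
    exact R.W_ne _
  set φ : ℝ → ℂ := fun r => ω * Θ (ω * r) with hφ
  have hpath : ContinuousOn (fun r : ℝ => ω * (r : ℂ)) (Set.Icc 0 r₁) :=
    Continuous.continuousOn (by fun_prop)
  have hφc : ContinuousOn φ (Set.Icc 0 r₁) :=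
    continuousOn_const.mul (hΘc.comp hpath hmem)
  have hθcr : ContinuousOn (fun r : ℝ => θ (ω * r)) (Set.Icc 0 r₁) := hθc.comp hpath hmem
  have hθ'cr : ContinuousOn (fun r : ℝ => deriv θ (ω * r)) (Set.Icc 0 r₁) := hθ'c.comp hpath hmem
  set I : ℕ → ℂ := fun m => (P m).eval (θ (ω * r₁)) - (P m).eval (θ 0) with hI
  set Mm : ℕ → ℂ := fun m => ∫ r in (0 : ℝ)..r₁,
    φ r * (R.a ^ m * Complex.exp (-(R.κ * (m * (r ^ k : ℝ))))) with hMm
  have hIint : ∀ m, I m = ∫ r in (0 : ℝ)..r₁,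
      (derivative (P m)).eval (θ (ω * r)) * (deriv θ (ω * r) * ω) := by
    intro m
    have h1 : ∀ r ∈ Set.uIcc 0 r₁, HasDerivAt (fun r : ℝ => (P m).eval (θ (ω * r)))
        ((derivative (P m)).eval (θ (ω * r)) * (deriv θ (ω * r) * ω)) r := by
      intro r hr'
      rw [Set.uIcc_of_le hr₁.le] at hr'
      have h2 : HasDerivAt θ (deriv θ (ω * r)) (ω * r) :=
        (hθ _ (hball _ (hmem r hr'))).1.differentiableAt.hasDerivAt
      have h3 : HasDerivAt (fun r : ℝ => ω * (r : ℂ)) ω r := by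
        have := (Complex.ofRealCLM.hasDerivAt (x := r)).const_mul ω
        simpa using this
      have h4 : HasDerivAt (fun r : ℝ => θ (ω * r)) (deriv θ (ω * r) * ω) r :=
        HasDerivAt.comp r (h₂ := θ) (h := fun r : ℝ => ω * (r : ℂ)) h2 h3
      exact HasDerivAt.comp r (h₂ := fun z => (P m).eval z) (h := fun r : ℝ => θ (ω * r))
        ((P m).hasDerivAt _) h4
    rw [intervalIntegral.integral_eq_sub_of_hasDerivAt h1]
    · rw [hI]
      simp only [Complex.ofReal_zero, mul_zero]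
    · refine ContinuousOn.intervalIntegrable ?_
      rw [Set.uIcc_of_le hr₁.le]
      exact ((derivative (P m)).continuous.comp_continuousOn hθcr).mul
        (hθ'cr.mul continuousOn_const)
  -- the error
  have hE : ∀ m : ℕ, ‖I m - Mm m‖ ≤ ‖R.a‖ ^ m * (C * B * (1 / ((m : ℝ) + 1) *
      ∫ r in (0 : ℝ)..r₁, Real.exp (-(m * r ^ k)))) := by
    intro m
    rw [hIint, hMm]
    simp only
    rw [← intervalIntegral.integral_sub]
    · have h1 : ‖R.a‖ ^ m * (C * B * (1 / ((m : ℝ) + 1) *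
          ∫ r in (0 : ℝ)..r₁, Real.exp (-(m * r ^ k))))
          = ∫ r in (0 : ℝ)..r₁, ‖R.a‖ ^ m * (C * B * (1 / ((m : ℝ) + 1) *
            Real.exp (-(m * r ^ k)))) := by
        rw [intervalIntegral.integral_const_mul, intervalIntegral.integral_const_mul,
          intervalIntegral.integral_const_mul]
      rw [h1]
      refine intervalIntegral.norm_integral_le_of_norm_le hr₁.le ?_ ?_
      · refine Filter.Eventually.of_forall ?_
        intro r hr'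
        have hr'' : r ∈ Set.Icc 0 r₁ := ⟨hr'.1.le, hr'.2⟩
        have e1 : (derivative (P m)).eval (θ (ω * r)) * (deriv θ (ω * r) * ω)
            - φ r * (R.a ^ m * Complex.exp (-(R.κ * (m * (r ^ k : ℝ)))))
            = ((derivative (P m)).eval (θ (ω * r)) -
              Complex.exp (q.eval (θ (ω * r)) / p.eval (θ (ω * r))) *
                (p.eval (θ (ω * r))) ^ m) * (deriv θ (ω * r) * ω) := by
          rw [hpw r hr'' m, hφ, hΘ]
          simp only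
          ring
        rw [e1, norm_mul, norm_mul, hωn, mul_one]
        have h2 := hC m _ ⟨_, hmem r hr'', rfl⟩
        have h3 : ‖p.eval (θ (ω * r))‖ ^ m = ‖R.a‖ ^ m * Real.exp (-(m * r ^ k)) := by
          rw [← norm_pow, hpw r hr'' m, norm_mul, norm_pow, Complex.norm_exp]
          congr 2
          have e : ((m : ℂ) * ((r ^ k : ℝ) : ℂ)) = ((m * r ^ k : ℝ) : ℂ) := by push_cast; ring
          rw [e, Complex.neg_re, Complex.re_mul_ofReal, R.hκ, one_mul]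
        rw [h3] at h2
        calc _ ≤ C / (m + 1) * (‖R.a‖ ^ m * Real.exp (-(m * r ^ k))) * B :=
              mul_le_mul h2 (hB _ (hmem r hr'')) (norm_nonneg _) (by positivity)
          _ = _ := by ring
      · exact Continuous.intervalIntegrable (by fun_prop) _ _
    · refine ContinuousOn.intervalIntegrable ?_
      rw [Set.uIcc_of_le hr₁.le]
      exact ((derivative (P m)).continuous.comp_continuousOn hθcr).mul
        (hθ'cr.mul continuousOn_const)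
    · refine ContinuousOn.intervalIntegrable ?_
      rw [Set.uIcc_of_le hr₁.le]
      exact hφc.mul (Continuous.continuousOn (by fun_prop))
  have hsumB : Summable (fun m : ℕ => C * B * (1 / ((m : ℝ) + 1) *
      ∫ r in (0 : ℝ)..r₁, Real.exp (-(m * r ^ k)))) :=
    (exp_int_summable hk hr₁ (hr.trans hρ1)).mul_left _
  set Bm : ℕ → ℝ := fun m => C * B * (1 / ((m : ℝ) + 1) *
      ∫ r in (0 : ℝ)..r₁, Real.exp (-(m * r ^ k))) with hBm
  have hBm0 : ∀ m, 0 ≤ Bm m := by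
    intro m
    refine mul_nonneg (mul_nonneg hC0 hB0) (mul_nonneg (by positivity) ?_)
    exact intervalIntegral.integral_nonneg hr₁.le (fun r _ => (Real.exp_pos _).le)
  -- bounds for the main term
  obtain ⟨B', hB'⟩ := (isCompact_Icc (a := (0 : ℝ)) (b := r₁)).exists_bound_of_continuousOn hφc
  have hB'0 : 0 ≤ B' := (norm_nonneg _).trans (hB' 0 ⟨le_rfl, hr₁.le⟩)
  have hM : ∀ m, ‖Mm m‖ ≤ ‖R.a‖ ^ m * (B' * r₁) := by
    intro m
    have h1 : ‖Mm m‖ ≤ (B' * ‖R.a‖ ^ m) * |r₁ - 0| := by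
      rw [hMm]
      refine intervalIntegral.norm_integral_le_of_norm_le_const ?_
      intro r hr'
      rw [Set.uIoc_of_le hr₁.le] at hr'
      have hr'' : r ∈ Set.Icc 0 r₁ := ⟨hr'.1.le, hr'.2⟩
      rw [norm_mul]
      refine mul_le_mul (hB' r hr'') ?_ (norm_nonneg _) hB'0
      rw [norm_mul, norm_pow]
      have h2 : ‖Complex.exp (-(R.κ * (m * (r ^ k : ℝ))))‖ ≤ 1 := by
        rw [Complex.norm_exp, Real.exp_le_one_iff]
        have : (-(R.κ * ((m : ℂ) * ((r ^ k : ℝ) : ℂ)))).re = -(m * r ^ k) := by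
          have e : ((m : ℂ) * ((r ^ k : ℝ) : ℂ)) = ((m * r ^ k : ℝ) : ℂ) := by push_cast; ring
          rw [e, Complex.neg_re, Complex.re_mul_ofReal, R.hκ, one_mul]
        rw [this]
        have : 0 ≤ (m : ℝ) * r ^ k := mul_nonneg (Nat.cast_nonneg _) (pow_nonneg hr''.1 _)
        linarith
      calc ‖R.a‖ ^ m * ‖Complex.exp (-(R.κ * (m * (r ^ k : ℝ))))‖ ≤ ‖R.a‖ ^ m * 1 :=
            mul_le_mul_of_nonneg_left h2 (by positivity)
        _ = _ := mul_one _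
    rw [sub_zero, abs_of_pos hr₁] at h1
    calc ‖Mm m‖ ≤ _ := h1
      _ = _ := by ring
  obtain ⟨S, hS⟩ : ∃ S : ℝ, ∀ m, Bm m ≤ S := by
    refine ⟨∑' m, Bm m, fun m => ?_⟩
    exact hsumB.le_tsum m (fun j _ => hBm0 j)
  have hS0 : 0 ≤ S := (hBm0 0).trans (hS 0)
  have hIb : ∀ m, ‖I m‖ ≤ (B' * r₁ + S) * ‖R.a‖ ^ m := by
    intro m
    calc ‖I m‖ = ‖Mm m + (I m - Mm m)‖ := by congr 1; ring
      _ ≤ ‖Mm m‖ + ‖I m - Mm m‖ := norm_add_le _ _
      _ ≤ ‖R.a‖ ^ m * (B' * r₁) + ‖R.a‖ ^ m * S :=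
          add_le_add (hM m) ((hE m).trans (mul_le_mul_of_nonneg_left (hS m) (by positivity)))
      _ = _ := by ring
  -- the error function
  set gE : ℝ → ℂ := fun x => ∑' m, (R.W x)⁻¹ ^ (m + 1) * (I m - Mm m) with hgE
  have hWn : ∀ x : ℝ, 0 < x → ‖(R.W x)⁻¹‖ ≤ ‖R.a‖⁻¹ := by
    intro x hx
    rw [norm_inv, R.norm_W]
    refine inv_anti₀ R.norm_a_pos ?_
    have := Real.one_le_exp hx.le
    nlinarith [R.norm_a_pos]
  have hEb : ∀ x : ℝ, 0 < x → ∀ m, ‖(R.W x)⁻¹ ^ (m + 1) * (I m - Mm m)‖ ≤ ‖R.a‖⁻¹ * Bm m := by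
    intro x hx m
    rw [norm_mul, norm_pow]
    calc ‖(R.W x)⁻¹‖ ^ (m + 1) * ‖I m - Mm m‖ ≤ ‖R.a‖⁻¹ ^ (m + 1) * (‖R.a‖ ^ m * Bm m) :=
          mul_le_mul (pow_le_pow_left₀ (norm_nonneg _) (hWn x hx) _) (hE m) (norm_nonneg _)
            (by positivity)
      _ = ‖R.a‖⁻¹ * Bm m := by
          have : ‖R.a‖ ^ m ≠ 0 := pow_ne_zero _ R.norm_a_pos.ne'
          rw [pow_succ, inv_pow]
          field_simp
  have hEs : ∀ x : ℝ, 0 < x → Summable (fun m => (R.W x)⁻¹ ^ (m + 1) * (I m - Mm m)) := by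
    intro x hx
    exact Summable.of_norm_bounded (hsumB.mul_left _) (hEb x hx)
  have hEBd : Bd gE := by
    refine Asymptotics.IsBigO.of_bound (∑' m, ‖R.a‖⁻¹ * Bm m) ?_
    filter_upwards [self_mem_nhdsWithin] with x hx
    rw [norm_one, mul_one]
    exact tsum_of_norm_bounded (hsumB.mul_left _).hasSum (hEb x hx)
  -- the main function
  have hmain := tame_main R hr₁ hk hφc (b := fun j => c j * ω ^ (j + 1)) hC₂ (by
    intro r hr'
    have h1 := hT (ω * r) (by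
      rw [hnr r hr'.1]; exact hr'.2.trans hr)
    rw [hnr r hr'.1] at h1
    have e1 : φ r - ∑ j ∈ Finset.range k, c j * ω ^ (j + 1) * (r : ℂ) ^ j
        = ω * (Complex.exp (q.eval (θ (ω * r)) / p.eval (θ (ω * r))) * deriv θ (ω * r)
          - ∑ j ∈ Finset.range k, c j * (ω * r) ^ j) := by
      rw [hφ, hΘ, mul_sub, Finset.mul_sum]
      simp only
      congr 1
      refine Finset.sum_congr rfl fun j _ => ?_
      rw [mul_pow, pow_succ]
      ring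
    rw [e1, norm_mul, hωn, one_mul]
    exact h1) (by
    have h1 : r₁ ^ k ≤ ρ₁ ^ k := pow_le_pow_left₀ hr₁.le hr k
    nlinarith [norm_nonneg R.κ])
  have hk1 : k - 1 + 1 = k := by omega
  simp only [hk1, hω, mul_one] at hmain
  refine ⟨_, hmain.add hEBd.tame, ?_⟩
  intro x hx
  have hval := R.hasVal_psF (I := I) (C := B' * r₁ + S) (by positivity) hIb hx
  have e2 : (c (k - 1) / (R.a * R.κ * k)) * lg x + (((fun x : ℝ => ∑' m : ℕ, (R.W x)⁻¹ ^ (m + 1) *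
        ∫ r in (0 : ℝ)..r₁, φ r * (R.a ^ m * Complex.exp (-(R.κ * (m * (r ^ k : ℝ))))))
      - (c (k - 1) / (R.a * R.κ * k)) • lg) + gE) x = ∑' m, (R.W x)⁻¹ ^ (m + 1) * I m := by
    have hMs : Summable (fun m => (R.W x)⁻¹ ^ (m + 1) * Mm m) :=
      (main_hasSum R hr₁.le hφc (k := k) hx).summable
    have h3 : ∑' m, (R.W x)⁻¹ ^ (m + 1) * I m = (∑' m, (R.W x)⁻¹ ^ (m + 1) * Mm m)
        + ∑' m, (R.W x)⁻¹ ^ (m + 1) * (I m - Mm m) := by
      rw [← hMs.tsum_add (hEs x hx)]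
      refine tsum_congr fun m => ?_
      ring
    rw [h3, Pi.add_apply, Pi.sub_apply, Pi.smul_apply, smul_eq_mul]
    ring
  rw [e2]
  exact hval

end Pool.Agent.MP_410f3c_al.V
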