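import Pool.Agent.MP_410f3c_al.V.Setup
import Pool.Agent.MP_410f3c_al.V.ExpApprox
import Pool.Agent.MP_410f3c_al.V.Valley

/-!
# The asymptotic hypothesis
-/

set_option autoImplicit false

open Polynomial Filter Topology

namespace Pool.Agent.MP_410f3c_al.V

variable {σ : Type} [Fintype σ] [DecidableEq σ]

/-- The linear functional with given values on the monomials. -/
noncomputable def lam (val : (σ →₀ ℕ) → ℂ) : MvPolynomial σ ℂ →ₗ[ℂ] ℂ :=
  (MvPolynomial.basisMonomials σ ℂ).constr ℂ val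

omit [Fintype σ] [DecidableEq σ] in
theorem lam_monomial (val : (σ →₀ ℕ) → ℂ) (s : σ →₀ ℕ) (a : ℂ) :
    lam val (MvPolynomial.monomial s a) = a * val s := by
  have h1 : MvPolynomial.monomial s a = a • MvPolynomial.basisMonomials σ ℂ s := by
    rw [MvPolynomial.coe_basisMonomials, MvPolynomial.smul_monomial, smul_eq_mul, mul_one]
  rw [h1, map_smul]
  unfold lam
  rw [Module.Basis.constr_basis, smul_eq_mul]

omit [Fintype σ] [DecidableEq σ] in
theorem lam_apply (val : (σ →₀ ℕ) → ℂ) (h : MvPolynomial σ ℂ) :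
    lam val h = ∑ s ∈ h.support, h.coeff s * val s := by
  conv_lhs => rw [h.as_sum]
  rw [map_sum]
  exact Finset.sum_congr rfl fun s _ => lam_monomial val s _

omit [Fintype σ] [DecidableEq σ] in
theorem lam_mul (val : (σ →₀ ℕ) → ℂ) (g h : MvPolynomial σ ℂ) :
    lam val (g * h) = ∑ s ∈ g.support, g.coeff s * lam val (MvPolynomial.monomial s 1 * h) := by
  conv_lhs => rw [g.as_sum]
  rw [Finset.sum_mul, map_sum]
  refine Finset.sum_congr rfl fun s _ => ?_
  have : (MvPolynomial.monomial s (g.coeff s) : MvPolynomial σ ℂ)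
      = (g.coeff s) • MvPolynomial.monomial s 1 := by
    rw [MvPolynomial.smul_monomial, smul_eq_mul, mul_one]
  rw [this, smul_mul_assoc, map_smul, smul_eq_mul]

omit [DecidableEq σ] in
/-- The general growth estimate. -/
theorem growth {i j : σ} (val : (σ →₀ ℕ) → ℂ) (K : ℕ → ℝ) (hK : Monotone K) {B : ℝ}
    (hB : 0 ≤ B) (Pr : (σ →₀ ℕ) → Prop) (hadd : ∀ τ s, Pr τ → Pr (τ + s))
    (hval : ∀ τ, Pr τ → ‖val τ‖ ≤ B ^ (τ i + τ j) * K (∑ k, τ k)) (g : MvPolynomial σ ℂ) {e : ℕ}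
    (he : ∀ s ∈ g.support, ∑ k, s k ≤ e) (l : ℕ) (τ : σ →₀ ℕ) (hτ : Pr τ) :
    ‖lam val (MvPolynomial.monomial τ 1 * g ^ l)‖ ≤ B ^ (τ i + τ j) *
      (∑ s ∈ g.support, ‖g.coeff s‖ * B ^ (s i + s j)) ^ l * K (∑ k, τ k + e * l) := by
  induction l generalizing τ with
  | zero =>
    rw [pow_zero, mul_one, lam_monomial, one_mul, pow_zero, mul_one, mul_zero, add_zero]
    exact hval τ hτ
  | succ l ih =>
    have h1 : MvPolynomial.monomial τ 1 * g ^ (l + 1) = g * (MvPolynomial.monomial τ 1 * g ^ l) := by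
      ring
    rw [h1, lam_mul]
    set q : ℝ := ∑ s ∈ g.support, ‖g.coeff s‖ * B ^ (s i + s j) with hq
    have hq0 : 0 ≤ q := Finset.sum_nonneg fun s _ => by positivity
    refine (norm_sum_le _ _).trans ?_
    have h2 : B ^ (τ i + τ j) * q ^ (l + 1) * K (∑ k, τ k + e * (l + 1))
        = ∑ s ∈ g.support, ‖g.coeff s‖ * B ^ (s i + s j) *
          (B ^ (τ i + τ j) * q ^ l * K (∑ k, τ k + e * (l + 1))) := by
      rw [← Finset.sum_mul, ← hq]
      ring
    rw [h2]
    refine Finset.sum_le_sum fun s hs => ?_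
    rw [norm_mul, mul_assoc]
    refine mul_le_mul_of_nonneg_left ?_ (norm_nonneg _)
    have h3 : MvPolynomial.monomial s 1 * (MvPolynomial.monomial τ 1 * g ^ l)
        = MvPolynomial.monomial (τ + s) (1 : ℂ) * g ^ l := by
      rw [← mul_assoc, MvPolynomial.monomial_mul, one_mul, add_comm]
    rw [h3]
    refine (ih (τ + s) (hadd τ s hτ)).trans ?_
    have h4 : ∑ k, (τ + s) k = ∑ k, τ k + ∑ k, s k := by
      simp_rw [Finsupp.add_apply]
      exact Finset.sum_add_distrib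
    have h5 : ∑ k, (τ + s) k + e * l ≤ ∑ k, τ k + e * (l + 1) := by
      have := he s hs
      rw [h4, Nat.mul_succ]
      omega
    rw [Finsupp.add_apply, Finsupp.add_apply]
    calc B ^ (τ i + s i + (τ j + s j)) * q ^ l * K (∑ k, (τ + s) k + e * l)
        ≤ B ^ (τ i + s i + (τ j + s j)) * q ^ l * K (∑ k, τ k + e * (l + 1)) :=
          mul_le_mul_of_nonneg_left (hK h5) (by positivity)
      _ = B ^ (s i + s j) * (B ^ (τ i + τ j) * q ^ l * K (∑ k, τ k + e * (l + 1))) := by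
          have : B ^ (τ i + s i + (τ j + s j)) = B ^ (s i + s j) * B ^ (τ i + τ j) := by
            rw [← pow_add]; congr 1; ring
          rw [this]
          ring

namespace Dat

variable (D : Dat σ)

/-- The values. -/
noncomputable def val (t : ℂ) (c : ℕ) (s : σ →₀ ℕ) : ℂ :=
  t ^ s D.i * (1 - t) ^ s D.j * (((s D.i + s D.j + c + 1).factorial : ℂ) * rf D.i D.j s)

theorem val_add {t : ℂ} {c e : ℕ} {s : σ →₀ ℕ} (hs : s D.i + s D.j = e)
    (hs' : ∀ k ∈ (Finset.univ.erase D.i).erase D.j, s k = 0) (τ : σ →₀ ℕ) :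
    D.val t c (s + τ) = t ^ s D.i * (1 - t) ^ s D.j * D.val t (c + e) τ := by
  unfold val
  have h1 : rf D.i D.j (s + τ) = rf D.i D.j τ := by
    unfold rf
    refine Finset.prod_congr rfl fun k hk => ?_
    rw [Finsupp.add_apply, hs' k hk, zero_add]
  have h2 : (s + τ) D.i + (s + τ) D.j + c + 1 = τ D.i + τ D.j + (c + e) + 1 := by
    rw [Finsupp.add_apply, Finsupp.add_apply]; omega
  rw [h1, h2, Finsupp.add_apply, Finsupp.add_apply, pow_add, pow_add]
  ring

theorem lam_monomial_mul {t : ℂ} {c e : ℕ} {s : σ →₀ ℕ} (hs : s D.i + s D.j = e)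
    (hs' : ∀ k ∈ (Finset.univ.erase D.i).erase D.j, s k = 0) (a : ℂ) (h : MvPolynomial σ ℂ) :
    lam (D.val t c) (MvPolynomial.monomial s a * h) =
      a * (t ^ s D.i * (1 - t) ^ s D.j) * lam (D.val t (c + e)) h := by
  conv_lhs => rw [h.as_sum]
  rw [Finset.mul_sum, map_sum, lam_apply _ h, Finset.mul_sum]
  refine Finset.sum_congr rfl fun τ _ => ?_
  rw [MvPolynomial.monomial_mul, lam_monomial, D.val_add hs hs']
  ring

theorem lam_FF (t : ℂ) (c : ℕ) (h : MvPolynomial σ ℂ) :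
    lam (D.val t c) (FF D.i D.j D.d D.c * h) = D.p.eval t * lam (D.val t (c + D.d)) h := by
  unfold FF p
  rw [Finset.sum_mul, map_sum, pp_eval, Finset.sum_mul]
  refine Finset.sum_congr rfl fun k hk => ?_
  have hk' : k ≤ D.d := Nat.lt_succ_iff.mp (Finset.mem_range.mp hk)
  have h2 : (MvPolynomial.C (D.c k) * MvPolynomial.X D.i ^ k * MvPolynomial.X D.j ^ (D.d - k) :
      MvPolynomial σ ℂ) = MvPolynomial.monomial (Finsupp.single D.i k +
        Finsupp.single D.j (D.d - k)) (D.c k) := by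
    rw [MvPolynomial.X_pow_eq_monomial, MvPolynomial.X_pow_eq_monomial,
      MvPolynomial.C_mul_monomial, MvPolynomial.monomial_mul, mul_one, mul_one]
  have hij := D.hij
  have hi : (Finsupp.single D.i k + Finsupp.single D.j (D.d - k) : σ →₀ ℕ) D.i = k := by
    rw [Finsupp.add_apply, Finsupp.single_eq_same, Finsupp.single_eq_of_ne hij, add_zero]
  have hj : (Finsupp.single D.i k + Finsupp.single D.j (D.d - k) : σ →₀ ℕ) D.j = D.d - k := by
    rw [Finsupp.add_apply, Finsupp.single_eq_same, Finsupp.single_eq_of_ne hij.symm, zero_add]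
  rw [h2, D.lam_monomial_mul (e := D.d) (by rw [hi, hj]; omega), hi, hj]
  · ring
  · intro l hl
    have h4 : l ≠ D.j := Finset.ne_of_mem_erase hl
    have h5 : l ≠ D.i := Finset.ne_of_mem_erase (Finset.mem_of_mem_erase hl)
    rw [Finsupp.add_apply, Finsupp.single_eq_of_ne h5, Finsupp.single_eq_of_ne h4, add_zero]

theorem lam_FF_pow (t : ℂ) (c n : ℕ) (h : MvPolynomial σ ℂ) :
    lam (D.val t c) (FF D.i D.j D.d D.c ^ n * h)
      = D.p.eval t ^ n * lam (D.val t (c + D.d * n)) h := by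
  induction n generalizing c with
  | zero => simp
  | succ n ih =>
    rw [pow_succ', mul_assoc, lam_FF, ih]
    have : c + D.d + D.d * n = c + D.d * (n + 1) := by ring
    rw [this]
    ring

theorem lam_f_pow (t : ℂ) (m : ℕ) :
    lam (D.val t 0) (D.f ^ m) = ∑ l ∈ Finset.range (m + 1), (m.choose l : ℂ) *
      (D.p.eval t ^ (m - l) * lam (D.val t (D.d * (m - l))) (D.g ^ l)) := by
  unfold f
  rw [add_comm, add_pow, map_sum]
  refine Finset.sum_congr rfl fun l _ => ?_
  have h1 : D.g ^ l * FF D.i D.j D.d D.c ^ (m - l) * (m.choose l : MvPolynomial σ ℂ)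
      = (m.choose l : ℂ) • (FF D.i D.j D.d D.c ^ (m - l) * D.g ^ l) := by
    rw [MvPolynomial.smul_eq_C_mul, map_natCast]
    ring
  rw [h1, map_smul, lam_FF_pow, smul_eq_mul, zero_add]

/-- The subleading form. -/
noncomputable def u : ℂ[X] :=
  ∑ s ∈ D.g.support.filter (fun s => s D.i + s D.j + 1 = D.d),
    C (D.g.coeff s) * (X ^ s D.i * (1 - X) ^ s D.j)

theorem u_eval (t : ℂ) : D.u.eval t = ∑ s ∈ D.g.support,
    if s D.i + s D.j + 1 = D.d then D.g.coeff s * (t ^ s D.i * (1 - t) ^ s D.j) else 0 := by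
  unfold u
  rw [eval_finsetSum, Finset.sum_filter]
  refine Finset.sum_congr rfl fun s _ => ?_
  split_ifs <;> simp

/-- The sum of the coefficients of the lower terms. -/
noncomputable def Q' (B : ℝ) : ℝ := ∑ s ∈ D.g.support, ‖D.g.coeff s‖ * B ^ (s D.i + s D.j)

theorem Q'_nonneg {B : ℝ} (hB : 0 ≤ B) : 0 ≤ D.Q' B :=
  Finset.sum_nonneg fun s _ => by positivity

theorem norm_rf (s : σ →₀ ℕ) : ‖rf D.i D.j s‖ =
    ((∏ k ∈ (Finset.univ.erase D.i).erase D.j, (s k).factorial : ℕ) : ℝ) := by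
  unfold rf
  rw [← Nat.cast_prod, Complex.norm_natCast]

theorem val_norm {t : ℂ} {B : ℝ} (hB : 0 ≤ B) (ht : ‖t‖ ≤ B) (ht' : ‖1 - t‖ ≤ B) (c : ℕ)
    (s : σ →₀ ℕ) : ‖D.val t c s‖ ≤ B ^ (s D.i + s D.j) * ((s D.i + s D.j + c + 1).factorial *
      (∏ k ∈ (Finset.univ.erase D.i).erase D.j, (s k).factorial : ℕ) : ℝ) := by
  unfold val
  rw [norm_mul, norm_mul, norm_mul, norm_pow, norm_pow, D.norm_rf, Complex.norm_natCast, pow_add]
  refine mul_le_mul_of_nonneg_right ?_ (by positivity)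
  exact mul_le_mul (pow_le_pow_left₀ (norm_nonneg _) ht _) (pow_le_pow_left₀ (norm_nonneg _) ht' _)
    (by positivity) (by positivity)

theorem val_crude {t : ℂ} {B : ℝ} (hB : 0 ≤ B) (ht : ‖t‖ ≤ B) (ht' : ‖1 - t‖ ≤ B) (c : ℕ)
    (s : σ →₀ ℕ) : ‖D.val t c s‖ ≤ B ^ (s D.i + s D.j) * ((∑ k, s k + c + 1).factorial : ℕ) := by
  refine (D.val_norm hB ht ht' c s).trans ?_
  refine mul_le_mul_of_nonneg_left ?_ (by positivity)
  have h1 := Nat.prod_factorial_dvd_factorial_sum ((Finset.univ.erase D.i).erase D.j) (fun k => s k)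
  have h2 := Nat.le_of_dvd (Nat.factorial_pos _) h1
  set w := ∑ k ∈ (Finset.univ.erase D.i).erase D.j, s k with hw
  have h3 : (s D.i + s D.j + c + 1).factorial * w.factorial ≤ (∑ k, s k + c + 1).factorial := by
    have := Nat.le_of_dvd (Nat.factorial_pos _)
      (Nat.factorial_mul_factorial_dvd_factorial_add (s D.i + s D.j + c + 1) w)
    have e : ∑ k, s k + c + 1 = s D.i + s D.j + c + 1 + w := by
      rw [sum_split D.hij]; omega
    rw [e]
    exact this
  exact_mod_cast (Nat.mul_le_mul_left _ h2).trans h3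

theorem fact_aux (b w : ℕ) (hw : 0 < w) : (b + 1).factorial * w.factorial ≤ (b + w).factorial := by
  obtain ⟨w, rfl⟩ : ∃ w', w = w' + 1 := ⟨w - 1, by omega⟩
  induction w with
  | zero => simp
  | succ w ih =>
    have h1 := ih (Nat.succ_pos _)
    have h2 : b + (w + 1 + 1) = (b + (w + 1)) + 1 := by ring
    rw [h2, Nat.factorial_succ (w + 1), Nat.factorial_succ (b + (w + 1))]
    calc (b + 1).factorial * ((w + 1 + 1) * (w + 1).factorial)
        = (w + 1 + 1) * ((b + 1).factorial * (w + 1).factorial) := by ring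
      _ ≤ (b + (w + 1) + 1) * (b + (w + 1)).factorial := Nat.mul_le_mul (by omega) h1

theorem val_fine {t : ℂ} {B : ℝ} (hB : 0 ≤ B) (ht : ‖t‖ ≤ B) (ht' : ‖1 - t‖ ≤ B) (c : ℕ)
    (s : σ →₀ ℕ) (hs : ∃ k ∈ (Finset.univ.erase D.i).erase D.j, s k ≠ 0) :
    ‖D.val t c s‖ ≤ B ^ (s D.i + s D.j) * ((∑ k, s k + c).factorial : ℕ) := by
  refine (D.val_norm hB ht ht' c s).trans ?_
  refine mul_le_mul_of_nonneg_left ?_ (by positivity)
  have h1 := Nat.prod_factorial_dvd_factorial_sum ((Finset.univ.erase D.i).erase D.j) (fun k => s k)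
  have h2 := Nat.le_of_dvd (Nat.factorial_pos _) h1
  set w := ∑ k ∈ (Finset.univ.erase D.i).erase D.j, s k with hw
  have hw0 : 0 < w := by
    obtain ⟨k, hk, hk0⟩ := hs
    exact lt_of_lt_of_le (Nat.pos_of_ne_zero hk0)
      (Finset.single_le_sum (f := fun k => s k) (fun _ _ => Nat.zero_le _) hk)
  have h3 : (s D.i + s D.j + c + 1).factorial * w.factorial ≤ (∑ k, s k + c).factorial := by
    have := fact_aux (s D.i + s D.j + c) w hw0
    have e : ∑ k, s k + c = s D.i + s D.j + c + w := by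
      rw [sum_split D.hij]; omega
    rw [e]
    exact this
  exact_mod_cast (Nat.mul_le_mul_left _ h2).trans h3

theorem main_est {t : ℂ} {B : ℝ} (hB : 0 ≤ B) (ht : ‖t‖ ≤ B) (ht' : ‖1 - t‖ ≤ B) (l c : ℕ) :
    ‖lam (D.val t c) (D.g ^ l) - D.u.eval t ^ l * ((c + (D.d - 1) * l + 1).factorial : ℕ)‖
      ≤ D.Q' B ^ l * ((c + (D.d - 1) * l).factorial : ℕ) := by
  have hd := D.hd
  have hmono : ∀ c, Monotone fun n : ℕ => ((n + c).factorial : ℝ) := by
    intro c a b hab
    show ((a + c).factorial : ℝ) ≤ ((b + c).factorial : ℝ)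
    exact_mod_cast Nat.factorial_le (Nat.add_le_add_right hab c)
  have hdeg : ∀ s ∈ D.g.support, ∑ k, s k ≤ D.d - 1 := by
    intro s hs
    have := D.g_deg hs
    omega
  induction l generalizing c with
  | zero =>
    have h1 : (1 : MvPolynomial σ ℂ) = MvPolynomial.monomial 0 1 := rfl
    rw [pow_zero, pow_zero, pow_zero, h1, lam_monomial]
    unfold val rf
    simp
  | succ l ih =>
    have hq0 := D.Q'_nonneg hB
    rw [pow_succ' D.g, lam_mul, pow_succ' (D.u.eval t), D.u_eval t, Finset.sum_mul, Finset.sum_mul,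
      ← Finset.sum_sub_distrib]
    refine (norm_sum_le _ _).trans ?_
    have h2 : D.Q' B ^ (l + 1) * ((c + (D.d - 1) * (l + 1)).factorial : ℕ)
        = ∑ s ∈ D.g.support, ‖D.g.coeff s‖ * B ^ (s D.i + s D.j) *
          (D.Q' B ^ l * ((c + (D.d - 1) * (l + 1)).factorial : ℕ)) := by
      rw [← Finset.sum_mul]
      unfold Q'
      ring
    rw [h2]
    refine Finset.sum_le_sum fun s hs => ?_
    have hdegs := hdeg s hs
    have hdegs' := hdegs
    rw [sum_split D.hij] at hdegs'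
    rw [mul_assoc ‖D.g.coeff s‖]
    by_cases h3 : s D.i + s D.j + 1 = D.d
    · -- the leading terms
      have hs' : ∀ k ∈ (Finset.univ.erase D.i).erase D.j, s k = 0 := by
        intro k hk
        have h4 : s k ≤ ∑ k ∈ (Finset.univ.erase D.i).erase D.j, s k :=
          Finset.single_le_sum (f := fun k => s k) (fun _ _ => Nat.zero_le _) hk
        omega
      rw [if_pos h3, D.lam_monomial_mul (e := D.d - 1) (by omega) hs']
      have h5 := ih (c + (D.d - 1))
      rw [← D.u_eval t]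
      have e1 : c + (D.d - 1) + (D.d - 1) * l = c + (D.d - 1) * (l + 1) := by ring
      rw [e1] at h5
      have e2 : D.g.coeff s * (1 * (t ^ s D.i * (1 - t) ^ s D.j) *
            lam (D.val t (c + (D.d - 1))) (D.g ^ l)) -
          D.g.coeff s * (t ^ s D.i * (1 - t) ^ s D.j) * D.u.eval t ^ l *
            ((c + (D.d - 1) * (l + 1) + 1).factorial : ℕ)
          = D.g.coeff s * ((t ^ s D.i * (1 - t) ^ s D.j) *
            (lam (D.val t (c + (D.d - 1))) (D.g ^ l) - D.u.eval t ^ l *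
              ((c + (D.d - 1) * (l + 1) + 1).factorial : ℕ))) := by ring
      rw [e2, norm_mul, norm_mul, norm_mul, norm_pow, norm_pow, pow_add]
      refine mul_le_mul_of_nonneg_left ?_ (norm_nonneg _)
      refine mul_le_mul ?_ h5 (norm_nonneg _) (by positivity)
      exact mul_le_mul (pow_le_pow_left₀ (norm_nonneg _) ht _)
        (pow_le_pow_left₀ (norm_nonneg _) ht' _) (by positivity) (by positivity)
    · rw [if_neg h3, zero_mul, zero_mul, sub_zero, norm_mul]
      refine mul_le_mul_of_nonneg_left ?_ (norm_nonneg _)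
      by_cases h4 : ∃ k ∈ (Finset.univ.erase D.i).erase D.j, s k ≠ 0
      · have h5 := growth (i := D.i) (j := D.j) (D.val t c) (fun n => ((n + c).factorial : ℝ))
          (hmono c) hB (fun τ => ∃ k ∈ (Finset.univ.erase D.i).erase D.j, τ k ≠ 0)
          (fun τ s ⟨k, hk, hk0⟩ => ⟨k, hk, by rw [Finsupp.add_apply]; omega⟩)
          (fun τ hτ => D.val_fine hB ht ht' c τ hτ) D.g hdeg l s h4
        refine h5.trans ?_
        rw [mul_assoc]
        refine mul_le_mul_of_nonneg_left ?_ (by positivity)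
        refine mul_le_mul_of_nonneg_left ?_ (by positivity)
        exact_mod_cast Nat.factorial_le (by rw [Nat.mul_succ]; omega)
      · push Not at h4
        have h5 := growth (i := D.i) (j := D.j) (D.val t c) (fun n => ((n + (c + 1)).factorial : ℝ))
          (hmono (c + 1)) hB (fun _ => True) (fun _ _ _ => trivial)
          (fun τ _ => D.val_crude hB ht ht' c τ) D.g hdeg l s trivial
        refine h5.trans ?_
        rw [mul_assoc]
        refine mul_le_mul_of_nonneg_left ?_ (by positivity)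
        refine mul_le_mul_of_nonneg_left ?_ (by positivity)
        have h6 : ∑ k, s k = s D.i + s D.j := by
          rw [sum_split D.hij, Finset.sum_eq_zero h4, add_zero]
        exact_mod_cast Nat.factorial_le (by rw [Nat.mul_succ]; omega)

theorem JJ_lam (t : ℂ) (m : ℕ) :
    (JJ D.i D.j (D.d * m) (D.f ^ m)).eval t
      = lam (D.val t 0) (D.f ^ m) / ((D.d * m + 1).factorial : ℂ) := by
  rw [JJ_eval, lam_apply, Finset.sum_div]
  refine Finset.sum_congr rfl fun s _ => ?_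
  unfold val
  rw [add_zero]
  ring

theorem J_est {t : ℂ} {B : ℝ} (hB : 0 ≤ B) (ht : ‖t‖ ≤ B) (ht' : ‖1 - t‖ ≤ B)
    (hp : D.p.eval t ≠ 0) (m : ℕ) :
    ‖(JJ D.i D.j (D.d * m) (D.f ^ m)).eval t
        - Complex.exp (D.u.eval t / (D.d * D.p.eval t)) * D.p.eval t ^ m‖
      ≤ (Real.exp (D.Q' B / ‖D.p.eval t‖) + D.d * Real.exp (4 * ‖D.u.eval t / (D.d * D.p.eval t)‖))
        / (m + 1) * ‖D.p.eval t‖ ^ m := by
  have hd := D.hd
  set P := D.p.eval t with hP
  set U := D.u.eval t with hU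
  set x := U / (D.d * P) with hx
  have hPn : 0 < ‖P‖ := norm_pos_iff.mpr hp
  have hdC : (D.d : ℂ) ≠ 0 := by exact_mod_cast hd.ne'
  have hF : ((D.d * m + 1).factorial : ℂ) ≠ 0 := Nat.cast_ne_zero.mpr (Nat.factorial_ne_zero _)
  have hFR : (0 : ℝ) < ((D.d * m + 1).factorial : ℝ) := by exact_mod_cast Nat.factorial_pos _
  rw [JJ_lam, lam_f_pow]
  set main : ℕ → ℂ := fun l => U ^ l * ((D.d * m + 1 - l).factorial : ℕ) with hmain
  have e1 : (∑ l ∈ Finset.range (m + 1), (m.choose l : ℂ) *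
      (P ^ (m - l) * lam (D.val t (D.d * (m - l))) (D.g ^ l))) / ((D.d * m + 1).factorial : ℂ)
      - Complex.exp x * P ^ m
      = (∑ l ∈ Finset.range (m + 1), (m.choose l : ℂ) * (P ^ (m - l) *
        (lam (D.val t (D.d * (m - l))) (D.g ^ l) - main l)) / ((D.d * m + 1).factorial : ℂ))
      + P ^ m * (∑ l ∈ Finset.range (m + 1), (Rat D.d m l : ℂ) * (x ^ l / l.factorial)
        - Complex.exp x) := by
    have e2 : P ^ m * ∑ l ∈ Finset.range (m + 1), (Rat D.d m l : ℂ) * (x ^ l / l.factorial)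
        = ∑ l ∈ Finset.range (m + 1), (m.choose l : ℂ) * (P ^ (m - l) * main l) /
          ((D.d * m + 1).factorial : ℂ) := by
      rw [Finset.mul_sum]
      refine Finset.sum_congr rfl fun l hl => ?_
      have hl' : l ≤ m := Nat.lt_succ_iff.mp (Finset.mem_range.mp hl)
      rw [hmain, hx]
      unfold Rat
      have h1 : P ^ m = P ^ (m - l) * P ^ l := by rw [← pow_add, Nat.sub_add_cancel hl']
      have h2 : (l.factorial : ℂ) ≠ 0 := Nat.cast_ne_zero.mpr (Nat.factorial_ne_zero _)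
      have h3 : P ^ l ≠ 0 := pow_ne_zero _ hp
      have h4 : (D.d : ℂ) ^ l ≠ 0 := pow_ne_zero _ hdC
      rw [h1, div_pow, mul_pow]
      push_cast
      field_simp
    rw [mul_sub, e2, Finset.sum_div]
    have e3 : ∀ l, (m.choose l : ℂ) * (P ^ (m - l) *
        (lam (D.val t (D.d * (m - l))) (D.g ^ l) - main l)) / ((D.d * m + 1).factorial : ℂ)
        = (m.choose l : ℂ) * (P ^ (m - l) * lam (D.val t (D.d * (m - l))) (D.g ^ l)) /
          ((D.d * m + 1).factorial : ℂ) - (m.choose l : ℂ) * (P ^ (m - l) * main l) /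
          ((D.d * m + 1).factorial : ℂ) := by
      intro l; ring
    simp_rw [e3]
    rw [Finset.sum_sub_distrib]
    ring
  rw [e1]
  have hQ0 := D.Q'_nonneg hB
  have b1 : ‖∑ l ∈ Finset.range (m + 1), (m.choose l : ℂ) * (P ^ (m - l) *
        (lam (D.val t (D.d * (m - l))) (D.g ^ l) - main l)) / ((D.d * m + 1).factorial : ℂ)‖
      ≤ Real.exp (D.Q' B / ‖P‖) / (m + 1) * ‖P‖ ^ m := by
    refine (norm_sum_le _ _).trans ?_
    have b2 : ∑ l ∈ Finset.range (m + 1), ‖P‖ ^ m * (1 / (m + 1) *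
        ((D.Q' B / ‖P‖) ^ l / l.factorial)) ≤ Real.exp (D.Q' B / ‖P‖) / (m + 1) * ‖P‖ ^ m := by
      rw [← Finset.mul_sum, ← Finset.mul_sum]
      have := Real.sum_le_exp_of_nonneg (x := D.Q' B / ‖P‖) (by positivity) (m + 1)
      calc ‖P‖ ^ m * (1 / (m + 1) * ∑ l ∈ Finset.range (m + 1), (D.Q' B / ‖P‖) ^ l / l.factorial)
          ≤ ‖P‖ ^ m * (1 / (m + 1) * Real.exp (D.Q' B / ‖P‖)) := by
            refine mul_le_mul_of_nonneg_left ?_ (by positivity)
            exact mul_le_mul_of_nonneg_left this (by positivity)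
        _ = Real.exp (D.Q' B / ‖P‖) / (m + 1) * ‖P‖ ^ m := by ring
    refine le_trans (Finset.sum_le_sum fun l hl => ?_) b2
    have hl' : l ≤ m := Nat.lt_succ_iff.mp (Finset.mem_range.mp hl)
    have hdm : l ≤ D.d * m := hl'.trans (Nat.le_mul_of_pos_left m hd)
    have h5 := D.main_est hB ht ht' l (D.d * (m - l))
    have h6 : D.d * (m - l) + (D.d - 1) * l = D.d * m - l := by
      obtain ⟨k, rfl⟩ : ∃ k, m = l + k := ⟨m - l, by omega⟩
      obtain ⟨e, he⟩ : ∃ e, D.d = e + 1 := ⟨D.d - 1, by omega⟩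
      rw [he, Nat.add_sub_cancel_left, Nat.add_sub_cancel]
      have : (e + 1) * (l + k) = (e + 1) * k + e * l + l := by ring
      omega
    have h7 : D.d * (m - l) + (D.d - 1) * l + 1 = D.d * m + 1 - l := by omega
    rw [h7, h6] at h5
    rw [norm_div, norm_mul, norm_mul, norm_pow, Complex.norm_natCast, Complex.norm_natCast]
    have h8 : ‖P‖ ^ m = ‖P‖ ^ (m - l) * ‖P‖ ^ l := by rw [← pow_add, Nat.sub_add_cancel hl']
    calc (m.choose l : ℝ) * (‖P‖ ^ (m - l) *
          ‖lam (D.val t (D.d * (m - l))) (D.g ^ l) - main l‖) / (D.d * m + 1).factorial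
        ≤ (m.choose l : ℝ) * (‖P‖ ^ (m - l) * (D.Q' B ^ l * ((D.d * m - l).factorial : ℕ)))
          / (D.d * m + 1).factorial := by
          refine div_le_div_of_nonneg_right ?_ hFR.le
          refine mul_le_mul_of_nonneg_left ?_ (by positivity)
          exact mul_le_mul_of_nonneg_left h5 (by positivity)
      _ = ((m.choose l : ℝ) * (D.d * m - l).factorial / (D.d * m + 1).factorial) *
          (‖P‖ ^ (m - l) * D.Q' B ^ l) := by ring
      _ ≤ (1 / (m + 1) * (1 / l.factorial)) * (‖P‖ ^ (m - l) * D.Q' B ^ l) :=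
          mul_le_mul_of_nonneg_right (num_bound hd hl') (by positivity)
      _ = ‖P‖ ^ m * (1 / (m + 1) * ((D.Q' B / ‖P‖) ^ l / l.factorial)) := by
          rw [h8, div_pow]
          field_simp
  have b3 : ‖P ^ m * (∑ l ∈ Finset.range (m + 1), (Rat D.d m l : ℂ) * (x ^ l / l.factorial)
        - Complex.exp x)‖ ≤ ‖P‖ ^ m * (D.d / (m + 1) * Real.exp (4 * ‖x‖)) := by
    rw [norm_mul, norm_pow]
    exact mul_le_mul_of_nonneg_left (exp_approx hd x) (by positivity)
  calc ‖_ + _‖ ≤ Real.exp (D.Q' B / ‖P‖) / (m + 1) * ‖P‖ ^ m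
        + ‖P‖ ^ m * (D.d / (m + 1) * Real.exp (4 * ‖x‖)) := (norm_add_le _ _).trans (add_le_add b1 b3)
    _ = _ := by ring

/-- The polynomial in the exponent. -/
noncomputable def q : ℂ[X] := C (1 / (D.d : ℂ)) * D.u

theorem q_eval (t : ℂ) : D.q.eval t = D.u.eval t / D.d := by
  unfold q
  rw [eval_mul, eval_C]
  ring

theorem hypA (P : ℕ → ℂ[X]) (hP : ∀ m, derivative (P m) = JJ D.i D.j (D.d * m) (D.f ^ m)) :
    HypA D.p D.q P := by
  intro T hT hT0
  obtain ⟨B, hB0, hB⟩ : ∃ B : ℝ, 0 ≤ B ∧ ∀ t ∈ T, ‖t‖ ≤ B ∧ ‖1 - t‖ ≤ B := by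
    obtain ⟨B, hB⟩ := hT.isBounded.exists_norm_le
    refine ⟨1 + |B|, by positivity, fun t ht => ?_⟩
    have h1 := (hB t ht).trans (le_abs_self B)
    refine ⟨by linarith, ?_⟩
    calc ‖1 - t‖ ≤ ‖(1 : ℂ)‖ + ‖t‖ := norm_sub_le _ _
      _ ≤ 1 + |B| := by rw [norm_one]; linarith
  obtain ⟨δ, hδ, hδT⟩ : ∃ δ > 0, ∀ t ∈ T, δ ≤ ‖D.p.eval t‖ := by
    rcases T.eq_empty_or_nonempty with rfl | hne
    · exact ⟨1, one_pos, by simp⟩
    · obtain ⟨z₀, hz₀, hmin⟩ := hT.exists_isMinOn hne D.p.continuous.norm.continuousOn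
      exact ⟨‖D.p.eval z₀‖, norm_pos_iff.mpr (hT0 z₀ hz₀), fun z hz => hmin hz⟩
  obtain ⟨U, hU⟩ := hT.exists_bound_of_continuousOn D.u.continuous.continuousOn
  have hQ0 := D.Q'_nonneg hB0
  have hdC : (D.d : ℂ) ≠ 0 := by exact_mod_cast D.hd.ne'
  have hd1 : (1 : ℝ) ≤ D.d := by exact_mod_cast D.hd
  refine ⟨Real.exp (D.Q' B / δ) + D.d * Real.exp (4 * (U / δ)), by positivity, ?_⟩
  intro m t ht
  have hp := hT0 t ht
  have hpn : 0 < ‖D.p.eval t‖ := norm_pos_iff.mpr hp
  have h1 := D.J_est hB0 (hB t ht).1 (hB t ht).2 hp m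
  have h2 : D.q.eval t / D.p.eval t = D.u.eval t / (D.d * D.p.eval t) := by
    rw [q_eval, div_div]
  rw [hP, h2]
  refine h1.trans ?_
  refine mul_le_mul_of_nonneg_right ?_ (by positivity)
  refine div_le_div_of_nonneg_right ?_ (by positivity)
  have hU0 : 0 ≤ U := (norm_nonneg _).trans (hU t ht)
  refine add_le_add (Real.exp_le_exp.mpr ?_) ?_
  · exact div_le_div_of_nonneg_left hQ0 hδ (hδT t ht)
  · refine mul_le_mul_of_nonneg_left (Real.exp_le_exp.mpr ?_) (Nat.cast_nonneg _)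
    refine mul_le_mul_of_nonneg_left ?_ (by norm_num)
    rw [norm_div, norm_mul, Complex.norm_natCast]
    refine div_le_div₀ hU0 (hU t ht) hδ ?_
    calc δ ≤ ‖D.p.eval t‖ := hδT t ht
      _ = 1 * ‖D.p.eval t‖ := (one_mul _).symm
      _ ≤ D.d * ‖D.p.eval t‖ := mul_le_mul_of_nonneg_right hd1 hpn.le

end Dat

end Pool.Agent.MP_410f3c_al.V
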