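import Pool.Agent.MP_410f3c_al.V.PowSer

/-!
# The topological argument
-/

set_option autoImplicit false

open Polynomial Filter Topology

namespace Pool.Agent.MP_410f3c_al.V

theorem local_inverse {f : ℂ → ℂ} {e : ℂ} (hf : AnalyticAt ℂ f e) (hf' : deriv f e ≠ 0) :
    ∃ σ : ℂ → ℂ, ∃ ρ > 0, σ (f e) = e ∧
      (∀ z ∈ Metric.ball (f e) ρ, AnalyticAt ℂ σ z ∧ f (σ z) = z) ∧
      (∀ᶠ t in 𝓝 e, σ (f t) = t) ∧ HasDerivAt σ (deriv f e)⁻¹ (f e) := by
  have h1 := hf.analyticAt_localInverse hf'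
  set σ := hf.hasStrictDerivAt.localInverse _ _ _ hf' with hσ
  have h2 : ∀ᶠ z in 𝓝 (f e), f (σ z) = z :=
    hf.hasStrictDerivAt.eventually_right_inverse hf'
  have h3 : ∀ᶠ t in 𝓝 e, σ (f t) = t :=
    hf.hasStrictDerivAt.eventually_left_inverse hf'
  have h4 : HasStrictDerivAt σ (deriv f e)⁻¹ (f e) := hf.hasStrictDerivAt.to_localInverse hf'
  have h5 := h1.eventually_analyticAt.and h2
  rw [Metric.eventually_nhds_iff_ball] at h5
  obtain ⟨ρ, hρ, hb⟩ := h5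
  exact ⟨σ, ρ, hρ, h3.self_of_nhds, hb, h3, h4.hasDerivAt⟩

/-- Integration of the functionals. -/
noncomputable def AA (P : ℕ → ℂ[X]) (x y : ℂ) : ℂ[X] →ₗ[ℂ] ℂ :=
  psF (fun m => (P m).eval y - (P m).eval x)

/-- The local functional. -/
noncomputable def Phi (P : ℕ → ℂ[X]) (t : ℂ) : ℂ[X] →ₗ[ℂ] ℂ :=
  psF (fun m => (derivative (P m)).eval t)

theorem AA_add (P : ℕ → ℂ[X]) (x y z : ℂ) : AA P x y + AA P y z = AA P x z := by
  unfold AA
  rw [← psF_add]
  congr 1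
  funext m
  rw [Pi.add_apply]
  ring

theorem AA_neg (P : ℕ → ℂ[X]) (x y : ℂ) : -AA P x y = AA P y x := by
  unfold AA
  rw [← psF_neg]
  congr 1
  funext m
  rw [Pi.neg_apply]
  ring

theorem AA_sub (P : ℕ → ℂ[X]) (x y z : ℂ) : AA P x z - AA P x y = AA P y z := by
  rw [← AA_add P x y z]; abel

theorem AA_hasDerivAt (P : ℕ → ℂ[X]) (x y : ℂ) (h : ℂ[X]) :
    HasDerivAt (fun y => AA P x y h) (Phi P y h) y := by
  have e1 : (fun y => AA P x y h) = fun y => ∑ m ∈ Finset.range (h.natDegree + 1),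
      h.coeff m * ((P m).eval y - (P m).eval x) := by
    funext y
    exact psF_apply _ h (Nat.lt_succ_self _)
  have e2 : Phi P y h = ∑ m ∈ Finset.range (h.natDegree + 1),
      h.coeff m * ((derivative (P m)).eval y) := psF_apply _ h (Nat.lt_succ_self _)
  rw [e1, e2]
  refine HasDerivAt.fun_sum fun m _ => ?_
  exact (((P m).hasDerivAt y).sub_const _).const_mul _

namespace Ray

variable (R : Ray)

/-- The relation: the functional from `x` to `y` has no logarithmic term. -/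
def Rel (P : ℕ → ℂ[X]) (x y : ℂ) : Prop := R.Cls 0 (AA P x y)

/-- The complement of the preimage of the spiral. -/
def DD (p : ℂ[X]) : Set ℂ := {t | p.eval t ∉ R.Lam 0}

/-- The boundedness hypothesis. -/
def HypB (p : ℂ[X]) (P : ℕ → ℂ[X]) : Prop :=
  ∀ T : Set ℂ, IsCompact T → (∀ t ∈ T, p.eval t ∉ R.Lam 0) →
    ∃ K, IsCompact K ∧ Disjoint K (R.Lam 0) ∧ ∃ C : ℝ, 0 ≤ C ∧ ∀ t ∈ T, ∀ (h : ℂ[X]) (M : ℝ),
      0 ≤ M → (∀ z ∈ K, ‖h.eval z‖ ≤ M) → ‖Phi P t h‖ ≤ C * M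

variable {R}

theorem Rel.trans {P : ℕ → ℂ[X]} {x y z : ℂ} (h : R.Rel P x y) (h' : R.Rel P y z) :
    R.Rel P x z := by
  have := Cls.add h h'
  rw [AA_add, add_zero] at this
  exact this

theorem Rel.symm {P : ℕ → ℂ[X]} {x y : ℂ} (h : R.Rel P x y) : R.Rel P y x := by
  have := Cls.neg h
  rw [AA_neg, neg_zero] at this
  exact this

theorem DD_open (p : ℂ[X]) : IsOpen (R.DD p) :=
  (R.Lam_closed 0).isOpen_compl.preimage p.continuous

theorem rel_local {p : ℂ[X]} {P : ℕ → ℂ[X]} (hB : R.HypB p P) {t₀ : ℂ} (ht : t₀ ∈ R.DD p) :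
    ∃ N ∈ 𝓝 t₀, ∀ x ∈ N, ∀ y ∈ N, R.Rel P x y := by
  obtain ⟨r, hr, hrD⟩ := Metric.nhds_basis_closedBall.mem_iff.mp ((DD_open p).mem_nhds ht)
  refine ⟨Metric.closedBall t₀ r, Metric.closedBall_mem_nhds t₀ hr, ?_⟩
  intro x hx y hy
  obtain ⟨K, hK, hKL, C, hC0, hC⟩ := hB (Metric.closedBall t₀ r) (isCompact_closedBall _ _)
    (fun t ht => hrD ht)
  refine Cls.of_bddOn hK hKL ⟨C * ‖y - x‖, by positivity, ?_⟩
  intro h M hM0 hM
  have h1 := Convex.norm_image_sub_le_of_norm_hasDerivWithin_le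
    (f := fun y => AA P x y h) (f' := fun y => Phi P y h) (C := C * M)
    (s := Metric.closedBall t₀ r) (x := x) (y := y)
    (fun z _ => (AA_hasDerivAt P x z h).hasDerivWithinAt)
    (fun z hz => hC z hz h M hM0 hM) (convex_closedBall _ _) hx hy
  have h2 : AA P x x h = 0 := by
    rw [AA, psF_apply _ h (Nat.lt_succ_self _)]
    simp
  simp only [h2, sub_zero] at h1
  calc ‖AA P x y h‖ ≤ C * M * ‖y - x‖ := h1
    _ = C * ‖y - x‖ * M := by ring

theorem rel_of_preconnected {p : ℂ[X]} {P : ℕ → ℂ[X]} (hB : R.HypB p P) {s : Set ℂ}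
    (hs : IsPreconnected s) (hsD : s ⊆ R.DD p) {x y : ℂ} (hx : x ∈ s) (hy : y ∈ s) :
    R.Rel P x y := by
  refine hs.induction₂' (R.Rel P) ?_ (fun x y z _ _ _ h h' => h.trans h') hx hy
  intro z hz
  obtain ⟨N, hN, h⟩ := rel_local hB (hsD hz)
  filter_upwards [mem_nhdsWithin_of_mem_nhds hN] with y hy
  exact ⟨h z (mem_of_mem_nhds hN) y hy, h y hy z (mem_of_mem_nhds hN)⟩

theorem im_eq_zero_of_mem {v : ℂ} (hv : |v.im| < 2 * Real.pi / (1 + R.κ.im ^ 2))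
    (h : R.W v ∈ R.Lam 0) : v.im = 0 ∧ 0 ≤ v.re := by
  obtain ⟨y, hy, hvy⟩ := h
  unfold W at hvy
  have h1 := mul_left_cancel₀ R.ha hvy
  rw [Complex.exp_eq_exp_iff_exists_int] at h1
  obtain ⟨n, hn⟩ := h1
  have hre : v.re - R.κ.im * v.im = y := by
    have := congrArg Complex.re hn
    simp [R.hκ] at this
    exact this
  have him : v.im + R.κ.im * v.re = R.κ.im * y + n * (2 * Real.pi) := by
    have := congrArg Complex.im hn
    simp [R.hκ] at this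
    exact this
  have h2 : v.im * (1 + R.κ.im ^ 2) = n * (2 * Real.pi) := by
    have : v.re = y + R.κ.im * v.im := by linarith
    rw [this] at him
    nlinarith
  have h3 : (0 : ℝ) < 1 + R.κ.im ^ 2 := by positivity
  have hn0 : n = 0 := by
    by_contra hn0
    have h4 : (1 : ℝ) ≤ |(n : ℝ)| := by exact_mod_cast Int.one_le_abs hn0
    have h5 : |v.im| * (1 + R.κ.im ^ 2) = |(n : ℝ)| * (2 * Real.pi) := by
      rw [← abs_of_pos h3, ← abs_mul, h2, abs_mul, abs_of_pos (by positivity : (0:ℝ) < 2 * Real.pi)]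
    rw [lt_div_iff₀ h3, h5] at hv
    nlinarith [Real.pi_pos]
  rw [hn0] at h2
  have h6 : v.im = 0 := by
    have : v.im * (1 + R.κ.im ^ 2) = 0 := by rw [h2]; simp
    rcases mul_eq_zero.mp this with h | h
    · exact h
    · linarith
  refine ⟨h6, ?_⟩
  rw [h6] at hre
  simp at hre
  rw [hre]
  exact hy

theorem Lam_compl_dense (z : ℂ) {N : Set ℂ} (hN : N ∈ 𝓝 z) : ∃ z' ∈ N, z' ∉ R.Lam 0 := by
  by_cases hz : z ∈ R.Lam 0
  · obtain ⟨y, hy, rfl⟩ := hz
    have h1 : Tendsto (fun b : ℝ => R.W (y + b * Complex.I)) (𝓝[>] 0) (𝓝 (R.W y)) := by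
      have : Continuous (fun b : ℝ => R.W (y + b * Complex.I)) := R.W_cont.comp (by fun_prop)
      have h2 := this.tendsto 0
      simp only [Complex.ofReal_zero, zero_mul, add_zero] at h2
      exact h2.mono_left nhdsWithin_le_nhds
    have h3 : (0 : ℝ) < 2 * Real.pi / (1 + R.κ.im ^ 2) := by positivity
    have h4 : ∀ᶠ b : ℝ in 𝓝[>] 0, b < 2 * Real.pi / (1 + R.κ.im ^ 2) :=
      mem_nhdsWithin_of_mem_nhds (Iio_mem_nhds h3)
    obtain ⟨b, hb1, hb2, hb3⟩ := ((h1.eventually_mem hN).and (h4.and self_mem_nhdsWithin)).exists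
    have hb3 : 0 < b := hb3
    refine ⟨_, hb1, ?_⟩
    intro h5
    have h6 := im_eq_zero_of_mem (v := y + b * Complex.I) (by simpa [abs_of_pos hb3] using hb2) h5
    have h7 := h6.1
    simp at h7
    linarith
  · exact ⟨z, mem_of_mem_nhds hN, hz⟩

theorem DD_dense {p : ℂ[X]} (hp : 0 < p.natDegree) (t : ℂ) {N : Set ℂ} (hN : N ∈ 𝓝 t) :
    ∃ t' ∈ N, t' ∈ R.DD p := by
  have h1 : AnalyticAt ℂ (fun z => p.eval z) t := p.differentiable.analyticAt t
  rcases h1.eventually_constant_or_nhds_le_map_nhds with h | h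
  · exfalso
    have h2 : p = C (p.eval t) := by
      refine Polynomial.eq_of_infinite_eval_eq _ _ ?_
      refine Set.Infinite.mono (s := {z | p.eval z = p.eval t}) ?_ ?_
      · intro z hz
        simpa using hz
      · have h3 : {z | p.eval z = p.eval t} ∈ 𝓝 t := h
        exact infinite_of_mem_nhds t h3
    rw [h2] at hp
    simp at hp
  · have h2 : (fun z => p.eval z) '' N ∈ 𝓝 (p.eval t) := h (image_mem_map hN)
    obtain ⟨z', hz', hzL⟩ := Lam_compl_dense (R := R) _ h2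
    obtain ⟨t', ht', rfl⟩ := hz'
    exact ⟨t', ht', hzL⟩

/-- Local connection at `e`. -/
def Con (R : Ray) (p : ℂ[X]) (P : ℕ → ℂ[X]) (e : ℂ) : Prop :=
  ∃ N ∈ 𝓝 e, ∀ x ∈ N, ∀ y ∈ N, x ∈ R.DD p → y ∈ R.DD p → R.Rel P x y

theorem Con.eventually {p : ℂ[X]} {P : ℕ → ℂ[X]} {e : ℂ} (h : R.Con p P e) :
    ∀ᶠ e' in 𝓝 e, R.Con p P e' := by
  obtain ⟨N, hN, h⟩ := h
  filter_upwards [eventually_mem_nhds_iff.mpr hN] with e' he'
  exact ⟨N, he', h⟩

theorem rel_all {p : ℂ[X]} {P : ℕ → ℂ[X]} (hp : 0 < p.natDegree) (h : ∀ e, R.Con p P e) {x y : ℂ}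
    (hx : x ∈ R.DD p) (hy : y ∈ R.DD p) : R.Rel P x y := by
  set Q : ℂ → ℂ → Prop := fun t t' => ∃ N ∈ 𝓝 t, ∃ N' ∈ 𝓝 t', ∀ y ∈ N, ∀ y' ∈ N',
    y ∈ R.DD p → y' ∈ R.DD p → R.Rel P y y' with hQ
  have h1 : Q x y := by
    refine isPreconnected_univ.induction₂' Q ?_ ?_ (Set.mem_univ x) (Set.mem_univ y)
    · intro z _
      obtain ⟨N, hN, hh⟩ := h z
      rw [nhdsWithin_univ]
      filter_upwards [eventually_mem_nhds_iff.mpr hN] with e' he'
      exact ⟨⟨N, hN, N, he', hh⟩, ⟨N, he', N, hN, hh⟩⟩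
    · rintro t t' t'' _ _ _ ⟨N, hN, N', hN', h1⟩ ⟨M', hM', M'', hM'', h2⟩
      refine ⟨N, hN, M'', hM'', ?_⟩
      intro y hy y'' hy'' hyD hyD''
      obtain ⟨z, hz, hzD⟩ := DD_dense (R := R) hp t' (inter_mem hN' hM')
      exact (h1 y hy z hz.1 hyD hzD).trans (h2 z hz.2 y'' hy'' hzD hyD'')
  obtain ⟨N, hN, N', hN', h2⟩ := h1
  exact h2 x (mem_of_mem_nhds hN) y (mem_of_mem_nhds hN') hx hy

theorem con_step {p : ℂ[X]} {P : ℕ → ℂ[X]} (hB : R.HypB p P) {e : ℂ} {x₀ : ℝ} (hx₀ : 0 < x₀)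
    (he : p.eval e = R.W x₀) (hd : (derivative p).eval e ≠ 0)
    (hmin : ∀ e', ‖p.eval e'‖ < ‖p.eval e‖ → R.Con p P e') : R.Con p P e := by
  have hf : AnalyticAt ℂ (fun z => p.eval z) e := p.differentiable.analyticAt e
  have hf' : deriv (fun z => p.eval z) e ≠ 0 := by rwa [Polynomial.deriv]
  obtain ⟨σ, ρ, hρ, hσe, hσ, hσl, -⟩ := local_inverse hf hf'
  rw [he] at hσe hσ
  -- the coordinate
  have hWc : Continuous (fun v : ℂ => R.W (x₀ + v)) := R.W_cont.comp (by fun_prop)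
  have hpre : (fun v : ℂ => R.W (x₀ + v)) ⁻¹' (Metric.ball (R.W x₀) ρ) ∈ 𝓝 (0 : ℂ) := by
    refine hWc.continuousAt.preimage_mem_nhds ?_
    simp only [add_zero]
    exact Metric.ball_mem_nhds _ hρ
  obtain ⟨ε₁, hε₁, hb₁⟩ := Metric.mem_nhds_iff.mp hpre
  set δ : ℝ := 2 * Real.pi / (1 + R.κ.im ^ 2) with hδ
  have hδ0 : 0 < δ := by rw [hδ]; positivity
  obtain ⟨ε, hε0, hε1, hε2, hε3⟩ : ∃ ε : ℝ, 0 < ε ∧ 2 * ε < ε₁ ∧ ε < δ ∧ ε < x₀ := by
    refine ⟨min (ε₁ / 3) (min (δ / 2) (x₀ / 2)), by positivity, ?_, ?_, ?_⟩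
    · have := min_le_left (ε₁ / 3) (min (δ / 2) (x₀ / 2)); linarith
    · have := (min_le_right (ε₁ / 3) (min (δ / 2) (x₀ / 2))).trans (min_le_left _ _); linarith
    · have := (min_le_right (ε₁ / 3) (min (δ / 2) (x₀ / 2))).trans (min_le_right _ _); linarith
  set y : ℂ → ℂ := fun v => σ (R.W (x₀ + v)) with hy
  have hyball : ∀ v : ℂ, ‖v‖ < 2 * ε → R.W (x₀ + v) ∈ Metric.ball (R.W x₀) ρ := by
    intro v hv
    exact hb₁ (by rw [Metric.mem_ball, dist_zero_right]; linarith)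
  have hyp : ∀ v : ℂ, ‖v‖ < 2 * ε → p.eval (y v) = R.W (x₀ + v) := fun v hv =>
    (hσ _ (hyball v hv)).2
  have hyc : ∀ v : ℂ, ‖v‖ < 2 * ε → ContinuousAt y v := by
    intro v hv
    exact ContinuousAt.comp (g := σ) (f := fun v : ℂ => R.W (x₀ + v))
      (hσ _ (hyball v hv)).1.continuousAt hWc.continuousAt
  -- the previous point
  have hcon : R.Con p P (y (-(ε : ℂ))) := by
    apply hmin
    have hne : ‖(-(ε : ℂ))‖ < 2 * ε := by
      rw [norm_neg, Complex.norm_real, Real.norm_of_nonneg hε0.le]; linarith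
    rw [hyp _ hne, he, ← sub_eq_add_neg, ← Complex.ofReal_sub, R.norm_W, R.norm_W]
    exact mul_lt_mul_of_pos_left (Real.exp_lt_exp.mpr (by linarith)) R.norm_a_pos
  obtain ⟨N', hN', hrel⟩ := hcon
  have hne : ‖(-(ε : ℂ))‖ < 2 * ε := by
    rw [norm_neg, Complex.norm_real, Real.norm_of_nonneg hε0.le]; linarith
  obtain ⟨η₁, hη₁, hη₂⟩ := Metric.mem_nhds_iff.mp ((hyc _ hne).preimage_mem_nhds hN')
  obtain ⟨η, hη0, hηε, hηη⟩ : ∃ η : ℝ, 0 < η ∧ η ≤ ε ∧ η ≤ η₁ :=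
    ⟨min ε η₁, by positivity, min_le_left _ _, min_le_right _ _⟩
  -- the neighbourhood
  have hder : HasStrictDerivAt (fun v : ℂ => R.W (x₀ + v)) (R.W x₀ * R.κ) 0 := by
    have h1 : HasStrictDerivAt (fun v : ℂ => R.κ * (x₀ + v)) R.κ 0 := by
      have := ((hasStrictDerivAt_id (0 : ℂ)).const_add (x₀ : ℂ)).const_mul R.κ
      simpa using this
    have h2 := (h1.cexp).const_mul R.a
    simp only [add_zero] at h2
    have h3 : R.a * (Complex.exp (R.κ * x₀) * R.κ) = R.W x₀ * R.κ := by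
      unfold W; ring
    rw [h3] at h2
    exact h2
  have hder0 : R.W x₀ * R.κ ≠ 0 := by
    refine mul_ne_zero (R.W_ne _) ?_
    intro h; have := R.hκ; rw [h] at this; simp at this
  have himg : (fun v : ℂ => R.W (x₀ + v)) '' (Metric.ball 0 η) ∈ 𝓝 (R.W x₀) := by
    have := hder.map_nhds_eq hder0
    simp only [add_zero] at this
    rw [← this]
    exact image_mem_map (Metric.ball_mem_nhds _ hη0)
  have hNn : {t | σ (p.eval t) = t} ∩ (fun t => p.eval t) ⁻¹'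
      ((fun v : ℂ => R.W (x₀ + v)) '' (Metric.ball 0 η)) ∈ 𝓝 e := by
    refine inter_mem hσl ?_
    refine p.continuous.continuousAt.preimage_mem_nhds ?_
    rw [he]
    exact himg
  refine ⟨_, hNn, ?_⟩
  -- connect to the previous point
  have key : ∀ t, σ (p.eval t) = t → (∃ v ∈ Metric.ball (0 : ℂ) η, R.W (x₀ + v) = p.eval t) →
      t ∈ R.DD p → ∃ t' ∈ N', t' ∈ R.DD p ∧ R.Rel P t t' := by
    rintro t ht ⟨v, hv, hvt⟩ htD
    rw [Metric.mem_ball, dist_zero_right] at hv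
    have hty : y v = t := by
      show σ (R.W (x₀ + v)) = t
      rw [hvt, ht]
    have hvs : ∀ s : ℝ, 0 ≤ s → s ≤ ε → ‖v - s‖ < 2 * ε := by
      intro s hs0 hs1
      calc ‖v - s‖ ≤ ‖v‖ + ‖(s : ℂ)‖ := norm_sub_le _ _
        _ < 2 * ε := by rw [Complex.norm_real, Real.norm_of_nonneg hs0]; linarith
    have hDs : ∀ s : ℝ, 0 ≤ s → s ≤ ε → y (v - s) ∈ R.DD p := by
      intro s hs0 hs1 hmem
      rw [hyp _ (hvs s hs0 hs1)] at hmem
      have h1 : |((x₀ : ℂ) + (v - s)).im| < 2 * Real.pi / (1 + R.κ.im ^ 2) := by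
        have h2 : ((x₀ : ℂ) + (v - s)).im = v.im := by simp
        rw [h2]
        exact lt_of_le_of_lt (Complex.abs_im_le_norm v) (by linarith)
      obtain ⟨h3, h4⟩ := im_eq_zero_of_mem h1 hmem
      have h5 : v.im = 0 := by simpa using h3
      have h6 : 0 ≤ x₀ + (v.re - s) := by simpa using h4
      apply htD
      refine ⟨x₀ + v.re, by linarith, ?_⟩
      rw [← hvt]
      congr 1
      apply Complex.ext
      · simp
      · simp [h5]
    refine ⟨y (v - ε), ?_, hDs ε hε0.le le_rfl, ?_⟩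
    · apply hη₂
      rw [Metric.mem_ball, dist_eq_norm]
      have : v - ε - -(ε : ℂ) = v := by ring
      rw [this]
      linarith
    · have hpre : IsPreconnected ((fun s : ℝ => y (v - s)) '' Set.Icc 0 ε) := by
        refine isPreconnected_Icc.image _ ?_
        intro s hs
        refine ContinuousAt.continuousWithinAt ?_
        refine ContinuousAt.comp (g := y) (f := fun s : ℝ => v - (s : ℂ))
          (hyc _ (hvs s hs.1 hs.2)) (by fun_prop)
      refine rel_of_preconnected hB hpre ?_ ⟨0, ⟨le_rfl, hε0.le⟩, ?_⟩ ⟨ε, ⟨hε0.le, le_rfl⟩, rfl⟩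
      · rintro _ ⟨s, hs, rfl⟩
        exact hDs s hs.1 hs.2
      · simpa using hty
  intro t₁ ht₁ t₂ ht₂ hD₁ hD₂
  obtain ⟨t₁', h₁N, h₁D, h₁⟩ := key t₁ ht₁.1 ht₁.2 hD₁
  obtain ⟨t₂', h₂N, h₂D, h₂⟩ := key t₂ ht₂.1 ht₂.2 hD₂
  exact (h₁.trans (hrel t₁' h₁N t₂' h₂N h₁D h₂D)).trans h₂.symm

theorem con_all {p : ℂ[X]} {P : ℕ → ℂ[X]} (hp : 0 < p.natDegree) (hB : R.HypB p P)
    (htip : ∀ e, p.eval e = R.a → R.Con p P e)
    (hcrit : ∀ e, (derivative p).eval e = 0 → p.eval e ≠ R.a → e ∈ R.DD p) (e : ℂ) :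
    R.Con p P e := by
  by_contra hcon
  set F : Set ℂ := {e | ¬ R.Con p P e} with hF
  have hFc : IsClosed F := by
    rw [← isOpen_compl_iff, isOpen_iff_mem_nhds]
    intro z hz
    have hz' : R.Con p P z := by
      rw [hF, Set.mem_compl_iff, Set.mem_ofPred_eq, not_not] at hz
      exact hz
    filter_upwards [hz'.eventually] with e' he'
    rw [hF, Set.mem_compl_iff, Set.mem_ofPred_eq, not_not]
    exact he'
  have hdeg : 0 < p.degree := Polynomial.natDegree_pos_iff_degree_pos.mp hp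
  have htend := p.tendsto_norm_atTop hdeg (tendsto_norm_cocompact_atTop (E := ℂ))
  obtain ⟨e₁, he₁, hmin⟩ := ContinuousOn.exists_isMinOn' (f := fun z => ‖p.eval z‖)
    (p.continuous.norm.continuousOn) hFc (x₀ := e) hcon
    ((htend.eventually_ge_atTop _).filter_mono inf_le_left)
  have hmin' : ∀ e', ‖p.eval e'‖ < ‖p.eval e₁‖ → R.Con p P e' := by
    intro e' he'
    by_contra h
    exact absurd (hmin h) (not_le.mpr he')
  apply he₁
  by_cases hD : e₁ ∈ R.DD p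
  · obtain ⟨N, hN, h⟩ := rel_local hB hD
    exact ⟨N, hN, fun x hx y hy _ _ => h x hx y hy⟩
  · by_cases ha : p.eval e₁ = R.a
    · exact htip e₁ ha
    · have h1 : p.eval e₁ ∈ R.Lam 0 := by
        by_contra h; exact hD h
      obtain ⟨x₀, hx₀, hx₁⟩ := h1
      have hx₀' : 0 < x₀ := by
        rcases hx₀.lt_or_eq with h | h
        · exact h
        · exfalso; apply ha; rw [hx₁, ← h, Complex.ofReal_zero, R.W_zero]
      refine con_step hB hx₀' hx₁ ?_ hmin'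
      intro h0
      exact hD (hcrit e₁ h0 ha)

end Ray

end Pool.Agent.MP_410f3c_al.V
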