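import Mathlib

/-!
# Cauchy estimates on a torus
-/

set_option autoImplicit false

namespace Pool.Agent.MP_410f3c_al.V

theorem root_sum {N : ℕ} (hN : N ≠ 0) {ζ : ℂ} (hζ : IsPrimitiveRoot ζ N) {a b : ℕ} (ha : a < N)
    (hb : b < N) :
    ∑ k ∈ Finset.range N, (ζ ^ k) ^ a * ((ζ ^ k) ^ b)⁻¹ = if a = b then (N : ℂ) else 0 := by
  have h0 : ζ ≠ 0 := hζ.ne_zero hN
  have h1 : ∀ k : ℕ, (ζ ^ k) ^ a * ((ζ ^ k) ^ b)⁻¹ = (ζ ^ a * (ζ ^ b)⁻¹) ^ k := by
    intro k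
    rw [mul_pow, ← pow_mul, ← pow_mul, inv_pow, ← pow_mul, ← pow_mul, mul_comm k a, mul_comm k b]
  simp_rw [h1]
  split_ifs with hab
  · subst hab
    rw [mul_inv_cancel₀ (pow_ne_zero _ h0)]
    simp
  · have h2 : ζ ^ a * (ζ ^ b)⁻¹ ≠ 1 := by
      intro h
      apply hab
      have h3 : ζ ^ a = ζ ^ b := by
        rw [← div_eq_mul_inv, div_eq_one_iff_eq (pow_ne_zero _ h0)] at h
        exact h
      exact hζ.pow_inj ha hb h3
    rw [geom_sum_eq h2]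
    have h3 : (ζ ^ a * (ζ ^ b)⁻¹) ^ N = 1 := by
      rw [mul_pow, inv_pow, ← pow_mul, ← pow_mul, mul_comm a, mul_comm b, pow_mul, pow_mul,
        hζ.pow_eq_one, one_pow, one_pow, inv_one, mul_one]
    rw [h3, sub_self, zero_div]

variable {σ U : Type*} [Fintype σ] [DecidableEq σ]

theorem torus_bound (S : Finset U) (e : U → σ → ℕ) (c : U → ℂ) (r : σ → ℝ) (hr : ∀ k, 0 < r k)
    (M : ℝ) (hM : ∀ z : σ → ℂ, (∀ k, ‖z k‖ = r k) → ‖∑ u ∈ S, c u * ∏ k, z k ^ e u k‖ ≤ M)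
    (a : σ → ℕ) : ‖∑ u ∈ S.filter (fun u => e u = a), c u‖ * ∏ k, r k ^ a k ≤ M := by
  obtain ⟨N, hN0, hNe, hNa⟩ : ∃ N : ℕ, N ≠ 0 ∧ (∀ u ∈ S, ∀ k, e u k < N) ∧ ∀ k, a k < N := by
    refine ⟨(∑ u ∈ S, ∑ k, e u k) + (∑ k, a k) + 1, by omega, ?_, ?_⟩
    · intro u hu k
      have h1 : e u k ≤ ∑ k, e u k := Finset.single_le_sum (fun _ _ => Nat.zero_le _) (Finset.mem_univ k)
      have h2 : ∑ k, e u k ≤ ∑ u ∈ S, ∑ k, e u k :=
        Finset.single_le_sum (f := fun u => ∑ k, e u k) (fun _ _ => Nat.zero_le _) hu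
      omega
    · intro k
      have h1 : a k ≤ ∑ k, a k := Finset.single_le_sum (fun _ _ => Nat.zero_le _) (Finset.mem_univ k)
      omega
  set ζ : ℂ := Complex.exp (2 * Real.pi * Complex.I / N) with hζdef
  have hζ : IsPrimitiveRoot ζ N := Complex.isPrimitiveRoot_exp N hN0
  have hζn : ‖ζ‖ = 1 := hζ.norm'_eq_one hN0
  set Φ := Fintype.piFinset (fun _ : σ => Finset.range N) with hΦ
  have hcard : (Φ.card : ℝ) = (N : ℝ) ^ Fintype.card σ := by
    rw [hΦ, Fintype.card_piFinset]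
    simp
  set A : ℂ := ∑ φ ∈ Φ, (∏ k, ((ζ ^ φ k) ^ a k)⁻¹) *
    ∑ u ∈ S, c u * ∏ k, ((r k : ℂ) * ζ ^ φ k) ^ e u k with hA
  have h1 : ‖A‖ ≤ (N : ℝ) ^ Fintype.card σ * M := by
    rw [hA, ← hcard]
    refine (norm_sum_le _ _).trans ?_
    rw [← nsmul_eq_mul]
    refine Finset.sum_le_card_nsmul _ _ _ fun φ _ => ?_
    rw [norm_mul, norm_prod]
    have h2 : ∏ k, ‖((ζ ^ φ k) ^ a k)⁻¹‖ = 1 :=
      Finset.prod_eq_one fun k _ => by rw [norm_inv, norm_pow, norm_pow, hζn]; simp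
    rw [h2, one_mul]
    refine hM _ fun k => ?_
    rw [norm_mul, norm_pow, hζn, one_pow, mul_one, Complex.norm_real, Real.norm_of_nonneg (hr k).le]
  have h3 : A = (N : ℂ) ^ Fintype.card σ * ((∏ k, (r k : ℂ) ^ a k) *
      ∑ u ∈ S.filter (fun u => e u = a), c u) := by
    have h4 : A = ∑ u ∈ S, c u * ((∏ k, (r k : ℂ) ^ e u k) *
        ∏ k, ∑ n ∈ Finset.range N, (ζ ^ n) ^ e u k * ((ζ ^ n) ^ a k)⁻¹) := by
      rw [hA]
      simp_rw [Finset.mul_sum]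
      rw [Finset.sum_comm]
      refine Finset.sum_congr rfl fun u _ => ?_
      rw [Finset.prod_univ_sum, Finset.mul_sum, Finset.mul_sum]
      refine Finset.sum_congr rfl fun φ _ => ?_
      simp_rw [mul_pow]
      rw [Finset.prod_mul_distrib, Finset.prod_mul_distrib]
      ring
    rw [h4, Finset.sum_filter, Finset.mul_sum, Finset.mul_sum]
    refine Finset.sum_congr rfl fun u hu => ?_
    have h5 : ∏ k, ∑ n ∈ Finset.range N, (ζ ^ n) ^ e u k * ((ζ ^ n) ^ a k)⁻¹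
        = if e u = a then (N : ℂ) ^ Fintype.card σ else 0 := by
      have h6 : ∀ k, ∑ n ∈ Finset.range N, (ζ ^ n) ^ e u k * ((ζ ^ n) ^ a k)⁻¹
          = if e u k = a k then (N : ℂ) else 0 := fun k => root_sum hN0 hζ (hNe u hu k) (hNa k)
      simp_rw [h6]
      split_ifs with h
      · rw [h]
        simp
      · obtain ⟨k, hk⟩ : ∃ k, e u k ≠ a k := by
          by_contra hcon
          push Not at hcon
          exact h (funext hcon)
        exact Finset.prod_eq_zero (Finset.mem_univ k) (if_neg hk)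
    rw [h5]
    split_ifs with h
    · rw [h]; ring
    · ring
  have hNpos : (0 : ℝ) < (N : ℝ) ^ Fintype.card σ := by
    have : (0 : ℝ) < N := by exact_mod_cast Nat.pos_of_ne_zero hN0
    positivity
  rw [h3, norm_mul, norm_mul, norm_pow, Complex.norm_natCast] at h1
  have h7 := le_of_mul_le_mul_left h1 hNpos
  have h8 : ‖∏ k, (r k : ℂ) ^ a k‖ = ∏ k, r k ^ a k := by
    rw [norm_prod]
    refine Finset.prod_congr rfl fun k _ => ?_
    rw [norm_pow, Complex.norm_real, Real.norm_of_nonneg (hr k).le]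
  rw [h8, mul_comm] at h7
  exact h7

theorem torus_weight (S : Finset U) (e : U → σ → ℕ) (c : U → ℂ) (r : σ → ℝ) (hr : ∀ k, 0 < r k)
    {M : ℝ} (hM : ∀ z : σ → ℂ, (∀ k, ‖z k‖ = r k) → ‖∑ u ∈ S, c u * ∏ k, z k ^ e u k‖ ≤ M)
    (w : (σ → ℕ) → ℂ) {C : ℝ}
    (hw : ∀ F : Finset (σ → ℕ), ∑ a ∈ F, ‖w a‖ * ∏ k, (r k)⁻¹ ^ a k ≤ C) (hM0 : 0 ≤ M) :
    ‖∑ u ∈ S, c u * w (e u)‖ ≤ C * M := by
  classical
  have h1 : ∑ u ∈ S, c u * w (e u)
      = ∑ a ∈ S.image e, w a * ∑ u ∈ S.filter (fun u => e u = a), c u := by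
    rw [← Finset.sum_fiberwise_of_maps_to (g := e) (t := S.image e)
      (fun u hu => Finset.mem_image_of_mem e hu)]
    refine Finset.sum_congr rfl fun a _ => ?_
    rw [Finset.mul_sum]
    refine Finset.sum_congr rfl fun u hu => ?_
    rw [(Finset.mem_filter.mp hu).2, mul_comm]
  rw [h1]
  calc ‖∑ a ∈ S.image e, w a * ∑ u ∈ S.filter (fun u => e u = a), c u‖
      ≤ ∑ a ∈ S.image e, ‖w a * ∑ u ∈ S.filter (fun u => e u = a), c u‖ := norm_sum_le _ _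
    _ ≤ ∑ a ∈ S.image e, (‖w a‖ * ∏ k, (r k)⁻¹ ^ a k) * M := by
        refine Finset.sum_le_sum fun a _ => ?_
        rw [norm_mul, mul_assoc]
        refine mul_le_mul_of_nonneg_left ?_ (norm_nonneg _)
        have h2 := torus_bound S e c r hr M hM a
        have h3 : 0 < ∏ k, r k ^ a k := Finset.prod_pos fun k _ => pow_pos (hr k) _
        have h4 : ∏ k, (r k)⁻¹ ^ a k = (∏ k, r k ^ a k)⁻¹ := by
          rw [← Finset.prod_inv_distrib]
          exact Finset.prod_congr rfl fun k _ => inv_pow _ _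
        rw [h4, inv_mul_eq_div, le_div_iff₀ h3]
        exact h2
    _ = (∑ a ∈ S.image e, (‖w a‖ * ∏ k, (r k)⁻¹ ^ a k)) * M := by rw [Finset.sum_mul]
    _ ≤ C * M := mul_le_mul_of_nonneg_right (hw _) hM0

end Pool.Agent.MP_410f3c_al.V
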