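import Mathlib

/-!
# The weights
-/

set_option autoImplicit false

namespace Pool.Agent.MP_410f3c_al.V

variable {σ : Type*} [Fintype σ] [DecidableEq σ]

/-- The weight of an exponent vector. -/
noncomputable def wgt (i : σ) (ς : ℂ) (a : σ → ℕ) : ℂ :=
  if ∑ k ∈ Finset.univ.erase i, a k < a i then
    (∏ k ∈ Finset.univ.erase i, ((a k).factorial : ℂ)) * (1 - ς) ^ (a i - 1) /
      ((a i - 1).factorial : ℂ)
  else 0

/-- The radii. -/
noncomputable def rad (i : σ) (r : ℝ) : σ → ℝ := fun k => if k = i then r else 4 / r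

omit [Fintype σ] in
theorem rad_pos (i : σ) {r : ℝ} (hr : 0 < r) (k : σ) : 0 < rad i r k := by
  unfold rad; split_ifs <;> positivity

/-- The constant of the weights. -/
noncomputable def Cw (i : σ) (r : ℝ) : ℝ := r⁻¹ * ∏ k : σ, if k = i then Real.exp (2 / r) else 2

theorem wgt_term {i : σ} {ς : ℂ} (hς : ‖1 - ς‖ ≤ 2) {r : ℝ} (hr : 0 < r) (a : σ → ℕ)
    (ha : ∑ k ∈ Finset.univ.erase i, a k < a i) :
    ‖wgt i ς a‖ * ∏ k, (rad i r k)⁻¹ ^ a k ≤
      r⁻¹ * ∏ k, if k = i then (2 / r) ^ (a i - 1 - ∑ k ∈ Finset.univ.erase i, a k) /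
        ((a i - 1 - ∑ k ∈ Finset.univ.erase i, a k).factorial : ℝ) else (1 / 2) ^ a k := by
  set g := ∑ k ∈ Finset.univ.erase i, a k with hg
  obtain ⟨n, hn⟩ : ∃ n, a i = n + g + 1 := ⟨a i - 1 - g, by omega⟩
  have hn1 : a i - 1 = n + g := by omega
  have hn2 : a i - 1 - g = n := by omega
  rw [hn1, Nat.add_sub_cancel]
  rw [← Finset.mul_prod_erase Finset.univ (fun k => (rad i r k)⁻¹ ^ a k) (Finset.mem_univ i),
    ← Finset.mul_prod_erase Finset.univ (fun k => if k = i then (2 / r) ^ n /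
        (n.factorial : ℝ) else (1 / 2) ^ a k) (Finset.mem_univ i)]
  have e1 : ∏ k ∈ Finset.univ.erase i, (rad i r k)⁻¹ ^ a k = (r / 4) ^ g := by
    rw [hg, ← Finset.prod_pow_eq_pow_sum]
    refine Finset.prod_congr rfl fun k hk => ?_
    unfold rad
    rw [if_neg (Finset.ne_of_mem_erase hk), inv_div]
  have e2 : ∏ k ∈ Finset.univ.erase i, (if k = i then (2 / r) ^ n /
        (n.factorial : ℝ) else (1 / 2) ^ a k) = (1 / 2) ^ g := by
    rw [hg, ← Finset.prod_pow_eq_pow_sum]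
    refine Finset.prod_congr rfl fun k hk => ?_
    rw [if_neg (Finset.ne_of_mem_erase hk)]
  rw [e1, e2, if_pos rfl]
  have e3 : (rad i r i)⁻¹ ^ a i = r⁻¹ ^ (n + g + 1) := by
    unfold rad
    rw [if_pos rfl, hn]
  rw [e3]
  have e4 : ‖wgt i ς a‖ ≤ 2 ^ (n + g) / n.factorial := by
    unfold wgt
    rw [if_pos ha, norm_div, norm_mul, norm_pow, hn1]
    have h1 : ‖∏ k ∈ Finset.univ.erase i, ((a k).factorial : ℂ)‖
        = ((∏ k ∈ Finset.univ.erase i, (a k).factorial : ℕ) : ℝ) := by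
      rw [← Nat.cast_prod, Complex.norm_natCast]
    have h2 : ∏ k ∈ Finset.univ.erase i, (a k).factorial ≤ g.factorial :=
      Nat.le_of_dvd (Nat.factorial_pos _) (Nat.prod_factorial_dvd_factorial_sum _ _)
    have h3 : n.factorial * g.factorial ≤ (n + g).factorial :=
      Nat.le_of_dvd (Nat.factorial_pos _) (Nat.factorial_mul_factorial_dvd_factorial_add _ _)
    rw [h1, Complex.norm_natCast]
    have h4 : (0 : ℝ) < n.factorial := by exact_mod_cast Nat.factorial_pos n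
    have h5 : (0 : ℝ) < (n + g).factorial := by exact_mod_cast Nat.factorial_pos (n + g)
    rw [div_le_div_iff₀ h5 h4]
    have h6 : ((∏ k ∈ Finset.univ.erase i, (a k).factorial : ℕ) : ℝ) * n.factorial
        ≤ (n + g).factorial := by
      have : (∏ k ∈ Finset.univ.erase i, (a k).factorial) * n.factorial ≤ (n + g).factorial := by
        calc _ ≤ g.factorial * n.factorial := Nat.mul_le_mul_right _ h2
          _ ≤ _ := by rw [mul_comm]; exact h3
      exact_mod_cast this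
    calc ((∏ k ∈ Finset.univ.erase i, (a k).factorial : ℕ) : ℝ) * ‖1 - ς‖ ^ (n + g) * n.factorial
        = (((∏ k ∈ Finset.univ.erase i, (a k).factorial : ℕ) : ℝ) * n.factorial)
          * ‖1 - ς‖ ^ (n + g) := by ring
      _ ≤ (n + g).factorial * 2 ^ (n + g) :=
          mul_le_mul h6 (pow_le_pow_left₀ (norm_nonneg _) hς _) (by positivity) h5.le
      _ = 2 ^ (n + g) * (n + g).factorial := mul_comm _ _
  calc ‖wgt i ς a‖ * (r⁻¹ ^ (n + g + 1) * (r / 4) ^ g)
      ≤ (2 ^ (n + g) / n.factorial) * (r⁻¹ ^ (n + g + 1) * (r / 4) ^ g) :=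
        mul_le_mul_of_nonneg_right e4 (by positivity)
    _ = r⁻¹ * ((2 / r) ^ n / n.factorial * (1 / 2) ^ g) := by
        have e5 : r⁻¹ ^ (n + g + 1) = r⁻¹ * r⁻¹ ^ n * r⁻¹ ^ g := by ring
        have e6 : (2 : ℝ) ^ (n + g) = 2 ^ n * 2 ^ g := pow_add _ _ _
        have e7 : r⁻¹ ^ g * (r / 4) ^ g * 2 ^ g = (1 / 2) ^ g := by
          rw [← mul_pow, ← mul_pow]
          congr 1
          field_simp
          norm_num
        have e8 : (2 / r) ^ n = 2 ^ n * r⁻¹ ^ n := by rw [div_eq_mul_inv, mul_pow]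
        rw [e5, e6, e8, ← e7]
        ring

theorem wgt_bound (i : σ) {ς : ℂ} (hς : ‖1 - ς‖ ≤ 2) {r : ℝ} (hr : 0 < r)
    (F : Finset (σ → ℕ)) : ∑ a ∈ F, ‖wgt i ς a‖ * ∏ k, (rad i r k)⁻¹ ^ a k ≤ Cw i r := by
  set F' := F.filter (fun a => ∑ k ∈ Finset.univ.erase i, a k < a i) with hF'
  set β : (σ → ℕ) → (σ → ℕ) := fun a =>
    Function.update a i (a i - 1 - ∑ k ∈ Finset.univ.erase i, a k) with hβ
  set ψ : σ → ℕ → ℝ := fun k m => if k = i then (2 / r) ^ m / (m.factorial : ℝ) else (1 / 2) ^ m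
    with hψ
  have hψ0 : ∀ k m, 0 ≤ ψ k m := by
    intro k m
    rw [hψ]
    simp only
    split_ifs <;> positivity
  have hβsum : ∀ a, ∑ k ∈ Finset.univ.erase i, β a k = ∑ k ∈ Finset.univ.erase i, a k := by
    intro a
    refine Finset.sum_congr rfl fun k hk => ?_
    rw [hβ]
    simp only
    rw [Function.update_of_ne (Finset.ne_of_mem_erase hk)]
  have hβi : ∀ a, β a i = a i - 1 - ∑ k ∈ Finset.univ.erase i, a k := by
    intro a; rw [hβ]; simp
  have hinj : Set.InjOn β F' := by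
    intro a ha b hb hab
    have ha' := (Finset.mem_filter.mp ha).2
    have hb' := (Finset.mem_filter.mp hb).2
    have h1 : ∀ k, k ≠ i → a k = b k := by
      intro k hk
      have := congrFun hab k
      rw [hβ] at this
      simp only [Function.update_of_ne hk] at this
      exact this
    have h2 : ∑ k ∈ Finset.univ.erase i, a k = ∑ k ∈ Finset.univ.erase i, b k :=
      Finset.sum_congr rfl fun k hk => h1 k (Finset.ne_of_mem_erase hk)
    have h3 := congrFun hab i
    rw [hβi, hβi] at h3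
    funext k
    by_cases hk : k = i
    · subst hk; omega
    · exact h1 k hk
  have h1 : ∑ a ∈ F, ‖wgt i ς a‖ * ∏ k, (rad i r k)⁻¹ ^ a k
      = ∑ a ∈ F', ‖wgt i ς a‖ * ∏ k, (rad i r k)⁻¹ ^ a k := by
    rw [hF', Finset.sum_filter]
    refine Finset.sum_congr rfl fun a _ => ?_
    split_ifs with h
    · rfl
    · unfold wgt
      rw [if_neg h, norm_zero, zero_mul]
  have h2 : ∑ a ∈ F', ‖wgt i ς a‖ * ∏ k, (rad i r k)⁻¹ ^ a k
      ≤ ∑ a ∈ F', r⁻¹ * ∏ k, ψ k (β a k) := by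
    refine Finset.sum_le_sum fun a ha => ?_
    refine (wgt_term hς hr a (Finset.mem_filter.mp ha).2).trans (le_of_eq ?_)
    congr 1
    refine Finset.prod_congr rfl fun k _ => ?_
    rw [hψ]
    simp only
    by_cases hk : k = i
    · subst hk
      rw [if_pos rfl, if_pos rfl, hβi]
    · rw [if_neg hk, if_neg hk]
      congr 1
      rw [hβ]
      simp only [Function.update_of_ne hk]
  have h3 : ∑ a ∈ F', r⁻¹ * ∏ k, ψ k (β a k) = ∑ b ∈ F'.image β, r⁻¹ * ∏ k, ψ k (b k) := by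
    rw [Finset.sum_image hinj]
  obtain ⟨N, hN⟩ : ∃ N : ℕ, ∀ b ∈ F'.image β, ∀ k, b k < N := by
    refine ⟨(∑ b ∈ F'.image β, ∑ k, b k) + 1, fun b hb k => ?_⟩
    have h1 : b k ≤ ∑ k, b k := Finset.single_le_sum (fun _ _ => Nat.zero_le _) (Finset.mem_univ k)
    have h2 : ∑ k, b k ≤ ∑ b ∈ F'.image β, ∑ k, b k :=
      Finset.single_le_sum (f := fun b : σ → ℕ => ∑ k, b k) (fun _ _ => Nat.zero_le _) hb
    omega
  have h4 : ∑ b ∈ F'.image β, r⁻¹ * ∏ k, ψ k (b k)
      ≤ ∑ b ∈ Fintype.piFinset (fun _ : σ => Finset.range N), r⁻¹ * ∏ k, ψ k (b k) := by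
    refine Finset.sum_le_sum_of_subset_of_nonneg ?_ ?_
    · intro b hb
      rw [Fintype.mem_piFinset]
      exact fun k => Finset.mem_range.mpr (hN b hb k)
    · intro b _ _
      exact mul_nonneg (by positivity) (Finset.prod_nonneg fun k _ => hψ0 k _)
  rw [h1]
  refine h2.trans (h3.trans_le (h4.trans ?_))
  rw [← Finset.mul_sum, ← Finset.prod_univ_sum (fun _ : σ => Finset.range N) ψ]
  unfold Cw
  refine mul_le_mul_of_nonneg_left ?_ (by positivity)
  refine Finset.prod_le_prod (fun k _ => Finset.sum_nonneg fun m _ => hψ0 k m) fun k _ => ?_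
  rw [hψ]
  simp only
  split_ifs with h
  · exact Real.sum_le_exp_of_nonneg (by positivity) N
  · have := sum_geometric_two_le N
    simpa using this

end Pool.Agent.MP_410f3c_al.V
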