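import Pool.Agent.MP_410f3c_al.V.Setup
import Pool.Agent.MP_410f3c_al.V.Torus
import Pool.Agent.MP_410f3c_al.V.Weight
import Pool.Agent.MP_410f3c_al.V.Topo

/-!
# The boundedness hypothesis
-/

set_option autoImplicit false

open Polynomial Filter Topology

namespace Pool.Agent.MP_410f3c_al.V

variable {σ : Type} [Fintype σ] [DecidableEq σ]

namespace Dat

variable (D : Dat σ)

/-- The exponents. -/
def ex (m : ℕ) (s : σ →₀ ℕ) : σ → ℕ := fun k =>
  if k = D.i then D.d * m - (s D.i + s D.j) else if k = D.j then 0 else s k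

/-- The index set. -/
noncomputable def SS (n : ℕ) : Finset (Σ _ : ℕ, σ →₀ ℕ) :=
  (Finset.range n).sigma fun m => (D.f ^ m).support

/-- The point of evaluation. -/
noncomputable def VV (t ς : ℂ) (z : σ → ℂ) : σ → ℂ := fun k =>
  if k = D.i then t * (ς / z D.i) else if k = D.j then (1 - t) * (ς / z D.i) else z k

theorem ne_of_rest {k : σ} (hk : k ∈ (Finset.univ.erase D.i).erase D.j) : k ≠ D.i ∧ k ≠ D.j :=
  ⟨Finset.ne_of_mem_erase (Finset.mem_of_mem_erase hk), Finset.ne_of_mem_erase hk⟩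

theorem good_le {m : ℕ} {s : σ →₀ ℕ} (hs : s ∈ (D.f ^ m).support) :
    s D.i + s D.j ≤ D.d * m := by
  rcases D.good_pow m hs with ⟨h, _⟩ | h
  · exact h.le
  · rw [sum_split D.hij] at h; omega

theorem VV_prod (t ς : ℂ) (z : σ → ℂ) (s : σ →₀ ℕ) :
    ∏ k, D.VV t ς z k ^ s k = (t * (ς / z D.i)) ^ s D.i * (((1 - t) * (ς / z D.i)) ^ s D.j *
      ∏ k ∈ (Finset.univ.erase D.i).erase D.j, z k ^ s k) := by
  rw [prod_split D.hij]
  have h1 : D.VV t ς z D.i = t * (ς / z D.i) := by unfold VV; rw [if_pos rfl]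
  have h2 : D.VV t ς z D.j = (1 - t) * (ς / z D.i) := by
    unfold VV; rw [if_neg D.hij.symm, if_pos rfl]
  rw [h1, h2]
  congr 2
  refine Finset.prod_congr rfl fun k hk => ?_
  unfold VV
  rw [if_neg (D.ne_of_rest hk).1, if_neg (D.ne_of_rest hk).2]

theorem ex_prod (z : σ → ℂ) (m : ℕ) (s : σ →₀ ℕ) :
    ∏ k, z k ^ D.ex m s k = z D.i ^ (D.d * m - (s D.i + s D.j)) *
      ∏ k ∈ (Finset.univ.erase D.i).erase D.j, z k ^ s k := by
  rw [prod_split D.hij]
  have h1 : D.ex m s D.i = D.d * m - (s D.i + s D.j) := by unfold ex; rw [if_pos rfl]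
  have h2 : D.ex m s D.j = 0 := by
    unfold ex; rw [if_neg D.hij.symm, if_pos rfl]
  rw [h1, h2, pow_zero, one_mul]
  congr 1
  refine Finset.prod_congr rfl fun k hk => ?_
  unfold ex
  rw [if_neg (D.ne_of_rest hk).1, if_neg (D.ne_of_rest hk).2]

theorem pow_eq (t ς : ℂ) (z : σ → ℂ) (hz : z D.i ≠ 0) (m : ℕ) :
    (z D.i ^ D.d * MvPolynomial.eval (D.VV t ς z) D.f) ^ m =
      ∑ s ∈ (D.f ^ m).support, (D.f ^ m).coeff s * (t ^ s D.i * (1 - t) ^ s D.j) *
        ς ^ (s D.i + s D.j) * ∏ k, z k ^ D.ex m s k := by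
  rw [mul_pow, ← map_pow, MvPolynomial.eval_eq', Finset.mul_sum, ← pow_mul]
  refine Finset.sum_congr rfl fun s hs => ?_
  have h1 := D.good_le hs
  rw [VV_prod, ex_prod]
  have h2 : z D.i ^ (D.d * m) = z D.i ^ (D.d * m - (s D.i + s D.j)) *
      (z D.i ^ s D.i * z D.i ^ s D.j) := by
    rw [← pow_add, ← pow_add]
    congr 1
    omega
  rw [h2, mul_pow, mul_pow, div_pow, div_pow, pow_add]
  have h3 : z D.i ^ s D.i ≠ 0 := pow_ne_zero _ hz
  have h4 : z D.i ^ s D.j ≠ 0 := pow_ne_zero _ hz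
  field_simp

theorem sum_eq (t ς : ℂ) (z : σ → ℂ) (hz : z D.i ≠ 0) (h : ℂ[X]) {n : ℕ}
    (hn : h.natDegree < n) :
    ∑ u ∈ D.SS n, h.coeff u.1 * ((D.f ^ u.1).coeff u.2 * (t ^ u.2 D.i * (1 - t) ^ u.2 D.j) *
        ς ^ (u.2 D.i + u.2 D.j)) * ∏ k, z k ^ D.ex u.1 u.2 k
      = h.eval (z D.i ^ D.d * MvPolynomial.eval (D.VV t ς z) D.f) := by
  unfold SS
  rw [Finset.sum_sigma, Polynomial.eval_eq_sum_range' hn]
  refine Finset.sum_congr rfl fun m _ => ?_
  rw [D.pow_eq t ς z hz m, Finset.mul_sum]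
  refine Finset.sum_congr rfl fun s _ => ?_
  ring

/-- The sum of the coefficients of the lower terms. -/
noncomputable def Q (B : ℝ) : ℝ := ∑ s ∈ D.g.support, ‖D.g.coeff s‖ * B ^ (s D.i + s D.j)

theorem Q_nonneg {B : ℝ} (hB : 0 ≤ B) : 0 ≤ D.Q B :=
  Finset.sum_nonneg fun s _ => by positivity

theorem close {t ς : ℂ} {B r : ℝ} (hB : 0 ≤ B) (ht : ‖t‖ ≤ B) (ht' : ‖1 - t‖ ≤ B) (hς : ‖ς‖ ≤ 1)
    (hr : 0 < r) (hr1 : r ≤ 1) {z : σ → ℂ} (hz : ∀ k, ‖z k‖ = rad D.i r k) :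
    ‖z D.i ^ D.d * MvPolynomial.eval (D.VV t ς z) D.f - D.p.eval t * ς ^ D.d‖
      ≤ r * 4 ^ D.d * D.Q B := by
  have hzi : ‖z D.i‖ = r := by rw [hz]; unfold rad; rw [if_pos rfl]
  have hzi0 : z D.i ≠ 0 := by
    intro h
    rw [h, norm_zero] at hzi
    linarith
  have h1 : z D.i ^ D.d * MvPolynomial.eval (D.VV t ς z) D.f - D.p.eval t * ς ^ D.d
      = z D.i ^ D.d * MvPolynomial.eval (D.VV t ς z) D.g := by
    unfold f
    rw [map_add, FF_eval' D.i D.j D.d D.c (D.VV t ς z) (t := t) (x := ς / z D.i)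
      (by unfold VV; rw [if_pos rfl]) (by unfold VV; rw [if_neg D.hij.symm, if_pos rfl])]
    unfold p
    rw [div_pow]
    have : z D.i ^ D.d ≠ 0 := pow_ne_zero _ hzi0
    field_simp
    ring
  rw [h1, MvPolynomial.eval_eq', Finset.mul_sum]
  refine (norm_sum_le _ _).trans ?_
  unfold Q
  rw [Finset.mul_sum]
  refine Finset.sum_le_sum fun s hs => ?_
  have hdeg := D.g_deg hs
  rw [sum_split D.hij] at hdeg
  set w := ∑ k ∈ (Finset.univ.erase D.i).erase D.j, s k with hw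
  rw [VV_prod]
  have h2 : ‖∏ k ∈ (Finset.univ.erase D.i).erase D.j, z k ^ s k‖ = (4 / r) ^ w := by
    rw [norm_prod, hw, ← Finset.prod_pow_eq_pow_sum]
    refine Finset.prod_congr rfl fun k hk => ?_
    rw [norm_pow, hz]
    unfold rad
    rw [if_neg (D.ne_of_rest hk).1]
  have h3 : ‖(t * (ς / z D.i)) ^ s D.i‖ ≤ (B / r) ^ s D.i := by
    rw [norm_pow, norm_mul, norm_div, hzi]
    refine pow_le_pow_left₀ (by positivity) ?_ _
    calc ‖t‖ * (‖ς‖ / r) ≤ B * (1 / r) :=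
          mul_le_mul ht (div_le_div_of_nonneg_right hς hr.le) (by positivity) hB
      _ = B / r := by ring
  have h4 : ‖((1 - t) * (ς / z D.i)) ^ s D.j‖ ≤ (B / r) ^ s D.j := by
    rw [norm_pow, norm_mul, norm_div, hzi]
    refine pow_le_pow_left₀ (by positivity) ?_ _
    calc ‖1 - t‖ * (‖ς‖ / r) ≤ B * (1 / r) :=
          mul_le_mul ht' (div_le_div_of_nonneg_right hς hr.le) (by positivity) hB
      _ = B / r := by ring
  rw [norm_mul, norm_mul, norm_mul, norm_mul, h2, norm_pow, hzi]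
  have h5 : r ^ D.d * (‖D.g.coeff s‖ * ((B / r) ^ s D.i * ((B / r) ^ s D.j * (4 / r) ^ w)))
      ≤ r * 4 ^ D.d * (‖D.g.coeff s‖ * B ^ (s D.i + s D.j)) := by
    have h6 : r ^ D.d = r ^ (D.d - (s D.i + (s D.j + w))) * (r ^ s D.i * r ^ s D.j * r ^ w) := by
      rw [← pow_add, ← pow_add, ← pow_add]
      congr 1
      omega
    have h7 : r ^ D.d * (‖D.g.coeff s‖ * ((B / r) ^ s D.i * ((B / r) ^ s D.j * (4 / r) ^ w)))
        = r ^ (D.d - (s D.i + (s D.j + w))) * 4 ^ w * (‖D.g.coeff s‖ * B ^ (s D.i + s D.j)) := by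
      rw [h6, div_pow, div_pow, div_pow, pow_add B]
      field_simp
    rw [h7]
    refine mul_le_mul_of_nonneg_right ?_ (by positivity)
    refine mul_le_mul ?_ ?_ (by positivity) hr.le
    · calc r ^ (D.d - (s D.i + (s D.j + w))) ≤ r ^ 1 :=
            pow_le_pow_of_le_one hr.le hr1 (by omega)
        _ = r := pow_one r
    · exact pow_le_pow_right₀ (by norm_num) (by omega)
  refine le_trans ?_ h5
  refine mul_le_mul_of_nonneg_left ?_ (by positivity)
  refine mul_le_mul_of_nonneg_left ?_ (norm_nonneg _)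
  refine mul_le_mul h3 ?_ (by positivity) (by positivity)
  exact mul_le_mul_of_nonneg_right h4 (by positivity)

/-- The polynomial of lower terms. -/
noncomputable def qm (m : ℕ) (t : ℂ) : ℂ[X] :=
  ∑ s ∈ (D.f ^ m).support.filter (fun s => ¬ s D.i + s D.j = D.d * m),
    C ((D.f ^ m).coeff s * (t ^ s D.i * (1 - t) ^ s D.j) *
      (rf D.i D.j s / ((D.d * m - (s D.i + s D.j) - 1).factorial : ℂ))) *
      (X ^ (s D.i + s D.j + 1) * (1 - X) ^ (D.d * m - (s D.i + s D.j) - 1))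

theorem JJ_eval_eq (m : ℕ) (t : ℂ) :
    (JJ D.i D.j (D.d * m) (D.f ^ m)).eval t = D.p.eval t ^ m + II (D.qm m t) := by
  rw [JJ_eval, ← Finset.sum_filter_add_sum_filter_not (D.f ^ m).support
    (fun s => s D.i + s D.j = D.d * m), ← D.lead_sum t m]
  congr 1
  · refine Finset.sum_congr rfl fun s hs => ?_
    rw [Finset.mem_filter] at hs
    have hrf : rf D.i D.j s = 1 := by
      unfold rf
      refine Finset.prod_eq_one fun k hk => ?_
      have : s k = 0 := by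
        rcases D.good_pow m hs.1 with ⟨_, h⟩ | h
        · exact h k hk
        · rw [sum_split D.hij] at h; omega
      rw [this]; simp
    rw [hrf, hs.2, mul_one, div_self (Nat.cast_ne_zero.mpr (Nat.factorial_ne_zero _)), mul_one]
  · unfold qm
    rw [II_sum]
    refine Finset.sum_congr rfl fun s hs => ?_
    rw [Finset.mem_filter] at hs
    have h1 := D.good_le hs.1
    rw [II_C_mul, II_beta]
    obtain ⟨l, hl⟩ : ∃ l, D.d * m = s D.i + s D.j + 1 + l :=
      ⟨D.d * m - (s D.i + s D.j + 1), by have := hs.2; omega⟩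
    have h2 : D.d * m - (s D.i + s D.j) - 1 = l := by omega
    rw [h2, hl]
    have h3 : (l.factorial : ℂ) ≠ 0 := Nat.cast_ne_zero.mpr (Nat.factorial_ne_zero _)
    field_simp

theorem qm_eval (m : ℕ) (t ς : ℂ) :
    (D.qm m t).eval ς = ς * ∑ s ∈ (D.f ^ m).support,
      ((D.f ^ m).coeff s * (t ^ s D.i * (1 - t) ^ s D.j) * ς ^ (s D.i + s D.j)) *
        wgt D.i ς (D.ex m s) := by
  unfold qm
  rw [eval_finsetSum, Finset.sum_filter, Finset.mul_sum]
  refine Finset.sum_congr rfl fun s hs => ?_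
  have h1 := D.good_le hs
  have hexi : D.ex m s D.i = D.d * m - (s D.i + s D.j) := by unfold ex; rw [if_pos rfl]
  have hexj : D.ex m s D.j = 0 := by
    unfold ex; rw [if_neg D.hij.symm, if_pos rfl]
  have hsum : ∑ k ∈ Finset.univ.erase D.i, D.ex m s k
      = ∑ k ∈ (Finset.univ.erase D.i).erase D.j, s k := by
    rw [← Finset.add_sum_erase (Finset.univ.erase D.i) (D.ex m s) (a := D.j)
      (Finset.mem_erase.mpr ⟨D.hij.symm, Finset.mem_univ _⟩), hexj, zero_add]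
    refine Finset.sum_congr rfl fun k hk => ?_
    unfold ex
    rw [if_neg (D.ne_of_rest hk).1, if_neg (D.ne_of_rest hk).2]
  have hprod : ∏ k ∈ Finset.univ.erase D.i, ((D.ex m s k).factorial : ℂ) = rf D.i D.j s := by
    rw [← Finset.mul_prod_erase (Finset.univ.erase D.i) (fun k => ((D.ex m s k).factorial : ℂ))
      (a := D.j) (Finset.mem_erase.mpr ⟨D.hij.symm, Finset.mem_univ _⟩), hexj]
    unfold rf
    rw [Nat.factorial_zero, Nat.cast_one, one_mul]
    refine Finset.prod_congr rfl fun k hk => ?_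
    unfold ex
    rw [if_neg (D.ne_of_rest hk).1, if_neg (D.ne_of_rest hk).2]
  unfold wgt
  rw [hsum, hprod, hexi]
  by_cases h2 : s D.i + s D.j = D.d * m
  · rw [if_neg (not_not.mpr h2), if_neg (by omega), mul_zero, mul_zero]
  · have h3 : ∑ k ∈ (Finset.univ.erase D.i).erase D.j, s k < D.d * m - (s D.i + s D.j) := by
      rcases D.good_pow m hs with ⟨h, _⟩ | h
      · exact absurd h h2
      · rw [sum_split D.hij] at h
        omega
    rw [if_pos h2, if_pos h3]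
    simp only [eval_mul, eval_C, eval_pow, eval_X, eval_sub, eval_one]
    rw [pow_succ ς (s D.i + s D.j)]
    ring

theorem phi_eq (t : ℂ) (h : ℂ[X]) {n : ℕ} (hn : h.natDegree < n) :
    ∑ m ∈ Finset.range n, h.coeff m * (JJ D.i D.j (D.d * m) (D.f ^ m)).eval t
      = h.eval (D.p.eval t) + II (∑ m ∈ Finset.range n, C (h.coeff m) * D.qm m t) := by
  rw [II_sum, Polynomial.eval_eq_sum_range' hn, ← Finset.sum_add_distrib]
  refine Finset.sum_congr rfl fun m _ => ?_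
  rw [JJ_eval_eq, II_C_mul]
  ring

theorem q_bound {t ς : ℂ} (hς : ‖ς‖ ≤ 1) {r : ℝ} (hr : 0 < r) {h : ℂ[X]} {n : ℕ}
    (hn : h.natDegree < n) {M : ℝ} (hM0 : 0 ≤ M)
    (hM : ∀ z : σ → ℂ, (∀ k, ‖z k‖ = rad D.i r k) →
      ‖h.eval (z D.i ^ D.d * MvPolynomial.eval (D.VV t ς z) D.f)‖ ≤ M) :
    ‖(∑ m ∈ Finset.range n, C (h.coeff m) * D.qm m t).eval ς‖ ≤ Cw D.i r * M := by
  have h1 : (∑ m ∈ Finset.range n, C (h.coeff m) * D.qm m t).eval ς
      = ς * ∑ u ∈ D.SS n, (h.coeff u.1 * ((D.f ^ u.1).coeff u.2 *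
        (t ^ u.2 D.i * (1 - t) ^ u.2 D.j) * ς ^ (u.2 D.i + u.2 D.j))) *
          wgt D.i ς (D.ex u.1 u.2) := by
    unfold SS
    rw [eval_finsetSum, Finset.sum_sigma, Finset.mul_sum]
    refine Finset.sum_congr rfl fun m _ => ?_
    rw [eval_mul, eval_C, qm_eval, Finset.mul_sum, Finset.mul_sum, Finset.mul_sum]
    refine Finset.sum_congr rfl fun s _ => ?_
    ring
  have hς2 : ‖1 - ς‖ ≤ 2 := by
    calc ‖1 - ς‖ ≤ ‖(1 : ℂ)‖ + ‖ς‖ := norm_sub_le _ _
      _ ≤ 2 := by rw [norm_one]; linarith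
  have h2 := torus_weight (D.SS n) (fun u => D.ex u.1 u.2)
    (fun u => h.coeff u.1 * ((D.f ^ u.1).coeff u.2 *
        (t ^ u.2 D.i * (1 - t) ^ u.2 D.j) * ς ^ (u.2 D.i + u.2 D.j))) (rad D.i r)
    (fun k => rad_pos D.i hr k) (M := M) (fun z hz => by
      have hzi : z D.i ≠ 0 := by
        intro h0
        have h3 := hz D.i
        rw [h0, norm_zero] at h3
        exact (rad_pos D.i hr D.i).ne h3
      rw [D.sum_eq t ς z hzi h hn]
      exact hM z hz) (wgt D.i ς) (C := Cw D.i r) (fun F => wgt_bound D.i hς2 hr F) hM0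
  rw [h1, norm_mul]
  calc ‖ς‖ * _ ≤ 1 * _ := mul_le_mul_of_nonneg_right hς (norm_nonneg _)
    _ ≤ _ := by rw [one_mul]; exact h2

/-- The primitives. -/
noncomputable def P (m : ℕ) : ℂ[X] := prim (JJ D.i D.j (D.d * m) (D.f ^ m))

theorem hypB (R : Ray) : R.HypB D.p D.P := by
  intro T hT hTL
  have hκ0 : R.κ ≠ 0 := by intro h; have := R.hκ; rw [h] at this; simp at this
  -- the compact set
  set ψ : ℂ × ℝ → ℂ := fun y => D.p.eval y.1 * ((y.2 : ℂ) ^ R.κ) ^ D.d with hψ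
  have hψc : Continuous ψ := by
    have h1 : Continuous fun x : ℝ => (x : ℂ) ^ R.κ :=
      Complex.continuous_ofReal_cpow_const (by rw [R.hκ]; exact one_pos)
    exact (D.p.continuous.comp continuous_fst).mul ((h1.comp continuous_snd).pow _)
  set A : Set ℂ := ψ '' (T ×ˢ Set.Icc (0 : ℝ) 1) with hA
  have hAc : IsCompact A := (hT.prod isCompact_Icc).image hψc
  have hAL : Disjoint A (R.Lam 0) := by
    rw [Set.disjoint_left]
    rintro _ ⟨⟨t, x⟩, ⟨ht, hx0, hx1⟩, rfl⟩ ⟨y, hy, hyx⟩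
    simp only at ht hx0 hx1
    rw [hψ] at hyx
    simp only at hyx
    rcases hx0.eq_or_lt with h0 | h0
    · rw [← h0, Complex.ofReal_zero, Complex.zero_cpow hκ0, zero_pow D.hd.ne', mul_zero] at hyx
      exact R.W_ne _ hyx.symm
    · apply hTL t ht
      refine ⟨y - D.d * Real.log x, ?_, ?_⟩
      · have h1 : Real.log x ≤ 0 := Real.log_nonpos hx0 hx1
        have h2 : (0 : ℝ) ≤ D.d := Nat.cast_nonneg _
        nlinarith
      · have h3 : ((x : ℂ) ^ R.κ) ^ D.d = Complex.exp (R.κ * (D.d * Real.log x : ℝ)) := by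
          rw [Complex.cpow_def_of_ne_zero (by exact_mod_cast h0.ne'), ← Complex.exp_nat_mul,
            ← Complex.ofReal_log h0.le]
          congr 1
          push_cast
          ring
        have h4 : R.W ((y - D.d * Real.log x : ℝ) : ℂ) * Complex.exp (R.κ * (D.d * Real.log x : ℝ))
            = R.W y := by
          rw [← R.W_add]
          congr 1
          push_cast
          ring
        rw [h3, ← h4] at hyx
        exact mul_right_cancel₀ (Complex.exp_ne_zero _) hyx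
  obtain ⟨ε, hε, hεd⟩ := hAL.exists_cthickenings hAc (R.Lam_closed 0)
  have hKL : Disjoint (Metric.cthickening ε A) (R.Lam 0) :=
    hεd.mono_right (Metric.self_subset_cthickening _)
  -- a bound for the points
  obtain ⟨B, hB0, hB⟩ : ∃ B : ℝ, 0 ≤ B ∧ ∀ t ∈ T, ‖t‖ ≤ B ∧ ‖1 - t‖ ≤ B := by
    obtain ⟨B, hB⟩ := hT.isBounded.exists_norm_le
    refine ⟨1 + |B|, by positivity, fun t ht => ?_⟩
    have h1 := (hB t ht).trans (le_abs_self B)
    refine ⟨by linarith, ?_⟩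
    calc ‖1 - t‖ ≤ ‖(1 : ℂ)‖ + ‖t‖ := norm_sub_le _ _
      _ ≤ 1 + |B| := by rw [norm_one]; linarith
  have hQ := D.Q_nonneg hB0
  set r : ℝ := min 1 (ε / (4 ^ D.d * (D.Q B + 1))) with hr
  have hr0 : 0 < r := lt_min one_pos (by positivity)
  have hr1 : r ≤ 1 := min_le_left _ _
  have hrε : r * 4 ^ D.d * D.Q B ≤ ε := by
    have h1 : r ≤ ε / (4 ^ D.d * (D.Q B + 1)) := min_le_right _ _
    rw [le_div_iff₀ (by positivity)] at h1
    have h2 : 0 ≤ r * 4 ^ D.d := by positivity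
    nlinarith
  have hCw : 0 ≤ Cw D.i r := by
    have := wgt_bound D.i (ς := 0) (by simp) hr0 ∅
    simpa using this
  refine ⟨Metric.cthickening ε A, hAc.cthickening, hKL, 1 + ‖R.κ‖ * Cw D.i r, by positivity, ?_⟩
  intro t ht h M hM0 hM
  have h1 : Phi D.P t h = h.eval (D.p.eval t) +
      II (∑ m ∈ Finset.range (h.natDegree + 1), C (h.coeff m) * D.qm m t) := by
    unfold Phi
    rw [psF_apply _ h (Nat.lt_succ_self _), ← D.phi_eq t h (Nat.lt_succ_self _)]
    refine Finset.sum_congr rfl fun m _ => ?_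
    unfold P
    rw [derivative_prim]
  have h2 : ‖h.eval (D.p.eval t)‖ ≤ M := by
    refine hM _ (Metric.self_subset_cthickening _ ?_)
    refine ⟨(t, 1), ⟨ht, zero_le_one, le_rfl⟩, ?_⟩
    rw [hψ]
    simp
  have h3 : ‖II (∑ m ∈ Finset.range (h.natDegree + 1), C (h.coeff m) * D.qm m t)‖
      ≤ ‖R.κ‖ * (Cw D.i r * M) := by
    refine II_bound R.hκ _ _ fun x hx0 hx1 => ?_
    have hς : ‖(x : ℂ) ^ R.κ‖ ≤ 1 := by
      rw [Complex.norm_cpow_eq_rpow_re_of_pos hx0, R.hκ, Real.rpow_one]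
      exact hx1
    refine D.q_bound hς hr0 (Nat.lt_succ_self _) hM0 fun z hz => ?_
    refine hM _ ?_
    refine Metric.mem_cthickening_of_dist_le _ (ψ (t, x)) _ _ ⟨(t, x), ⟨ht, hx0.le, hx1⟩, rfl⟩ ?_
    rw [dist_eq_norm, hψ]
    exact (D.close hB0 (hB t ht).1 (hB t ht).2 hς hr0 hr1 hz).trans hrε
  rw [h1]
  calc ‖_ + _‖ ≤ M + ‖R.κ‖ * (Cw D.i r * M) := (norm_add_le _ _).trans (add_le_add h2 h3)
    _ = (1 + ‖R.κ‖ * Cw D.i r) * M := by ring

end Dat

end Pool.Agent.MP_410f3c_al.V
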