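import Pool.Agent.MP_410f3c_al.V.Abstract
import Pool.Agent.MP_410f3c_al.V.InstA
import Pool.Agent.MP_410f3c_al.V.InstB

/-!
# The theorem
-/

set_option autoImplicit false

open Polynomial

namespace Pool.Agent.MP_410f3c_al.V

theorem pp_eval_zero (d : ℕ) (c : ℕ → ℂ) : (pp d c).eval 0 = c 0 := by
  rw [pp_eval, Finset.sum_eq_single 0]
  · simp
  · intro k _ hk
    rw [zero_pow hk]; ring
  · intro h
    exact absurd (Finset.mem_range.mpr (Nat.succ_pos d)) h

theorem pp_eval_one (d : ℕ) (c : ℕ → ℂ) : (pp d c).eval 1 = c d := by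
  rw [pp_eval, Finset.sum_eq_single d]
  · simp
  · intro k hk hkd
    have hk' : k ≤ d := Nat.lt_succ_iff.mp (Finset.mem_range.mp hk)
    rw [sub_self, zero_pow (by omega)]; ring
  · intro h
    exact absurd (Finset.mem_range.mpr (Nat.lt_succ_self d)) h

theorem pp_deriv (d : ℕ) (c : ℕ → ℂ) (t : ℂ) : (derivative (pp d c)).eval t =
    ∑ k ∈ Finset.range (d + 1), c k * (k * t ^ (k - 1) * (1 - t) ^ (d - k)
      - t ^ k * ((d - k : ℕ) * (1 - t) ^ (d - k - 1))) := by
  unfold pp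
  rw [derivative_sum, eval_finsetSum]
  refine Finset.sum_congr rfl fun k _ => ?_
  rw [derivative_mul, derivative_C_mul, derivative_X_pow, derivative_pow, derivative_sub,
    derivative_one, derivative_X]
  simp only [eval_add, eval_mul, eval_C, eval_pow, eval_X, eval_sub, eval_one, eval_zero]
  ring

theorem pp_deriv_zero {d : ℕ} (hd : 0 < d) (c : ℕ → ℂ) :
    (derivative (pp d c)).eval 0 = c 1 - d * c 0 := by
  rw [pp_deriv]
  obtain ⟨e, rfl⟩ : ∃ e, d = e + 1 := ⟨d - 1, by omega⟩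
  rw [Finset.sum_range_succ', Finset.sum_range_succ', Finset.sum_eq_zero]
  · simp
    ring
  · intro k _
    have h1 : k + 1 + 1 - 1 ≠ 0 := by omega
    have h2 : k + 1 + 1 ≠ 0 := by omega
    rw [zero_pow h1, zero_pow h2]
    ring

theorem pp_deriv_one {d : ℕ} (hd : 0 < d) (c : ℕ → ℂ) :
    (derivative (pp d c)).eval 1 = d * c d - c (d - 1) := by
  rw [pp_deriv]
  obtain ⟨e, rfl⟩ : ∃ e, d = e + 1 := ⟨d - 1, by omega⟩
  rw [Finset.sum_range_succ, Finset.sum_range_succ, Finset.sum_eq_zero]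
  · have h1 : e + 1 - e = 1 := by omega
    have h2 : e + 1 - 1 = e := by omega
    rw [h1, h2]
    simp
    ring
  · intro k hk
    rw [Finset.mem_range] at hk
    have h1 : e + 1 - k ≠ 0 := by omega
    have h2 : e + 1 - k - 1 ≠ 0 := by omega
    rw [sub_self, zero_pow h1, zero_pow h2]
    ring

variable {σ : Type} [Fintype σ] [DecidableEq σ]

namespace Dat

variable (D : Dat σ)

theorem eq_single {s : σ →₀ ℕ} (hs : s ∈ D.g.support) (hd : s D.i + s D.j + 1 = D.d) :
    (s D.i = 0 → s = Finsupp.single D.j (D.d - 1)) ∧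
      (s D.j = 0 → s = Finsupp.single D.i (D.d - 1)) := by
  have h1 := D.g_deg hs
  rw [sum_split D.hij] at h1
  have h2 : ∀ k, k ≠ D.i → k ≠ D.j → s k = 0 := by
    intro k hki hkj
    have hk : k ∈ (Finset.univ.erase D.i).erase D.j :=
      Finset.mem_erase.mpr ⟨hkj, Finset.mem_erase.mpr ⟨hki, Finset.mem_univ k⟩⟩
    have h4 : s k ≤ ∑ k ∈ (Finset.univ.erase D.i).erase D.j, s k :=
      Finset.single_le_sum (f := fun k => s k) (fun _ _ => Nat.zero_le _) hk
    omega
  have hij := D.hij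
  constructor
  · intro h
    ext k
    by_cases hkj : k = D.j
    · subst hkj
      rw [Finsupp.single_eq_same]; omega
    · rw [Finsupp.single_eq_of_ne hkj]
      by_cases hki : k = D.i
      · subst hki; exact h
      · exact h2 k hki hkj
  · intro h
    ext k
    by_cases hki : k = D.i
    · subst hki
      rw [Finsupp.single_eq_same]; omega
    · rw [Finsupp.single_eq_of_ne hki]
      by_cases hkj : k = D.j
      · subst hkj; exact h
      · exact h2 k hki hkj

theorem u_zero : D.u.eval 0 = D.g.coeff (Finsupp.single D.j (D.d - 1)) := by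
  have hd := D.hd
  rw [u_eval, Finset.sum_eq_single (Finsupp.single D.j (D.d - 1))]
  · have h1 : (Finsupp.single D.j (D.d - 1) : σ →₀ ℕ) D.i = 0 := Finsupp.single_eq_of_ne D.hij
    have h2 : (Finsupp.single D.j (D.d - 1) : σ →₀ ℕ) D.j = D.d - 1 := Finsupp.single_eq_same
    rw [h1, h2, if_pos (by omega)]
    simp
  · intro s hs hne
    split_ifs with h
    · have h3 : s D.i ≠ 0 := fun h0 => hne ((D.eq_single hs h).1 h0)
      rw [zero_pow h3]; ring
    · rfl
  · intro h
    rw [MvPolynomial.notMem_support_iff] at h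
    rw [h]; simp

theorem u_one : D.u.eval 1 = D.g.coeff (Finsupp.single D.i (D.d - 1)) := by
  have hd := D.hd
  rw [u_eval, Finset.sum_eq_single (Finsupp.single D.i (D.d - 1))]
  · have h1 : (Finsupp.single D.i (D.d - 1) : σ →₀ ℕ) D.j = 0 :=
      Finsupp.single_eq_of_ne D.hij.symm
    have h2 : (Finsupp.single D.i (D.d - 1) : σ →₀ ℕ) D.i = D.d - 1 := Finsupp.single_eq_same
    rw [h1, h2, if_pos (by omega)]
    simp
  · intro s hs hne
    split_ifs with h
    · have h3 : s D.j ≠ 0 := fun h0 => hne ((D.eq_single hs h).2 h0)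
      rw [sub_self, zero_pow h3]; ring
    · rfl
  · intro h
    rw [MvPolynomial.notMem_support_iff] at h
    rw [h]; simp

theorem main (h0 : D.c 0 ≠ 0) (h1 : D.c 1 ≠ D.d * D.c 0)
    (h2 : D.c D.d ≠ D.c 0 ∨ (D.c (D.d - 1) ≠ D.d * D.c D.d ∧
      Complex.exp (D.g.coeff (Finsupp.single D.j (D.d - 1)) / (D.d * D.c 0)) *
        (D.d * D.c D.d - D.c (D.d - 1)) ≠
      Complex.exp (D.g.coeff (Finsupp.single D.i (D.d - 1)) / (D.d * D.c 0)) *
        (D.c 1 - D.d * D.c 0))) (M : ℕ) :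
    ∃ m, M ≤ m ∧ LL (D.f ^ m) ≠ 0 := by
  have hp0 : D.p.eval 0 = D.c 0 := pp_eval_zero _ _
  have hp1 : D.p.eval 1 = D.c D.d := pp_eval_one _ _
  have hd0 : (derivative D.p).eval 0 = D.c 1 - D.d * D.c 0 := pp_deriv_zero D.hd _
  have hd1 : (derivative D.p).eval 1 = D.d * D.c D.d - D.c (D.d - 1) := pp_deriv_one D.hd _
  have hd0' : (derivative D.p).eval 0 ≠ 0 := by rw [hd0]; exact sub_ne_zero.mpr h1
  have hp : 0 < D.p.natDegree := by
    by_contra hcon
    apply hd0'
    rw [Polynomial.derivative_eq_zero.mpr (by omega), eval_zero]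
  have hcase : D.p.eval 1 ≠ D.p.eval 0 ∨ ((derivative D.p).eval 1 ≠ 0 ∧
      Complex.exp (D.q.eval 0 / D.p.eval 0) / (derivative D.p).eval 0 ≠
        Complex.exp (D.q.eval 1 / D.p.eval 1) / (derivative D.p).eval 1) := by
    by_cases hc : D.c D.d = D.c 0
    · right
      obtain ⟨h3, h4⟩ := h2.resolve_left (fun h => h hc)
      have h5 : D.d * D.c D.d - D.c (D.d - 1) ≠ 0 := sub_ne_zero.mpr h3.symm
      have h6 : D.c 1 - D.d * D.c 0 ≠ 0 := sub_ne_zero.mpr h1
      rw [hd1, hd0, D.q_eval, D.q_eval, D.u_zero, D.u_one, hp0, hp1, hc, div_div, div_div]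
      rw [hc] at h5 h4
      refine ⟨h5, ?_⟩
      rw [Ne, div_eq_div_iff h6 h5]
      exact h4
    · left
      rw [hp0, hp1]
      exact hc
  obtain ⟨m, hm, hne⟩ := abstract_main (P := D.P) hp (s := 0) (t := 1) (by rw [hp0]; exact h0)
    hd0' hcase (D.hypA D.P fun m => derivative_prim _) (fun R => D.hypB R) M
  refine ⟨m, hm, ?_⟩
  intro h
  apply hne
  have h3 : II (JJ D.i D.j (D.d * m) (D.f ^ m)) = 0 := by rw [II_JJ D.hij, h, zero_div]
  unfold II at h3
  exact sub_eq_zero.mp h3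

end Dat

end Pool.Agent.MP_410f3c_al.V
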