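import Mathlib

/-!
# Runge approximation along a logarithmic spiral
-/

set_option autoImplicit false

open Polynomial Filter Topology

namespace Pool.Agent.MP_410f3c_al.V

/-- If `w` lies in a preconnected unbounded subset of the complement of the compact set `K`, then
`1 / (w - z)` is a uniform limit of polynomials on `K`. -/
theorem runge {K L : Set ℂ} (hK : IsCompact K) (hL : IsPreconnected L) (hKL : Disjoint K L)
    (hLb : ¬ Bornology.IsBounded L) {w : ℂ} (hw : w ∈ L) {δ : ℝ} (hδ : 0 < δ) :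
    ∃ h : ℂ[X], ∀ z ∈ K, ‖h.eval z - (w - z)⁻¹‖ < δ := by
  have : CompactSpace K := isCompact_iff_compactSpace.mp hK
  set B : Subalgebra ℂ C(K, ℂ) := (polynomialFunctions K).topologicalClosure with hB
  have hBc : IsClosed (B : Set C(K, ℂ)) := Subalgebra.isClosed_topologicalClosure _
  set x : B := ⟨Polynomial.toContinuousMapOn X K,
    Subalgebra.le_topologicalClosure _ ⟨X, trivial, rfl⟩⟩ with hx
  have hspec : spectrum ℂ (x : C(K, ℂ)) = K := by
    rw [ContinuousMap.spectrum_eq_range]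
    ext z
    constructor
    · rintro ⟨y, rfl⟩
      simp [hx]
    · intro hz
      exact ⟨⟨z, hz⟩, by simp [hx]⟩
  have hwK : w ∉ K := fun h => Set.disjoint_left.mp hKL h hw
  have hns : w ∉ spectrum ℂ x := by
    intro hws
    have h1 := Subalgebra.spectrum_isBounded_connectedComponentIn B x hws
    rw [hspec] at h1
    apply hLb
    refine h1.subset ?_
    exact hL.subset_connectedComponentIn hw (Set.disjoint_left.mp hKL.symm)
  rw [spectrum.notMem_iff] at hns
  obtain ⟨u, hu⟩ := hns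
  have hinv : ((u⁻¹ : Bˣ) : B).1 ∈ (polynomialFunctions K).topologicalClosure := ((u⁻¹ : Bˣ) : B).2
  have hcl : ((u⁻¹ : Bˣ) : B).1 ∈ closure ((polynomialFunctions K : Subalgebra ℂ C(K, ℂ)) :
      Set C(K, ℂ)) := hinv
  rw [Metric.mem_closure_iff] at hcl
  obtain ⟨g, hg, hgd⟩ := hcl δ hδ
  obtain ⟨h, -, rfl⟩ := hg
  refine ⟨h, ?_⟩
  intro z hz
  have h2 : ((u⁻¹ : Bˣ) : B).1 ⟨z, hz⟩ = (w - z)⁻¹ := by
    have h3 : ((u : B) * ((u⁻¹ : Bˣ) : B)).1 ⟨z, hz⟩ = 1 := by
      rw [Units.mul_inv]; rfl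
    rw [hu] at h3
    have h4 : (w - z) * ((u⁻¹ : Bˣ) : B).1 ⟨z, hz⟩ = 1 := by
      rw [← h3]
      simp [hx, Algebra.algebraMap_eq_smul_one]
    exact eq_inv_of_mul_eq_one_right h4
  rw [dist_comm, dist_eq_norm] at hgd
  have h5 := ContinuousMap.norm_coe_le_norm
    ((Polynomial.toContinuousMapOnAlgHom K) h - ((u⁻¹ : Bˣ) : B).1) ⟨z, hz⟩
  rw [ContinuousMap.sub_apply, h2] at h5
  refine lt_of_le_of_lt ?_ hgd
  exact h5

end Pool.Agent.MP_410f3c_al.V
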