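import Pool.Agent.MP_410f3c_al.V.Shift
import Pool.Agent.MP_410f3c_al.V.Runge

/-!
# Rays, approximating sequences, values of functionals
-/

set_option autoImplicit false

open Polynomial Filter Topology

namespace Pool.Agent.MP_410f3c_al.V

theorem iteratedDeriv_poly (p : ℂ[X]) (m : ℕ) :
    iteratedDeriv m (fun z => p.eval z) = fun z => ((derivative^[m]) p).eval z := by
  induction m with
  | zero => simp
  | succ m ih =>
    rw [iteratedDeriv_succ, ih]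
    funext z
    rw [Function.iterate_succ_apply', Polynomial.deriv]

/-- Cauchy's estimate for the coefficients of a polynomial. -/
theorem cauchy_coeff (p : ℂ[X]) (m : ℕ) {r M : ℝ} (hr : 0 < r)
    (h : ∀ z : ℂ, ‖z‖ = r → ‖p.eval z‖ ≤ M) : ‖p.coeff m‖ * r ^ m ≤ M := by
  have h1 := Complex.norm_iteratedDeriv_le_of_forall_mem_sphere_norm_le (c := 0) (C := M)
    (f := fun z => p.eval z) m hr (p.differentiable.diffContOnCl) (by
      intro z hz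
      exact h z (by simpa using hz))
  rw [iteratedDeriv_poly] at h1
  have h2 : ((derivative^[m]) p).eval 0 = (m.factorial : ℂ) * p.coeff m := by
    rw [← coeff_zero_eq_eval_zero, coeff_iterate_derivative, zero_add, Nat.descFactorial_self,
      nsmul_eq_mul]
  have h3 : (fun z => ((derivative^[m]) p).eval z) 0 = (m.factorial : ℂ) * p.coeff m := h2
  rw [h3, norm_mul, Complex.norm_natCast] at h1
  have h4 : (0 : ℝ) < m.factorial := by exact_mod_cast m.factorial_pos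
  rw [mul_div_assoc] at h1
  have h5 := le_of_mul_le_mul_left h1 h4
  rwa [le_div_iff₀ (by positivity)] at h5

/-- A vertex value `a ≠ 0` and a direction `κ = 1 + i τ`. -/
structure Ray where
  a : ℂ
  κ : ℂ
  ha : a ≠ 0
  hκ : κ.re = 1

namespace Ray

variable (R : Ray)

/-- The point `a e^{κ v}`. -/
noncomputable def W (v : ℂ) : ℂ := R.a * Complex.exp (R.κ * v)

/-- The spiral. -/
def Lam (x₀ : ℝ) : Set ℂ := {z | ∃ y : ℝ, x₀ ≤ y ∧ z = R.W y}

theorem W_cont : Continuous R.W := by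
  unfold W; fun_prop

theorem W_ne (v : ℂ) : R.W v ≠ 0 := mul_ne_zero R.ha (Complex.exp_ne_zero _)

theorem norm_W (y : ℝ) : ‖R.W y‖ = ‖R.a‖ * Real.exp y := by
  unfold W
  rw [norm_mul, Complex.norm_exp, Complex.re_mul_ofReal, R.hκ, one_mul]

theorem W_zero : R.W 0 = R.a := by simp [W]

theorem W_add (u v : ℂ) : R.W (u + v) = R.W u * Complex.exp (R.κ * v) := by
  unfold W
  rw [mul_add, Complex.exp_add, mul_assoc]

theorem norm_a_pos : 0 < ‖R.a‖ := norm_pos_iff.mpr R.ha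

theorem Lam_eq (x₀ : ℝ) : R.Lam x₀ = (fun y : ℝ => R.W y) '' Set.Ici x₀ := by
  ext z
  constructor
  · rintro ⟨y, hy, rfl⟩; exact ⟨y, hy, rfl⟩
  · rintro ⟨y, hy, rfl⟩; exact ⟨y, hy, rfl⟩

theorem Lam_preconnected (x₀ : ℝ) : IsPreconnected (R.Lam x₀) := by
  rw [Lam_eq]
  exact isPreconnected_Ici.image _ (R.W_cont.comp Complex.continuous_ofReal).continuousOn

theorem Lam_unbounded (x₀ : ℝ) : ¬ Bornology.IsBounded (R.Lam x₀) := by
  intro h
  rw [isBounded_iff_forall_norm_le] at h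
  obtain ⟨C, hC⟩ := h
  have h1 : Tendsto (fun y : ℝ => ‖R.a‖ * Real.exp y) atTop atTop :=
    Real.tendsto_exp_atTop.const_mul_atTop R.norm_a_pos
  obtain ⟨y, hy1, hy2⟩ := ((h1.eventually_gt_atTop C).and (eventually_ge_atTop x₀)).exists
  have h2 := hC (R.W y) ⟨y, hy2, rfl⟩
  rw [norm_W] at h2
  linarith

theorem Lam_closed (x₀ : ℝ) : IsClosed (R.Lam x₀) := by
  refine IsSeqClosed.isClosed ?_
  intro u z hu huz
  choose y hy hyu using hu
  have h1 : Tendsto (fun n => ‖u n‖) atTop (𝓝 ‖z‖) := huz.norm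
  obtain ⟨C, hC⟩ := h1.bddAbove_range
  have h2 : ∀ n, y n ≤ Real.log (C / ‖R.a‖) := by
    intro n
    have h3 : ‖u n‖ ≤ C := hC ⟨n, rfl⟩
    rw [hyu, norm_W] at h3
    have h4 : Real.exp (y n) ≤ C / ‖R.a‖ := by
      rw [le_div_iff₀ R.norm_a_pos]; linarith
    rw [Real.le_log_iff_exp_le (lt_of_lt_of_le (Real.exp_pos _) h4)]
    exact h4
  obtain ⟨y', -, φ, hφ, hφy⟩ := (isCompact_Icc (a := x₀)
    (b := Real.log (C / ‖R.a‖))).tendsto_subseq (fun n => ⟨hy n, h2 n⟩)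
  have hy' : x₀ ≤ y' := ge_of_tendsto' hφy (fun n => hy _)
  refine ⟨y', hy', ?_⟩
  have h5 : Tendsto (fun n => u (φ n)) atTop (𝓝 z) := huz.comp hφ.tendsto_atTop
  have h6 : Tendsto (fun n => R.W (y (φ n))) atTop (𝓝 (R.W y')) :=
    ((R.W_cont.comp Complex.continuous_ofReal).tendsto y').comp hφy
  refine tendsto_nhds_unique h5 (h6.congr ?_)
  intro n
  rw [hyu]

theorem Lam_anti {x₀ x₁ : ℝ} (h : x₀ ≤ x₁) : R.Lam x₁ ⊆ R.Lam x₀ := by
  rintro z ⟨y, hy, rfl⟩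
  exact ⟨y, h.trans hy, rfl⟩

theorem exists_apx (x : ℝ) : ∃ h : ℕ → ℂ[X], ∀ K : Set ℂ, IsCompact K → Disjoint K (R.Lam x) →
    ∀ δ > 0, ∀ᶠ n in atTop, ∀ z ∈ K, ‖(h n).eval z - (R.W x - z)⁻¹‖ ≤ δ := by
  have h1 : ∀ n : ℕ, ∃ h : ℂ[X], ∀ z ∈ {z : ℂ | ‖z‖ ≤ n ∧ 1 / ((n : ℝ) + 1) ≤
      Metric.infDist z (R.Lam x)}, ‖h.eval z - (R.W x - z)⁻¹‖ < 1 / ((n : ℝ) + 1) := by
    intro n
    refine runge ?_ (R.Lam_preconnected x) ?_ (R.Lam_unbounded x) ⟨x, le_rfl, rfl⟩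
      (by positivity)
    · refine Metric.isCompact_of_isClosed_isBounded ?_ ?_
      · exact (isClosed_le continuous_norm continuous_const).inter
          (isClosed_le continuous_const (Metric.continuous_infDist_pt _))
      · rw [isBounded_iff_forall_norm_le]
        exact ⟨n, fun z hz => hz.1⟩
    · rw [Set.disjoint_left]
      intro z hz hz'
      have := hz.2
      rw [Metric.infDist_zero_of_mem hz'] at this
      have h2 : (0 : ℝ) < 1 / ((n : ℝ) + 1) := by positivity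
      linarith
  choose h hh using h1
  refine ⟨h, ?_⟩
  intro K hK hKL δ hδ
  obtain ⟨C, hC⟩ := hK.isBounded.exists_norm_le
  obtain ⟨ε, hε, hεK⟩ : ∃ ε > 0, ∀ z ∈ K, ε ≤ Metric.infDist z (R.Lam x) := by
    rcases K.eq_empty_or_nonempty with rfl | hne
    · exact ⟨1, one_pos, by simp⟩
    · obtain ⟨z₀, hz₀, hmin⟩ := hK.exists_isMinOn hne
        (Metric.continuous_infDist_pt (R.Lam x)).continuousOn
      refine ⟨Metric.infDist z₀ (R.Lam x), ?_, fun z hz => hmin hz⟩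
      exact ((R.Lam_closed x).notMem_iff_infDist_pos ⟨R.W x, x, le_rfl, rfl⟩).mp
        (Set.disjoint_left.mp hKL hz₀)
  have h2 : Tendsto (fun n : ℕ => 1 / ((n : ℝ) + 1)) atTop (𝓝 0) :=
    tendsto_one_div_add_atTop_nhds_zero_nat
  filter_upwards [h2.eventually_le_const hε, h2.eventually_le_const hδ,
    (tendsto_natCast_atTop_atTop (R := ℝ)).eventually_ge_atTop C] with n hn1 hn2 hn3
  intro z hz
  exact (hh n z ⟨(hC z hz).trans hn3, hn1.trans (hεK z hz)⟩).le.trans hn2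

/-- The approximating polynomials. -/
noncomputable def apx (x : ℝ) : ℕ → ℂ[X] := (R.exists_apx x).choose

theorem apx_spec (x : ℝ) {K : Set ℂ} (hK : IsCompact K) (hKL : Disjoint K (R.Lam x)) {δ : ℝ}
    (hδ : 0 < δ) : ∀ᶠ n in atTop, ∀ z ∈ K, ‖(R.apx x n).eval z - (R.W x - z)⁻¹‖ ≤ δ :=
  (R.exists_apx x).choose_spec K hK hKL δ hδ

/-- The functional `A` takes the value `v` at the function `1 / (W x - z)`. -/
def HasVal (A : ℂ[X] →ₗ[ℂ] ℂ) (x : ℝ) (v : ℂ) : Prop :=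
  Tendsto (fun n => A (R.apx x n)) atTop (𝓝 v)

end Ray

/-- The functional `A` is bounded by the supremum over `K`. -/
def BddOn (A : ℂ[X] →ₗ[ℂ] ℂ) (K : Set ℂ) : Prop :=
  ∃ C : ℝ, 0 ≤ C ∧ ∀ (h : ℂ[X]) (M : ℝ), 0 ≤ M → (∀ z ∈ K, ‖h.eval z‖ ≤ M) → ‖A h‖ ≤ C * M

namespace Ray

variable (R : Ray)

theorem exists_hasVal {A : ℂ[X] →ₗ[ℂ] ℂ} {K : Set ℂ} (hK : IsCompact K) (C : ℝ)
    (hC : ∀ (h : ℂ[X]) (M : ℝ), 0 ≤ M → (∀ z ∈ K, ‖h.eval z‖ ≤ M) → ‖A h‖ ≤ C * M) (hC0 : 0 ≤ C)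
    {x : ℝ} (hKL : Disjoint K (R.Lam x)) :
    ∃ v, R.HasVal A x v ∧ ∀ M, 0 ≤ M → (∀ z ∈ K, ‖(R.W x - z)⁻¹‖ ≤ M) → ‖v‖ ≤ C * M := by
  have hcau : CauchySeq (fun n => A (R.apx x n)) := by
    rw [Metric.cauchySeq_iff']
    intro ε hε
    obtain ⟨N, hN⟩ := eventually_atTop.mp (R.apx_spec x hK hKL
      (δ := ε / (4 * (C + 1))) (by positivity))
    refine ⟨N, fun n hn => ?_⟩
    rw [dist_eq_norm, ← map_sub]
    have h1 := hC (R.apx x n - R.apx x N) (2 * (ε / (4 * (C + 1)))) (by positivity) (by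
      intro z hz
      have h2 := hN n hn z hz
      have h3 := hN N le_rfl z hz
      rw [eval_sub]
      calc ‖(R.apx x n).eval z - (R.apx x N).eval z‖
          = ‖((R.apx x n).eval z - (R.W x - z)⁻¹) - ((R.apx x N).eval z - (R.W x - z)⁻¹)‖ := by
            congr 1; ring
        _ ≤ _ := norm_sub_le _ _
        _ ≤ _ := by linarith)
    refine lt_of_le_of_lt h1 ?_
    have : C * (2 * (ε / (4 * (C + 1)))) = ε * (C / (C + 1)) / 2 := by
      field_simp; ring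
    rw [this]
    have h4 : C / (C + 1) ≤ 1 := by
      rw [div_le_one (by positivity)]; linarith
    nlinarith
  obtain ⟨v, hv⟩ := cauchySeq_tendsto_of_complete hcau
  refine ⟨v, hv, ?_⟩
  intro M hM0 hM
  refine le_of_forall_pos_le_add ?_
  intro ε hε
  have h5 : ∀ᶠ n in atTop, ‖A (R.apx x n)‖ ≤ C * (M + ε / (C + 1)) := by
    filter_upwards [R.apx_spec x hK hKL (δ := ε / (C + 1)) (by positivity)] with n hn
    refine hC _ _ (by positivity) ?_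
    intro z hz
    calc ‖(R.apx x n).eval z‖ = ‖(R.W x - z)⁻¹ + ((R.apx x n).eval z - (R.W x - z)⁻¹)‖ := by
            congr 1; ring
      _ ≤ _ := norm_add_le _ _
      _ ≤ _ := add_le_add (hM z hz) (hn z hz)
  have h6 : ‖v‖ ≤ C * (M + ε / (C + 1)) := le_of_tendsto hv.norm h5
  refine h6.trans ?_
  have h4 : C / (C + 1) ≤ 1 := by
    rw [div_le_one (by positivity)]; linarith
  have : C * (M + ε / (C + 1)) = C * M + ε * (C / (C + 1)) := by
    field_simp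
  rw [this]
  nlinarith

/-- The functionals with logarithmic coefficient `T`. -/
def Cls (T : ℂ) (A : ℂ[X] →ₗ[ℂ] ℂ) : Prop :=
  ∃ g : ℝ → ℂ, Tame g ∧ ∀ x : ℝ, 0 < x → R.HasVal A x (T * lg x + g x)

variable {R}

theorem Cls.add {T₁ T₂ : ℂ} {A₁ A₂ : ℂ[X] →ₗ[ℂ] ℂ} (h₁ : R.Cls T₁ A₁) (h₂ : R.Cls T₂ A₂) :
    R.Cls (T₁ + T₂) (A₁ + A₂) := by
  obtain ⟨g₁, hg₁, h₁⟩ := h₁
  obtain ⟨g₂, hg₂, h₂⟩ := h₂
  refine ⟨g₁ + g₂, hg₁.add hg₂, fun x hx => ?_⟩
  have := (h₁ x hx).add (h₂ x hx)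
  have e : T₁ * lg x + g₁ x + (T₂ * lg x + g₂ x) = (T₁ + T₂) * lg x + (g₁ + g₂) x := by
    rw [Pi.add_apply]; ring
  rw [e] at this
  exact this

theorem Cls.neg {T : ℂ} {A : ℂ[X] →ₗ[ℂ] ℂ} (h : R.Cls T A) : R.Cls (-T) (-A) := by
  obtain ⟨g, hg, h⟩ := h
  refine ⟨-g, hg.neg, fun x hx => ?_⟩
  have := (h x hx).neg
  have e : -(T * lg x + g x) = (-T) * lg x + (-g) x := by
    rw [Pi.neg_apply]; ring
  rw [e] at this
  exact this

theorem Cls.sub {T₁ T₂ : ℂ} {A₁ A₂ : ℂ[X] →ₗ[ℂ] ℂ} (h₁ : R.Cls T₁ A₁) (h₂ : R.Cls T₂ A₂) :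
    R.Cls (T₁ - T₂) (A₁ - A₂) := by
  rw [sub_eq_add_neg, sub_eq_add_neg]
  exact h₁.add h₂.neg

theorem Cls.of_bddOn {A : ℂ[X] →ₗ[ℂ] ℂ} {K : Set ℂ} (hK : IsCompact K)
    (hKL : Disjoint K (R.Lam 0)) (hA : BddOn A K) : R.Cls 0 A := by
  obtain ⟨C, hC0, hC⟩ := hA
  obtain ⟨ε, hε, hεK⟩ : ∃ ε > 0, ∀ z ∈ K, ε ≤ Metric.infDist z (R.Lam 0) := by
    rcases K.eq_empty_or_nonempty with rfl | hne
    · exact ⟨1, one_pos, by simp⟩
    · obtain ⟨z₀, hz₀, hmin⟩ := hK.exists_isMinOn hne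
        (Metric.continuous_infDist_pt (R.Lam 0)).continuousOn
      refine ⟨Metric.infDist z₀ (R.Lam 0), ?_, fun z hz => hmin hz⟩
      exact ((R.Lam_closed 0).notMem_iff_infDist_pos ⟨R.W (0 : ℝ), 0, le_rfl, rfl⟩).mp
        (Set.disjoint_left.mp hKL hz₀)
  have h1 : ∀ x : ℝ, 0 < x → ∃ v, R.HasVal A x v ∧ ‖v‖ ≤ C * ε⁻¹ := by
    intro x hx
    obtain ⟨v, hv, hv'⟩ := R.exists_hasVal hK C hC hC0
      (hKL.mono_right (R.Lam_anti hx.le))
    refine ⟨v, hv, hv' _ (by positivity) ?_⟩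
    intro z hz
    rw [norm_inv]
    refine inv_anti₀ hε ?_
    have h2 : Metric.infDist z (R.Lam 0) ≤ dist z (R.W x) :=
      Metric.infDist_le_dist_of_mem ⟨x, hx.le, rfl⟩
    rw [dist_comm, dist_eq_norm] at h2
    exact (hεK z hz).trans h2
  choose! g hg hg' using h1
  refine ⟨g, Bd.tame ?_, ?_⟩
  · refine Asymptotics.IsBigO.of_bound (C * ε⁻¹) ?_
    filter_upwards [self_mem_nhdsWithin] with x hx
    rw [norm_one, mul_one]
    exact hg' x hx
  · intro x hx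
    rw [zero_mul, zero_add]
    exact hg x hx

theorem hasVal_unique {A : ℂ[X] →ₗ[ℂ] ℂ} {x : ℝ} {v v' : ℂ} (h : R.HasVal A x v)
    (h' : R.HasVal A x v') : v = v' := tendsto_nhds_unique h h'

end Ray

end Pool.Agent.MP_410f3c_al.V
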