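import Pool.Agent.MP_410f3c_al.V.Psi
import Pool.Agent.MP_410f3c_al.V.Ray

/-!
# Asymptotics of the main term
-/

set_option autoImplicit false

open Polynomial Filter Topology MeasureTheory

namespace Pool.Agent.MP_410f3c_al.V

theorem one_sub_exp_ge {z : ℂ} (hz : ‖z‖ ≤ 1 / 2) : ‖z‖ / 2 ≤ ‖1 - Complex.exp (-z)‖ := by
  have h1 := Complex.norm_exp_sub_one_sub_id_le (x := -z) (by rw [norm_neg]; linarith)
  rw [norm_neg] at h1
  have h2 : ‖z‖ ≤ ‖1 - Complex.exp (-z)‖ + ‖Complex.exp (-z) - 1 - -z‖ := by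
    calc ‖z‖ = ‖(1 - Complex.exp (-z)) + (Complex.exp (-z) - 1 - -z)‖ := by congr 1; ring
      _ ≤ _ := norm_add_le _ _
  have h3 : ‖z‖ ^ 2 ≤ ‖z‖ / 2 := by nlinarith [norm_nonneg z]
  linarith

theorem kern_bound {κ : ℂ} (hκ : κ.re = 1) {x s : ℝ} (hx : 0 < x) (hs : 0 ≤ s)
    (hsm : ‖κ‖ * (x + s) ≤ 1 / 2) :
    ‖Complex.exp (-(κ * x)) / (1 - Complex.exp (-(κ * (x + s)))) - 1 / (κ * (x + s))‖ ≤ 6 := by
  have hκ0 : κ ≠ 0 := by intro h; rw [h] at hκ; simp at hκ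
  have hκn : 0 < ‖κ‖ := norm_pos_iff.mpr hκ0
  have hxs : 0 < x + s := by linarith
  set z : ℂ := κ * (x + s) with hz
  have hzn : ‖z‖ = ‖κ‖ * (x + s) := by
    rw [hz, norm_mul, ← Complex.ofReal_add, Complex.norm_real, Real.norm_of_nonneg hxs.le]
  have hz0 : 0 < ‖z‖ := by rw [hzn]; positivity
  have hzne : z ≠ 0 := norm_pos_iff.mp hz0
  have hz2 : ‖z‖ ≤ 1 / 2 := by rw [hzn]; exact hsm
  have h1 := one_sub_exp_ge hz2
  have h1pos : 0 < ‖1 - Complex.exp (-z)‖ := by linarith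
  have h1ne : 1 - Complex.exp (-z) ≠ 0 := norm_pos_iff.mp h1pos
  have e1 : Complex.exp (-(κ * x)) / (1 - Complex.exp (-z)) - 1 / z
      = (Complex.exp (-(κ * x)) - 1) / (1 - Complex.exp (-z))
        + (Complex.exp (-z) - 1 - -z) / (z * (1 - Complex.exp (-z))) := by
    field_simp
    ring
  rw [e1]
  refine (norm_add_le _ _).trans ?_
  have hkx : ‖-(κ * (x : ℂ))‖ = ‖κ‖ * x := by
    rw [norm_neg, norm_mul, Complex.norm_real, Real.norm_of_nonneg hx.le]
  have h2 : ‖(Complex.exp (-(κ * x)) - 1) / (1 - Complex.exp (-z))‖ ≤ 4 := by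
    rw [norm_div, div_le_iff₀ h1pos]
    have h3 := Complex.norm_exp_sub_one_le (x := -(κ * (x : ℂ))) (by
      rw [hkx]
      nlinarith)
    rw [hkx] at h3
    have h4 : ‖κ‖ * x ≤ ‖z‖ := by rw [hzn]; nlinarith
    linarith
  have h5 : ‖(Complex.exp (-z) - 1 - -z) / (z * (1 - Complex.exp (-z)))‖ ≤ 2 := by
    rw [norm_div, norm_mul, div_le_iff₀ (by positivity)]
    have h6 := Complex.norm_exp_sub_one_sub_id_le (x := -z) (by rw [norm_neg]; linarith)
    rw [norm_neg] at h6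
    nlinarith
  linarith

/-- The kernel is a geometric series. -/
theorem kern_hasSum {κ : ℂ} (hκ : κ.re = 1) {x s : ℝ} (hx : 0 < x) (hs : 0 ≤ s) :
    HasSum (fun m : ℕ => Complex.exp (-(κ * x)) ^ (m + 1) * Complex.exp (-(κ * (m * s))))
      (Complex.exp (-(κ * x)) / (1 - Complex.exp (-(κ * (x + s))))) := by
  have hq : ‖Complex.exp (-(κ * (x + s)))‖ < 1 := by
    rw [Complex.norm_exp]
    have : (-(κ * ((x : ℂ) + s))).re = -(x + s) := by
      rw [Complex.neg_re, ← Complex.ofReal_add, Complex.re_mul_ofReal, hκ, one_mul]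
    rw [this, Real.exp_lt_one_iff]
    linarith
  have h1 := (hasSum_geometric_of_norm_lt_one hq).mul_left (Complex.exp (-(κ * x)))
  rw [← div_eq_mul_inv] at h1
  refine h1.congr_fun ?_
  intro m
  rw [pow_succ, ← Complex.exp_nat_mul, ← Complex.exp_nat_mul, mul_comm (Complex.exp _)
    (Complex.exp (-(κ * x))), mul_assoc, ← Complex.exp_add]
  congr 2
  ring

/-- The main term, for one value of the parameter. -/
theorem main_hasSum (R : Ray) {r₁ : ℝ} (hr₁ : 0 ≤ r₁) {k : ℕ} {φ : ℝ → ℂ}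
    (hφ : ContinuousOn φ (Set.Icc 0 r₁)) {x : ℝ} (hx : 0 < x) :
    HasSum (fun m : ℕ => (R.W x)⁻¹ ^ (m + 1) *
        ∫ r in (0 : ℝ)..r₁, φ r * (R.a ^ m * Complex.exp (-(R.κ * (m * (r ^ k : ℝ))))))
      (∫ r in (0 : ℝ)..r₁, φ r * R.a⁻¹ * (Complex.exp (-(R.κ * x)) /
        (1 - Complex.exp (-(R.κ * (x + (r ^ k : ℝ))))))) := by
  obtain ⟨B, hB⟩ := (isCompact_Icc (a := (0 : ℝ)) (b := r₁)).exists_bound_of_continuousOn hφ
  have hB0 : 0 ≤ B := (norm_nonneg _).trans (hB 0 ⟨le_rfl, hr₁⟩)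
  set q : ℝ := Real.exp (-x) with hq
  have hq0 : 0 < q := Real.exp_pos _
  have hq1 : q < 1 := by rw [hq, Real.exp_lt_one_iff]; linarith
  have hWinv : (R.W x)⁻¹ = R.a⁻¹ * Complex.exp (-(R.κ * x)) := by
    unfold Ray.W
    rw [mul_inv, Complex.exp_neg]
  have hnq : ‖Complex.exp (-(R.κ * x))‖ = q := by
    rw [Complex.norm_exp, Complex.neg_re, Complex.re_mul_ofReal, R.hκ, one_mul]
  have hterm : ∀ m : ℕ, ∀ r : ℝ, (R.W x)⁻¹ ^ (m + 1) * (φ r * (R.a ^ m *
      Complex.exp (-(R.κ * (m * (r ^ k : ℝ))))))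
      = φ r * R.a⁻¹ * (Complex.exp (-(R.κ * x)) ^ (m + 1) *
        Complex.exp (-(R.κ * (m * (r ^ k : ℝ))))) := by
    intro m r
    rw [hWinv, mul_pow, pow_succ R.a⁻¹, inv_pow]
    have : R.a ^ m ≠ 0 := pow_ne_zero _ R.ha
    field_simp
  have h1 := intervalIntegral.hasSum_integral_of_dominated_convergence (a := 0) (b := r₁)
    (μ := volume)
    (F := fun (m : ℕ) (r : ℝ) => φ r * R.a⁻¹ * (Complex.exp (-(R.κ * x)) ^ (m + 1) *
        Complex.exp (-(R.κ * (m * (r ^ k : ℝ))))))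
    (f := fun r => φ r * R.a⁻¹ * (Complex.exp (-(R.κ * x)) /
        (1 - Complex.exp (-(R.κ * (x + (r ^ k : ℝ)))))))
    (fun m _ => B * ‖R.a⁻¹‖ * q ^ (m + 1)) ?_ ?_ ?_ ?_ ?_
  · refine h1.congr_fun ?_
    intro m
    rw [← intervalIntegral.integral_const_mul]
    refine intervalIntegral.integral_congr ?_
    intro r _
    exact hterm m r
  · intro m
    refine ContinuousOn.aestronglyMeasurable ?_ measurableSet_uIoc
    rw [Set.uIoc_of_le hr₁]
    refine ContinuousOn.mul (ContinuousOn.mul (hφ.mono Set.Ioc_subset_Icc_self)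
      continuousOn_const) ?_
    refine Continuous.continuousOn ?_
    fun_prop
  · intro m
    refine Filter.Eventually.of_forall ?_
    intro r hr
    rw [Set.uIoc_of_le hr₁] at hr
    rw [norm_mul, norm_mul, norm_mul, norm_pow, hnq]
    have h2 : ‖Complex.exp (-(R.κ * (m * (r ^ k : ℝ))))‖ ≤ 1 := by
      rw [Complex.norm_exp, Real.exp_le_one_iff]
      have : (-(R.κ * ((m : ℂ) * ((r ^ k : ℝ) : ℂ)))).re = -(m * r ^ k) := by
        have e : ((m : ℂ) * ((r ^ k : ℝ) : ℂ)) = ((m * r ^ k : ℝ) : ℂ) := by push_cast; ring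
        rw [e, Complex.neg_re, Complex.re_mul_ofReal, R.hκ, one_mul]
      rw [this]
      have : 0 ≤ (m : ℝ) * r ^ k := mul_nonneg (Nat.cast_nonneg _) (pow_nonneg hr.1.le _)
      linarith
    calc ‖φ r‖ * ‖R.a⁻¹‖ * (q ^ (m + 1) * ‖Complex.exp (-(R.κ * (m * (r ^ k : ℝ))))‖)
        ≤ B * ‖R.a⁻¹‖ * (q ^ (m + 1) * 1) := by
          refine mul_le_mul (mul_le_mul_of_nonneg_right (hB r ⟨hr.1.le, hr.2⟩) (norm_nonneg _))
            (mul_le_mul_of_nonneg_left h2 (by positivity)) (by positivity) (by positivity)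
      _ = _ := by rw [mul_one]
  · refine Filter.Eventually.of_forall ?_
    intro r _
    refine Summable.mul_left _ ?_
    exact (summable_nat_add_iff 1).mpr (summable_geometric_of_lt_one hq0.le hq1)
  · exact intervalIntegrable_const
  · refine Filter.Eventually.of_forall ?_
    intro r hr
    rw [Set.uIoc_of_le hr₁] at hr
    exact (kern_hasSum R.hκ hx (pow_nonneg hr.1.le k)).mul_left _

/-- The main term is `T log (1 / x)` plus a tame function. -/
theorem tame_main (R : Ray) {r₁ : ℝ} (hr₁ : 0 < r₁) {k : ℕ} (hk : 0 < k) {φ : ℝ → ℂ}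
    (hφ : ContinuousOn φ (Set.Icc 0 r₁)) {b : ℕ → ℂ} {C₂ : ℝ} (hC₂ : 0 ≤ C₂)
    (hT : ∀ r ∈ Set.Icc 0 r₁, ‖φ r - ∑ j ∈ Finset.range k, b j * (r : ℂ) ^ j‖ ≤ C₂ * r ^ k)
    (hsm : ‖R.κ‖ * r₁ ^ k ≤ 1 / 4) :
    Tame ((fun x : ℝ => ∑' m : ℕ, (R.W x)⁻¹ ^ (m + 1) *
        ∫ r in (0 : ℝ)..r₁, φ r * (R.a ^ m * Complex.exp (-(R.κ * (m * (r ^ k : ℝ))))))
      - (b (k - 1) / (R.a * R.κ * k)) • lg) := by
  have hκ0 : R.κ ≠ 0 := by intro h; have := R.hκ; rw [h] at this; simp at this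
  have hκn : 0 < ‖R.κ‖ := norm_pos_iff.mpr hκ0
  obtain ⟨B, hB⟩ := (isCompact_Icc (a := (0 : ℝ)) (b := r₁)).exists_bound_of_continuousOn hφ
  have hB0 : 0 ≤ B := (norm_nonneg _).trans (hB 0 ⟨le_rfl, hr₁.le⟩)
  -- the model
  set H : ℝ → ℂ := fun x => ∑ j ∈ Finset.range k, (b j / (R.a * R.κ)) * psi r₁ j k x with hH
  set g : ℝ → ℂ := (fun x : ℝ => ∑' m : ℕ, (R.W x)⁻¹ ^ (m + 1) *
        ∫ r in (0 : ℝ)..r₁, φ r * (R.a ^ m * Complex.exp (-(R.κ * (m * (r ^ k : ℝ)))))) with hg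
  have h1 : Bd (g - H) := by
    refine Asymptotics.IsBigO.of_bound ((‖R.a⁻¹‖ * (B * 6 + C₂ / ‖R.κ‖)) * |r₁ - 0|) ?_
    have hev : ∀ᶠ x : ℝ in 𝓝[>] 0, ‖R.κ‖ * x < 1 / 4 := by
      have : Tendsto (fun x : ℝ => ‖R.κ‖ * x) (𝓝[>] 0) (𝓝 (‖R.κ‖ * 0)) :=
        ((continuous_const.mul continuous_id).tendsto 0).mono_left nhdsWithin_le_nhds
      rw [mul_zero] at this
      exact this.eventually_lt_const (by norm_num)
    filter_upwards [hev, self_mem_nhdsWithin] with x hx1 hx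
    have hx : (0 : ℝ) < x := hx
    rw [norm_one, mul_one, Pi.sub_apply]
    have e1 : g x = ∫ r in (0 : ℝ)..r₁, φ r * R.a⁻¹ * (Complex.exp (-(R.κ * x)) /
        (1 - Complex.exp (-(R.κ * (x + (r ^ k : ℝ)))))) := (main_hasSum R hr₁.le hφ hx).tsum_eq
    have e2 : H x = ∫ r in (0 : ℝ)..r₁, (∑ j ∈ Finset.range k, b j * (r : ℂ) ^ j) * R.a⁻¹ *
        (1 / (R.κ * (x + (r ^ k : ℝ)))) := by
      have e3 : ∀ r : ℝ, (∑ j ∈ Finset.range k, b j * (r : ℂ) ^ j) * R.a⁻¹ *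
          (1 / (R.κ * (x + (r ^ k : ℝ)))) = ∑ j ∈ Finset.range k, (b j / (R.a * R.κ)) *
            ((r ^ j / (x + r ^ k) : ℝ) : ℂ) := by
        intro r
        rw [Finset.sum_mul, Finset.sum_mul]
        refine Finset.sum_congr rfl fun j _ => ?_
        push_cast
        rw [one_div, mul_inv, div_eq_mul_inv, mul_inv, div_eq_mul_inv]
        ring
      simp_rw [e3]
      rw [intervalIntegral.integral_finsetSum]
      · rw [hH]
        refine Finset.sum_congr rfl fun j _ => ?_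
        rw [intervalIntegral.integral_const_mul]
        congr 1
        unfold psi
        exact (intervalIntegral.integral_ofReal).symm
      · intro j _
        refine IntervalIntegrable.const_mul ?_ _
        exact ⟨(psi_contOn hx j k le_rfl hr₁.le).1.ofReal,
          (psi_contOn hx j k le_rfl hr₁.le).2.ofReal⟩
    rw [e1, e2, ← intervalIntegral.integral_sub]
    · refine intervalIntegral.norm_integral_le_of_norm_le_const ?_
      intro r hr
      rw [Set.uIoc_of_le hr₁.le] at hr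
      have hr' : r ∈ Set.Icc 0 r₁ := ⟨hr.1.le, hr.2⟩
      have hrk : 0 < r ^ k := pow_pos hr.1 k
      have hrk1 : r ^ k ≤ r₁ ^ k := pow_le_pow_left₀ hr.1.le hr.2 k
      have hk1 := kern_bound R.hκ hx hrk.le (by nlinarith)
      have e4 : φ r * R.a⁻¹ * (Complex.exp (-(R.κ * x)) /
          (1 - Complex.exp (-(R.κ * (x + (r ^ k : ℝ)))))) -
          (∑ j ∈ Finset.range k, b j * (r : ℂ) ^ j) * R.a⁻¹ * (1 / (R.κ * (x + (r ^ k : ℝ))))
          = R.a⁻¹ * (φ r * (Complex.exp (-(R.κ * x)) /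
          (1 - Complex.exp (-(R.κ * (x + (r ^ k : ℝ))))) - 1 / (R.κ * (x + (r ^ k : ℝ)))) +
            (φ r - ∑ j ∈ Finset.range k, b j * (r : ℂ) ^ j) *
              (1 / (R.κ * (x + (r ^ k : ℝ))))) := by ring
      rw [e4, norm_mul]
      refine mul_le_mul_of_nonneg_left ?_ (norm_nonneg _)
      refine (norm_add_le _ _).trans (add_le_add ?_ ?_)
      · rw [norm_mul]
        exact mul_le_mul (hB r hr') hk1 (norm_nonneg _) hB0
      · rw [norm_mul]
        have h5 : ‖(1 : ℂ) / (R.κ * (x + (r ^ k : ℝ)))‖ = 1 / (‖R.κ‖ * (x + r ^ k)) := by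
          rw [norm_div, norm_one, norm_mul, ← Complex.ofReal_add, Complex.norm_real,
            Real.norm_of_nonneg (by positivity)]
        rw [h5]
        calc ‖φ r - ∑ j ∈ Finset.range k, b j * (r : ℂ) ^ j‖ * (1 / (‖R.κ‖ * (x + r ^ k)))
            ≤ C₂ * r ^ k * (1 / (‖R.κ‖ * (x + r ^ k))) :=
              mul_le_mul_of_nonneg_right (hT r hr') (by positivity)
          _ = C₂ / ‖R.κ‖ * (r ^ k / (x + r ^ k)) := by field_simp
          _ ≤ C₂ / ‖R.κ‖ * 1 := by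
              refine mul_le_mul_of_nonneg_left ?_ (by positivity)
              rw [div_le_one (by positivity)]
              linarith
          _ = _ := mul_one _
    · refine ContinuousOn.intervalIntegrable ?_
      rw [Set.uIcc_of_le hr₁.le]
      refine ContinuousOn.mul (hφ.mul continuousOn_const) ?_
      refine ContinuousOn.div (by fun_prop) (by fun_prop) ?_
      intro r hr
      have h6 : 0 ≤ r ^ k := pow_nonneg hr.1 k
      have h7 : r ^ k ≤ r₁ ^ k := pow_le_pow_left₀ hr.1 hr.2 k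
      have hn : ‖R.κ * ((x : ℂ) + ((r ^ k : ℝ) : ℂ))‖ = ‖R.κ‖ * (x + r ^ k) := by
        rw [norm_mul, ← Complex.ofReal_add, Complex.norm_real, Real.norm_of_nonneg (by positivity)]
      have h8 := one_sub_exp_ge (z := R.κ * ((x : ℂ) + ((r ^ k : ℝ) : ℂ))) (by
        rw [hn]; nlinarith)
      rw [hn] at h8
      have h9 : 0 < ‖R.κ‖ * (x + r ^ k) := by positivity
      exact norm_pos_iff.mp (by linarith)
    · refine ContinuousOn.intervalIntegrable ?_
      rw [Set.uIcc_of_le hr₁.le]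
      refine ContinuousOn.mul (Continuous.continuousOn (by fun_prop)) ?_
      refine ContinuousOn.div (by fun_prop) (by fun_prop) ?_
      intro r hr
      have h6 : 0 ≤ r ^ k := pow_nonneg hr.1 k
      refine mul_ne_zero hκ0 ?_
      rw [← Complex.ofReal_add]
      have : (0 : ℝ) < x + r ^ k := by positivity
      exact_mod_cast this.ne'
  have h2 : Tame (H - (b (k - 1) / (R.a * R.κ * k)) • lg) := by
    obtain ⟨k', rfl⟩ : ∃ k', k = k' + 1 := ⟨k - 1, by omega⟩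
    have e5 : H - (b (k' + 1 - 1) / (R.a * R.κ * ((k' + 1 : ℕ) : ℂ))) • lg
        = (∑ j ∈ Finset.range k', (b j / (R.a * R.κ)) • psi r₁ j (k' + 1))
          + (b k' / (R.a * R.κ)) • (psi r₁ (k' + 1 - 1) (k' + 1)
            - ((1 / ((k' + 1 : ℕ) : ℝ) : ℝ) : ℂ) • lg) := by
      funext x
      rw [hH]
      simp only [Pi.sub_apply, Pi.add_apply, Pi.smul_apply, smul_eq_mul, Finset.sum_apply,
        Finset.sum_range_succ, Nat.add_sub_cancel]
      push_cast
      rw [mul_sub, add_sub_assoc]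
      congr 2
      rw [← mul_assoc]
      congr 1
      rw [div_mul_div_comm, mul_one]
    rw [e5]
    refine Tame.add ?_ ((psi_log hr₁ (Nat.succ_pos k')).smul _).tame
    refine Finset.sum_induction _ Tame (fun _ _ => Tame.add) Tame.zero ?_
    intro j hj
    rw [Finset.mem_range] at hj
    exact (psi_tame hr₁ (by omega)).smul _
  have e6 : g - (b (k - 1) / (R.a * R.κ * k)) • lg
      = (g - H) + (H - (b (k - 1) / (R.a * R.κ * k)) • lg) := by abel
  rw [e6]
  exact h1.tame.add h2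

end Pool.Agent.MP_410f3c_al.V
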