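import Pool.Agent.MP_410f3c_al.V.Ray

/-!
# Functionals given by power series
-/

set_option autoImplicit false

open Polynomial Filter Topology

namespace Pool.Agent.MP_410f3c_al.V

/-- The functional `h ↦ ∑ h_m I_m`. -/
noncomputable def psF (I : ℕ → ℂ) : ℂ[X] →ₗ[ℂ] ℂ :=
  Polynomial.lsum fun m => (LinearMap.toSpanSingleton ℂ ℂ (I m))

theorem psF_apply' (I : ℕ → ℂ) (h : ℂ[X]) : psF I h = h.sum fun m c => c * I m := rfl

theorem psF_apply (I : ℕ → ℂ) (h : ℂ[X]) {n : ℕ} (hn : h.natDegree < n) :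
    psF I h = ∑ m ∈ Finset.range n, h.coeff m * I m := by
  rw [psF_apply']
  exact Polynomial.sum_over_range' _ (by simp) n hn

theorem psF_add (I I' : ℕ → ℂ) : psF (I + I') = psF I + psF I' := by
  ext m
  simp [psF]

theorem psF_neg (I : ℕ → ℂ) : psF (-I) = -psF I := by
  ext m
  simp [psF]

theorem psF_sub (I I' : ℕ → ℂ) : psF (I - I') = psF I - psF I' := by
  rw [sub_eq_add_neg, psF_add, psF_neg, sub_eq_add_neg]

theorem psF_bdd {I : ℕ → ℂ} {C r ρ : ℝ} (hC : 0 ≤ C) (hr : 0 ≤ r) (hρ : r < ρ)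
    (hI : ∀ m, ‖I m‖ ≤ C * r ^ m) (h : ℂ[X]) (M : ℝ) (hM0 : 0 ≤ M)
    (hM : ∀ z : ℂ, ‖z‖ ≤ ρ → ‖h.eval z‖ ≤ M) :
    ‖psF I h‖ ≤ C / (1 - r / ρ) * M := by
  have hρ0 : 0 < ρ := hr.trans_lt hρ
  have hq : r / ρ < 1 := by rwa [div_lt_one hρ0]
  have hq0 : 0 ≤ r / ρ := by positivity
  rw [psF_apply I h (Nat.lt_succ_self _)]
  calc ‖∑ m ∈ Finset.range (h.natDegree + 1), h.coeff m * I m‖
      ≤ ∑ m ∈ Finset.range (h.natDegree + 1), ‖h.coeff m * I m‖ := norm_sum_le _ _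
    _ ≤ ∑ m ∈ Finset.range (h.natDegree + 1), C * M * (r / ρ) ^ m := by
        refine Finset.sum_le_sum fun m _ => ?_
        rw [norm_mul]
        have h1 : ‖h.coeff m‖ * ρ ^ m ≤ M := cauchy_coeff h m hρ0 (fun z hz => hM z hz.le)
        have h2 : ‖h.coeff m‖ ≤ M / ρ ^ m := by rwa [le_div_iff₀ (by positivity)]
        calc ‖h.coeff m‖ * ‖I m‖ ≤ (M / ρ ^ m) * (C * r ^ m) :=
              mul_le_mul h2 (hI m) (norm_nonneg _) (by positivity)
          _ = C * M * (r / ρ) ^ m := by rw [div_pow]; ring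
    _ = C * M * ∑ m ∈ Finset.range (h.natDegree + 1), (r / ρ) ^ m := by rw [Finset.mul_sum]
    _ ≤ C * M * (1 - r / ρ)⁻¹ := by
        refine mul_le_mul_of_nonneg_left ?_ (by positivity)
        rw [← tsum_geometric_of_lt_one hq0 hq]
        exact (summable_geometric_of_lt_one hq0 hq).sum_le_tsum _ (fun _ _ => by positivity)
    _ = C / (1 - r / ρ) * M := by ring

namespace Ray

variable (R : Ray)

theorem hasVal_psF {I : ℕ → ℂ} {C : ℝ} (hC : 0 ≤ C) (hI : ∀ m, ‖I m‖ ≤ C * ‖R.a‖ ^ m) {x : ℝ}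
    (hx : 0 < x) : R.HasVal (psF I) x (∑' m, (R.W x)⁻¹ ^ (m + 1) * I m) := by
  set w : ℂ := R.W x with hw
  have hwn : ‖w‖ = ‖R.a‖ * Real.exp x := R.norm_W x
  have haw : ‖R.a‖ < ‖w‖ := by
    rw [hwn]
    have := Real.add_one_lt_exp hx.ne'
    nlinarith [R.norm_a_pos]
  obtain ⟨ρ, hρ1, hρ2⟩ := exists_between haw
  have hρ0 : 0 < ρ := R.norm_a_pos.trans hρ1
  have hw0 : 0 < ‖w‖ := R.norm_a_pos.trans haw
  have hwne : w ≠ 0 := norm_pos_iff.mp hw0
  set K : Set ℂ := Metric.closedBall 0 ρ with hK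
  have hKc : IsCompact K := isCompact_closedBall _ _
  have hKL : Disjoint K (R.Lam x) := by
    rw [Set.disjoint_left]
    rintro z hz ⟨y, hy, rfl⟩
    rw [hK, Metric.mem_closedBall, dist_zero_right, R.norm_W] at hz
    have h1 : Real.exp x ≤ Real.exp y := Real.exp_le_exp.mpr hy
    have h2 : ‖R.a‖ * Real.exp x ≤ ‖R.a‖ * Real.exp y :=
      mul_le_mul_of_nonneg_left h1 R.norm_a_pos.le
    rw [hwn] at hρ2
    linarith
  set C' : ℝ := C / (1 - ‖R.a‖ / ρ) with hC'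
  have hq : ‖R.a‖ / ρ < 1 := by rwa [div_lt_one hρ0]
  have hC'0 : 0 ≤ C' := div_nonneg hC (by linarith)
  have hb : ∀ (h : ℂ[X]) (M : ℝ), 0 ≤ M → (∀ z ∈ K, ‖h.eval z‖ ≤ M) → ‖psF I h‖ ≤ C' * M := by
    intro h M hM0 hM
    exact psF_bdd hC R.norm_a_pos.le hρ1 hI h M hM0
      (fun z hz => hM z (by rw [hK, Metric.mem_closedBall, dist_zero_right]; exact hz))
  set G : ℕ → ℂ[X] := fun N => ∑ m ∈ Finset.range N, monomial m (w⁻¹ ^ (m + 1)) with hG
  have hGI : ∀ N, psF I (G N) = ∑ m ∈ Finset.range N, w⁻¹ ^ (m + 1) * I m := by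
    intro N
    rw [hG]
    simp only [map_sum]
    refine Finset.sum_congr rfl fun m _ => ?_
    rw [psF_apply', sum_monomial_index _ _ (by simp)]
  have hsum : Summable (fun m => w⁻¹ ^ (m + 1) * I m) := by
    refine Summable.of_norm_bounded (g := fun m => (C / ‖w‖) * (‖R.a‖ / ‖w‖) ^ m) ?_ ?_
    · refine Summable.mul_left _ (summable_geometric_of_lt_one (by positivity) ?_)
      rwa [div_lt_one hw0]
    · intro m
      rw [norm_mul, norm_pow, norm_inv]
      calc ‖w‖⁻¹ ^ (m + 1) * ‖I m‖ ≤ ‖w‖⁻¹ ^ (m + 1) * (C * ‖R.a‖ ^ m) :=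
            mul_le_mul_of_nonneg_left (hI m) (by positivity)
        _ = (C / ‖w‖) * (‖R.a‖ / ‖w‖) ^ m := by
            rw [div_pow, pow_succ, inv_pow]
            field_simp
  have hlim : Tendsto (fun N => psF I (G N)) atTop (𝓝 (∑' m, w⁻¹ ^ (m + 1) * I m)) := by
    simp_rw [hGI]
    exact hsum.hasSum.tendsto_sum_nat
  have hGK : ∀ N, ∀ z ∈ K, ‖(G N).eval z - (w - z)⁻¹‖ ≤ (ρ / ‖w‖) ^ N * (‖w‖ - ρ)⁻¹ := by
    intro N z hz
    rw [hK, Metric.mem_closedBall, dist_zero_right] at hz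
    have hne : w - z ≠ 0 := by
      intro h0
      rw [sub_eq_zero] at h0
      rw [h0] at hρ2
      linarith
    have e1 : (G N).eval z = (w - z)⁻¹ * (1 - (z / w) ^ N) := by
      have e2 : (G N).eval z = w⁻¹ * ∑ m ∈ Finset.range N, (z / w) ^ m := by
        rw [hG]
        simp only [eval_finsetSum, eval_monomial]
        rw [Finset.mul_sum]
        refine Finset.sum_congr rfl fun m _ => ?_
        rw [div_pow, pow_succ, inv_pow]
        field_simp
      have hzw : z / w ≠ 1 := by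
        intro h1
        rw [div_eq_one_iff_eq hwne] at h1
        exact hne (by rw [h1, sub_self])
      rw [e2, geom_sum_eq hzw]
      have h3 : z / w - 1 ≠ 0 := sub_ne_zero.mpr hzw
      have h4 : z - w ≠ 0 := by
        intro h5; exact hne (by rw [← neg_sub, h5, neg_zero])
      field_simp
      ring
    rw [e1]
    have e3 : (w - z)⁻¹ * (1 - (z / w) ^ N) - (w - z)⁻¹ = -((z / w) ^ N * (w - z)⁻¹) := by ring
    rw [e3, norm_neg, norm_mul, norm_pow, norm_div, norm_inv]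
    refine mul_le_mul ?_ ?_ (by positivity) (by positivity)
    · exact pow_le_pow_left₀ (by positivity) (div_le_div_of_nonneg_right hz hw0.le) N
    · refine inv_anti₀ (by linarith) ?_
      have := norm_sub_norm_le w z
      linarith
  have hG0 : Tendsto (fun N : ℕ => (ρ / ‖w‖) ^ N * (‖w‖ - ρ)⁻¹) atTop (𝓝 0) := by
    have : Tendsto (fun N : ℕ => (ρ / ‖w‖) ^ N) atTop (𝓝 0) :=
      tendsto_pow_atTop_nhds_zero_of_lt_one (by positivity) (by rwa [div_lt_one hw0])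
    simpa using this.mul_const ((‖w‖ - ρ)⁻¹)
  show Tendsto (fun n => psF I (R.apx x n)) atTop (𝓝 (∑' m, w⁻¹ ^ (m + 1) * I m))
  rw [Metric.tendsto_atTop']
  intro ε hε
  obtain ⟨N, hN⟩ := eventually_atTop.mp (R.apx_spec x hKc hKL
      (δ := ε / (2 * (C' + 1))) (by positivity))
  refine ⟨N, fun n hn => ?_⟩
  rw [dist_eq_norm]
  have h6 : ∀ L : ℕ, ‖psF I (R.apx x n) - psF I (G L)‖
      ≤ C' * (ε / (2 * (C' + 1)) + (ρ / ‖w‖) ^ L * (‖w‖ - ρ)⁻¹) := by
    intro L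
    rw [← map_sub]
    refine hb _ _ ?_ ?_
    · have : 0 ≤ (‖w‖ - ρ)⁻¹ := inv_nonneg.mpr (by linarith)
      positivity
    · intro z hz
      rw [eval_sub]
      calc ‖(R.apx x n).eval z - (G L).eval z‖
          = ‖((R.apx x n).eval z - (w - z)⁻¹) - ((G L).eval z - (w - z)⁻¹)‖ := by
            congr 1; ring
        _ ≤ _ := norm_sub_le _ _
        _ ≤ _ := add_le_add (hN n hn.le z hz) (hGK L z hz)
  have h7 : ‖psF I (R.apx x n) - ∑' m, w⁻¹ ^ (m + 1) * I m‖ ≤ C' * (ε / (2 * (C' + 1)) + 0) :=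
    le_of_tendsto_of_tendsto' ((tendsto_const_nhds.sub hlim).norm)
      ((tendsto_const_nhds.add hG0).const_mul C') h6
  refine lt_of_le_of_lt h7 ?_
  have h4 : C' / (C' + 1) ≤ 1 := by
    rw [div_le_one (by positivity)]; linarith
  have : C' * (ε / (2 * (C' + 1)) + 0) = ε * (C' / (C' + 1)) / 2 := by
    field_simp; ring
  rw [this]
  nlinarith

end Ray

end Pool.Agent.MP_410f3c_al.V
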