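import Mathlib

/-!
# Primitives of polynomials and the Beta integral
-/

set_option autoImplicit false

open Polynomial MeasureTheory

namespace Pool.Agent.MP_410f3c_al.V

/-- A primitive of a polynomial. -/
noncomputable def prim (q : ℂ[X]) : ℂ[X] := q.sum fun n c => monomial (n + 1) (c / (n + 1))

theorem derivative_prim (q : ℂ[X]) : derivative (prim q) = q := by
  unfold prim
  rw [Polynomial.sum_def, map_sum]
  conv_rhs => rw [q.as_sum_support]
  refine Finset.sum_congr rfl fun n _ => ?_
  rw [derivative_monomial, Nat.add_sub_cancel]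
  congr 1
  push_cast
  have : (n : ℂ) + 1 ≠ 0 := Nat.cast_add_one_ne_zero n
  field_simp

/-- The integral of a polynomial over the unit interval. -/
noncomputable def II (q : ℂ[X]) : ℂ := (prim q).eval 1 - (prim q).eval 0

theorem II_eq {q Q : ℂ[X]} (h : derivative Q = q) : II q = Q.eval 1 - Q.eval 0 := by
  have h1 : derivative (prim q - Q) = 0 := by
    rw [derivative_sub, derivative_prim, h, sub_self]
  have h2 := eq_C_of_natDegree_eq_zero (Polynomial.derivative_eq_zero.mp h1)
  have h3 : (prim q - Q).eval 1 = (prim q - Q).eval 0 := by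
    rw [h2, eval_C, eval_C]
  rw [eval_sub, eval_sub] at h3
  unfold II
  linear_combination h3

theorem II_add (q r : ℂ[X]) : II (q + r) = II q + II r := by
  rw [II_eq (Q := prim q + prim r) (by rw [derivative_add, derivative_prim, derivative_prim])]
  unfold II
  rw [eval_add, eval_add]
  ring

theorem II_C_mul (c : ℂ) (q : ℂ[X]) : II (C c * q) = c * II q := by
  rw [II_eq (Q := C c * prim q) (by rw [derivative_C_mul, derivative_prim])]
  unfold II
  rw [eval_mul, eval_mul, eval_C, eval_C]
  ring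

theorem II_zero : II 0 = 0 := by
  rw [II_eq (Q := 0) (by simp)]
  simp

theorem II_sum {ι : Type*} (s : Finset ι) (q : ι → ℂ[X]) :
    II (∑ u ∈ s, q u) = ∑ u ∈ s, II (q u) := by
  classical
  induction s using Finset.induction_on with
  | empty => simp [II_zero]
  | insert a s ha ih => rw [Finset.sum_insert ha, Finset.sum_insert ha, II_add, ih]

theorem II_beta (a b : ℕ) :
    II (X ^ a * (1 - X) ^ b) = (a.factorial * b.factorial : ℂ) / (a + b + 1).factorial := by
  induction b generalizing a with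
  | zero =>
    have h1 : (a : ℂ) + 1 ≠ 0 := Nat.cast_add_one_ne_zero a
    rw [II_eq (Q := C (1 / ((a : ℂ) + 1)) * X ^ (a + 1))]
    · simp only [eval_mul, eval_C, eval_pow, eval_X, one_pow, Nat.factorial_zero, Nat.cast_one,
        add_zero, Nat.factorial_succ, Nat.cast_mul]
      rw [zero_pow (Nat.succ_ne_zero a)]
      have h2 : (a.factorial : ℂ) ≠ 0 := Nat.cast_ne_zero.mpr (Nat.factorial_ne_zero a)
      push_cast
      field_simp
      ring
    · rw [derivative_C_mul, derivative_X_pow, pow_zero, mul_one, ← mul_assoc, Nat.add_sub_cancel]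
      have : C (1 / ((a : ℂ) + 1)) * C ((a + 1 : ℕ) : ℂ) = 1 := by
        rw [← C_mul]
        push_cast
        rw [one_div_mul_cancel h1, C_1]
      rw [this, one_mul]
  | succ b ih =>
    have h1 : (a : ℂ) + 1 ≠ 0 := Nat.cast_add_one_ne_zero a
    have h2 : II (C ((a : ℂ) + 1) * (X ^ a * (1 - X) ^ (b + 1)) +
        C (-((b : ℂ) + 1)) * (X ^ (a + 1) * (1 - X) ^ b)) = 0 := by
      rw [II_eq (Q := X ^ (a + 1) * (1 - X) ^ (b + 1))]
      · simp only [eval_mul, eval_pow, eval_X, eval_sub, eval_one]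
        rw [sub_self, zero_pow (Nat.succ_ne_zero a), zero_pow (Nat.succ_ne_zero b)]
        ring
      · rw [derivative_mul, derivative_X_pow, derivative_pow, derivative_sub, derivative_one,
          derivative_X, Nat.add_sub_cancel, Nat.add_sub_cancel]
        simp only [map_neg, map_add, C_1, map_natCast, Nat.cast_add, Nat.cast_one]
        ring
    rw [II_add, II_C_mul, II_C_mul, ih] at h2
    have h3 : II (X ^ a * (1 - X) ^ (b + 1)) = ((b : ℂ) + 1) / ((a : ℂ) + 1) *
        (((a + 1).factorial * b.factorial : ℂ) / (a + 1 + b + 1).factorial) := by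
      field_simp
      linear_combination h2
    rw [h3]
    have e1 : a + 1 + b + 1 = a + (b + 1) + 1 := by ring
    rw [e1, Nat.factorial_succ a, Nat.factorial_succ b]
    push_cast
    field_simp

/-- The integral along the spiral. -/
theorem II_eq_integral {κ : ℂ} (hκ : κ.re = 1) (q : ℂ[X]) :
    II q = ∫ x in (0 : ℝ)..1, κ * (x : ℂ) ^ (κ - 1) * q.eval ((x : ℂ) ^ κ) := by
  have hκ0 : κ ≠ 0 := by rintro rfl; simp at hκ
  have hc : Continuous fun x : ℝ => (x : ℂ) ^ κ :=
    Complex.continuous_ofReal_cpow_const (by rw [hκ]; exact one_pos)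
  have h := intervalIntegral.integral_eq_sub_of_hasDerivAt_of_le (a := (0 : ℝ)) (b := 1)
    (f := fun x : ℝ => (prim q).eval ((x : ℂ) ^ κ))
    (f' := fun x : ℝ => κ * (x : ℂ) ^ (κ - 1) * q.eval ((x : ℂ) ^ κ)) zero_le_one
    (((prim q).continuous.comp hc).continuousOn) ?_ ?_
  · rw [h]
    unfold II
    simp [Complex.zero_cpow hκ0]
  · intro x hx
    have h1 : HasDerivAt (fun y : ℝ => (y : ℂ) ^ κ) (κ * (x : ℂ) ^ (κ - 1)) x :=
      hasDerivAt_ofReal_cpow_const hx.1.ne' hκ0
    have h2 := (prim q).hasDerivAt ((x : ℂ) ^ κ)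
    rw [derivative_prim] at h2
    have h3 := HasDerivAt.scomp_of_eq x h2 h1 rfl
    simpa [Function.comp_def, smul_eq_mul] using h3
  · refine IntervalIntegrable.mul_continuousOn ?_ ((q.continuous.comp hc).continuousOn)
    refine IntervalIntegrable.const_mul ?_ κ
    refine intervalIntegral.intervalIntegrable_cpow' ?_
    rw [Complex.sub_re, hκ, Complex.one_re]
    norm_num

theorem II_bound {κ : ℂ} (hκ : κ.re = 1) (q : ℂ[X]) (M : ℝ)
    (h : ∀ x : ℝ, 0 < x → x ≤ 1 → ‖q.eval ((x : ℂ) ^ κ)‖ ≤ M) : ‖II q‖ ≤ ‖κ‖ * M := by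
  rw [II_eq_integral hκ]
  have := intervalIntegral.norm_integral_le_of_norm_le_const (a := (0 : ℝ)) (b := 1)
    (f := fun x : ℝ => κ * (x : ℂ) ^ (κ - 1) * q.eval ((x : ℂ) ^ κ)) (C := ‖κ‖ * M) ?_
  · simpa using this
  · intro x hx
    rw [Set.uIoc_of_le zero_le_one] at hx
    rw [norm_mul, norm_mul, Complex.norm_cpow_eq_rpow_re_of_pos hx.1]
    rw [Complex.sub_re, hκ, Complex.one_re, sub_self, Real.rpow_zero, mul_one]
    exact mul_le_mul_of_nonneg_left (h x hx.1 hx.2) (norm_nonneg _)

end Pool.Agent.MP_410f3c_al.V
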