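import Pool.Agent.MP_410f3c_al.V.Shift

/-!
# The model integrals
-/

set_option autoImplicit false

open Polynomial Filter Topology Asymptotics

namespace Pool.Agent.MP_410f3c_al.V

/-- The model integrals. -/
noncomputable def psi (r₁ : ℝ) (j k : ℕ) : ℝ → ℂ :=
  fun x => ((∫ r in (0 : ℝ)..r₁, r ^ j / (x + r ^ k) : ℝ) : ℂ)

theorem psi_contOn {x : ℝ} (hx : 0 < x) (j k : ℕ) {a b : ℝ} (ha : 0 ≤ a) (hb : 0 ≤ b) :
    IntervalIntegrable (fun r : ℝ => r ^ j / (x + r ^ k)) MeasureTheory.volume a b := by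
  refine ContinuousOn.intervalIntegrable ?_
  refine ContinuousOn.div (by fun_prop) (by fun_prop) ?_
  intro r hr
  have hr0 : 0 ≤ r := le_trans (le_min ha hb) hr.1
  positivity

theorem psi_tame {r₁ : ℝ} (hr : 0 < r₁) {j k : ℕ} (hjk : j + 1 < k) : Tame (psi r₁ j k) := by
  obtain ⟨l, hl0, hl1, hlk⟩ : ∃ l : ℝ, 0 < l ∧ l < 1 ∧ l ^ k = 1 / 2 := by
    refine ⟨(1 / 2 : ℝ) ^ ((1 : ℝ) / k), by positivity, ?_, ?_⟩
    · refine Real.rpow_lt_one (by norm_num) (by norm_num) ?_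
      have : (0 : ℝ) < k := by exact_mod_cast (by omega : 0 < k)
      positivity
    · rw [← Real.rpow_natCast, ← Real.rpow_mul (by norm_num)]
      have : ((1 : ℝ) / k) * (k : ℝ) = 1 := by
        have : (k : ℝ) ≠ 0 := by exact_mod_cast (by omega : k ≠ 0)
        field_simp
      rw [this, Real.rpow_one]
  have hq1 : l ^ (k - 1 - j) < 1 := pow_lt_one₀ hl0.le hl1 (by omega)
  have hqk : l ^ (k - 1 - j) * (2 * l ^ (j + 1)) = 1 := by
    have : l ^ (k - 1 - j) * l ^ (j + 1) = l ^ k := by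
      rw [← pow_add]; congr 1; omega
    calc l ^ (k - 1 - j) * (2 * l ^ (j + 1)) = 2 * (l ^ (k - 1 - j) * l ^ (j + 1)) := by ring
      _ = 1 := by rw [this, hlk]; norm_num
  refine ⟨1 - C ((l ^ (k - 1 - j) : ℝ) : ℂ) * X, ?_, ?_⟩
  · rw [eval_sub, eval_mul, eval_C, eval_X, eval_one, mul_one]
    intro h
    have : ((1 - l ^ (k - 1 - j) : ℝ) : ℂ) = 0 := by rw [← h]; push_cast; ring
    rw [Complex.ofReal_eq_zero] at this
    linarith
  · refine IsBigO.of_bound ((r₁ / l) ^ j / r₁ ^ k * |r₁ / l - r₁|) ?_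
    filter_upwards [self_mem_nhdsWithin] with x hx
    have hx : (0 : ℝ) < x := hx
    have hrl : r₁ ≤ r₁ / l := by
      rw [le_div_iff₀ hl0]; nlinarith
    have e1 : (aeval S (1 - C ((l ^ (k - 1 - j) : ℝ) : ℂ) * X)) (psi r₁ j k) x
        = psi r₁ j k x - ((l ^ (k - 1 - j) : ℝ) : ℂ) * psi r₁ j k (x / 2) := by
      rw [map_sub, map_one, map_mul, aeval_C, aeval_X, LinearMap.sub_apply, Pi.sub_apply,
        Module.End.one_apply, Module.End.mul_apply, Module.algebraMap_end_apply]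
      rfl
    have e2 : ∫ r in (0 : ℝ)..r₁, r ^ j / (x / 2 + r ^ k)
        = 2 * l ^ (j + 1) * ∫ r in (0 : ℝ)..(r₁ / l), r ^ j / (x + r ^ k) := by
      have h1 := intervalIntegral.integral_comp_mul_left (a := 0) (b := r₁ / l)
        (fun r : ℝ => r ^ j / (x / 2 + r ^ k)) hl0.ne'
      have h2 : l * (r₁ / l) = r₁ := by field_simp
      rw [mul_zero, h2, smul_eq_mul] at h1
      have h3 : ∫ r in (0 : ℝ)..r₁, r ^ j / (x / 2 + r ^ k)
          = l * ∫ r in (0 : ℝ)..(r₁ / l), (l * r) ^ j / (x / 2 + (l * r) ^ k) := by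
        rw [h1, ← mul_assoc, mul_inv_cancel₀ hl0.ne', one_mul]
      rw [h3, ← intervalIntegral.integral_const_mul, ← intervalIntegral.integral_const_mul]
      refine intervalIntegral.integral_congr ?_
      intro r _
      show l * ((l * r) ^ j / (x / 2 + (l * r) ^ k)) = 2 * l ^ (j + 1) * (r ^ j / (x + r ^ k))
      rw [mul_pow l r k, hlk, mul_pow, pow_succ]
      have : x / 2 + 1 / 2 * r ^ k = (x + r ^ k) / 2 := by ring
      rw [this, div_div_eq_mul_div]
      ring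
    have e3 : psi r₁ j k x - ((l ^ (k - 1 - j) : ℝ) : ℂ) * psi r₁ j k (x / 2)
        = ((-(∫ r in (r₁ : ℝ)..(r₁ / l), r ^ j / (x + r ^ k)) : ℝ) : ℂ) := by
      unfold psi
      rw [e2, ← Complex.ofReal_mul, ← Complex.ofReal_sub]
      congr 1
      have h1 := intervalIntegral.integral_add_adjacent_intervals
        (psi_contOn hx j k le_rfl hr.le) (psi_contOn hx j k hr.le (hr.le.trans hrl))
      rw [← h1]
      have h2 : l ^ (k - 1 - j) * (2 * l ^ (j + 1) * ((∫ r in (0 : ℝ)..r₁, r ^ j / (x + r ^ k)) +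
          ∫ r in (r₁ : ℝ)..(r₁ / l), r ^ j / (x + r ^ k)))
          = (∫ r in (0 : ℝ)..r₁, r ^ j / (x + r ^ k)) +
          ∫ r in (r₁ : ℝ)..(r₁ / l), r ^ j / (x + r ^ k) := by
        rw [← mul_assoc, hqk, one_mul]
      rw [h2]
      ring
    rw [e1, e3, Complex.norm_real, norm_neg, norm_one, mul_one]
    refine intervalIntegral.norm_integral_le_of_norm_le_const ?_
    intro r hr'
    rw [Set.uIoc_of_le hrl] at hr'
    have hr0 : 0 < r := hr.trans hr'.1
    rw [Real.norm_of_nonneg (by positivity)]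
    have h1 : r ^ j ≤ (r₁ / l) ^ j := pow_le_pow_left₀ hr0.le hr'.2 j
    have h2 : r₁ ^ k ≤ x + r ^ k := by
      have := pow_le_pow_left₀ hr.le hr'.1.le k
      linarith
    exact div_le_div₀ (by positivity) h1 (by positivity) h2

theorem psi_log {r₁ : ℝ} (hr : 0 < r₁) {k : ℕ} (hk : 0 < k) :
    Bd (psi r₁ (k - 1) k - ((1 / k : ℝ) : ℂ) • lg) := by
  have hk' : (k : ℝ) ≠ 0 := by exact_mod_cast hk.ne'
  have h1 : (psi r₁ (k - 1) k - ((1 / k : ℝ) : ℂ) • lg)
      =ᶠ[𝓝[>] (0 : ℝ)] fun x => ((1 / k * Real.log (x + r₁ ^ k) : ℝ) : ℂ) := by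
    filter_upwards [self_mem_nhdsWithin] with x hx
    have hx : (0 : ℝ) < x := hx
    have h2 : ∫ r in (0 : ℝ)..r₁, r ^ (k - 1) / (x + r ^ k)
        = 1 / k * Real.log (x + r₁ ^ k) - 1 / k * Real.log (x + 0 ^ k) := by
      refine intervalIntegral.integral_eq_sub_of_hasDerivAt
        (f := fun r => 1 / k * Real.log (x + r ^ k)) ?_ (psi_contOn hx _ _ le_rfl hr.le)
      intro r hr'
      rw [Set.uIcc_of_le hr.le] at hr'
      have hr0 : 0 ≤ r := hr'.1
      have hpos : x + r ^ k ≠ 0 := by positivity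
      have h3 : HasDerivAt (fun r : ℝ => x + r ^ k) (k * r ^ (k - 1)) r := by
        simpa using (hasDerivAt_pow k r).const_add x
      have h4 := (h3.log hpos).const_mul (1 / (k : ℝ))
      have h5 : (1 : ℝ) / k * (k * r ^ (k - 1) / (x + r ^ k)) = r ^ (k - 1) / (x + r ^ k) := by
        rw [div_mul_div_comm, one_mul, mul_div_mul_left _ _ hk']
      rw [h5] at h4
      exact h4
    rw [Pi.sub_apply, Pi.smul_apply, smul_eq_mul]
    unfold psi lg
    rw [h2, ← Complex.ofReal_mul, ← Complex.ofReal_sub]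
    congr 1
    rw [zero_pow hk.ne', add_zero]
    ring
  unfold Bd
  refine h1.trans_isBigO ?_
  have h5 : Tendsto (fun x : ℝ => ((1 / k * Real.log (x + r₁ ^ k) : ℝ) : ℂ)) (𝓝[>] (0 : ℝ))
      (𝓝 ((1 / k * Real.log (0 + r₁ ^ k) : ℝ) : ℂ)) := by
    refine (Complex.continuous_ofReal.tendsto _).comp ?_
    refine Tendsto.const_mul _ ?_
    have : ContinuousAt (fun x : ℝ => Real.log (x + r₁ ^ k)) 0 := by
      refine ContinuousAt.log (by fun_prop) ?_
      have : (0 : ℝ) + r₁ ^ k > 0 := by positivity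
      exact this.ne'
    exact this.tendsto.mono_left nhdsWithin_le_nhds
  exact h5.isBigO_one ℝ

end Pool.Agent.MP_410f3c_al.V
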