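import Pool.Agent.MP_410f3c_al.V.Prim

/-!
# The polynomials attached to the problem
-/

set_option autoImplicit false

open Polynomial

namespace Pool.Agent.MP_410f3c_al.V

variable {σ : Type} [Fintype σ] [DecidableEq σ]

theorem prod_split {R : Type*} [CommMonoid R] {i j : σ} (hij : i ≠ j) (φ : σ → R) :
    ∏ k, φ k = φ i * (φ j * ∏ k ∈ (Finset.univ.erase i).erase j, φ k) := by
  rw [← Finset.mul_prod_erase Finset.univ φ (Finset.mem_univ i),
    ← Finset.mul_prod_erase (Finset.univ.erase i) φ (a := j)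
      (Finset.mem_erase.mpr ⟨hij.symm, Finset.mem_univ j⟩)]

theorem sum_split {R : Type*} [AddCommMonoid R] {i j : σ} (hij : i ≠ j) (φ : σ → R) :
    ∑ k, φ k = φ i + (φ j + ∑ k ∈ (Finset.univ.erase i).erase j, φ k) := by
  rw [← Finset.add_sum_erase Finset.univ φ (Finset.mem_univ i),
    ← Finset.add_sum_erase (Finset.univ.erase i) φ (a := j)
      (Finset.mem_erase.mpr ⟨hij.symm, Finset.mem_univ j⟩)]

/-- The product of the factorials of the other exponents. -/
noncomputable def rf (i j : σ) (s : σ →₀ ℕ) : ℂ :=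
  ∏ k ∈ (Finset.univ.erase i).erase j, ((s k).factorial : ℂ)

/-- The density. -/
noncomputable def JJ (i j : σ) (N : ℕ) (h : MvPolynomial σ ℂ) : ℂ[X] :=
  ∑ s ∈ h.support, C (h.coeff s * ((s i + s j + 1).factorial : ℂ) * rf i j s /
    ((N + 1).factorial : ℂ)) * (X ^ s i * (1 - X) ^ s j)

/-- The factorial functional. -/
noncomputable def LL (h : MvPolynomial σ ℂ) : ℂ :=
  ∑ s ∈ h.support, h.coeff s * ∏ k, ((s k).factorial : ℂ)

theorem II_JJ {i j : σ} (hij : i ≠ j) (N : ℕ) (h : MvPolynomial σ ℂ) :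
    II (JJ i j N h) = LL h / ((N + 1).factorial : ℂ) := by
  unfold JJ LL
  rw [II_sum, Finset.sum_div]
  refine Finset.sum_congr rfl fun s _ => ?_
  rw [II_C_mul, II_beta, prod_split hij]
  unfold rf
  have h1 : ((s i + s j + 1).factorial : ℂ) ≠ 0 := Nat.cast_ne_zero.mpr (Nat.factorial_ne_zero _)
  field_simp

theorem JJ_eval (i j : σ) (N : ℕ) (h : MvPolynomial σ ℂ) (t : ℂ) :
    (JJ i j N h).eval t = ∑ s ∈ h.support, h.coeff s * (t ^ s i * (1 - t) ^ s j) *
      (((s i + s j + 1).factorial : ℂ) * rf i j s / ((N + 1).factorial : ℂ)) := by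
  unfold JJ
  rw [eval_finsetSum]
  refine Finset.sum_congr rfl fun s _ => ?_
  simp only [eval_mul, eval_C, eval_pow, eval_X, eval_sub, eval_one]
  ring

/-- The leading form. -/
noncomputable def FF (i j : σ) (d : ℕ) (c : ℕ → ℂ) : MvPolynomial σ ℂ :=
  ∑ k ∈ Finset.range (d + 1), MvPolynomial.C (c k) * MvPolynomial.X i ^ k *
    MvPolynomial.X j ^ (d - k)

/-- The restriction of the leading form to the line. -/
noncomputable def pp (d : ℕ) (c : ℕ → ℂ) : ℂ[X] :=
  ∑ k ∈ Finset.range (d + 1), C (c k) * X ^ k * (1 - X) ^ (d - k)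

theorem pp_eval (d : ℕ) (c : ℕ → ℂ) (t : ℂ) :
    (pp d c).eval t = ∑ k ∈ Finset.range (d + 1), c k * t ^ k * (1 - t) ^ (d - k) := by
  unfold pp
  rw [eval_finsetSum]
  simp

omit [Fintype σ] [DecidableEq σ] in
theorem FF_eval (i j : σ) (d : ℕ) (c : ℕ → ℂ) (V : σ → ℂ) :
    MvPolynomial.eval V (FF i j d c) = ∑ k ∈ Finset.range (d + 1), c k * V i ^ k * V j ^ (d - k) := by
  unfold FF
  simp

theorem FF_eval' (i j : σ) (d : ℕ) (c : ℕ → ℂ) (V : σ → ℂ) {t x : ℂ} (hi : V i = t * x)
    (hj : V j = (1 - t) * x) :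
    MvPolynomial.eval V (FF i j d c) = (pp d c).eval t * x ^ d := by
  rw [FF_eval, pp_eval, Finset.sum_mul]
  refine Finset.sum_congr rfl fun k hk => ?_
  have hk' : k ≤ d := Nat.lt_succ_iff.mp (Finset.mem_range.mp hk)
  rw [hi, hj, mul_pow, mul_pow]
  have : x ^ d = x ^ k * x ^ (d - k) := by rw [← pow_add, Nat.add_sub_cancel' hk']
  rw [this]
  ring

/-- The good exponents. -/
def Good (i j : σ) (N : ℕ) (s : σ →₀ ℕ) : Prop :=
  (s i + s j = N ∧ ∀ k ∈ (Finset.univ.erase i).erase j, s k = 0) ∨ ∑ k, s k < N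

theorem Good.add {i j : σ} (hij : i ≠ j) {N N' : ℕ} {s s' : σ →₀ ℕ} (h : Good i j N s)
    (h' : Good i j N' s') : Good i j (N + N') (s + s') := by
  have h1 : ∀ {N : ℕ} {s : σ →₀ ℕ}, Good i j N s → ∑ k, s k ≤ N := by
    intro N s h
    rcases h with ⟨h1, h2⟩ | h
    · rw [sum_split hij, Finset.sum_eq_zero h2]; omega
    · exact h.le
  have hs : ∑ k, (s + s') k = ∑ k, s k + ∑ k, s' k := by
    simp_rw [Finsupp.add_apply]
    exact Finset.sum_add_distrib
  rcases h with ⟨a1, a2⟩ | a
  · rcases h' with ⟨b1, b2⟩ | b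
    · left
      refine ⟨?_, fun k hk => ?_⟩
      · rw [Finsupp.add_apply, Finsupp.add_apply]; omega
      · rw [Finsupp.add_apply, a2 k hk, b2 k hk]
    · right
      have := h1 (Or.inl ⟨a1, a2⟩ : Good i j N s)
      omega
  · right
    have := h1 h'
    omega

/-- The data of the problem. -/
structure Dat (σ : Type) [Fintype σ] [DecidableEq σ] where
  i : σ
  j : σ
  hij : i ≠ j
  d : ℕ
  hd : 0 < d
  c : ℕ → ℂ
  g : MvPolynomial σ ℂ
  hg : g.totalDegree < d

namespace Dat

variable (D : Dat σ)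

/-- The polynomial. -/
noncomputable def f : MvPolynomial σ ℂ := FF D.i D.j D.d D.c + D.g

/-- The restriction of the leading form to the line. -/
noncomputable def p : ℂ[X] := pp D.d D.c

theorem g_deg {s : σ →₀ ℕ} (hs : s ∈ D.g.support) : ∑ k, s k < D.d := by
  have h1 := MvPolynomial.le_totalDegree hs
  rw [Finsupp.sum_fintype _ _ (fun _ => rfl)] at h1
  exact h1.trans_lt D.hg

theorem good_f {s : σ →₀ ℕ} (hs : s ∈ D.f.support) : Good D.i D.j D.d s := by
  classical
  unfold f at hs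
  rcases Finset.mem_union.mp (MvPolynomial.support_add hs) with h | h
  · left
    unfold FF at h
    have h1 := MvPolynomial.support_sum h
    rw [Finset.mem_biUnion] at h1
    obtain ⟨k, hk, hk2⟩ := h1
    have hk' : k ≤ D.d := Nat.lt_succ_iff.mp (Finset.mem_range.mp hk)
    have h2 : (MvPolynomial.C (D.c k) * MvPolynomial.X D.i ^ k * MvPolynomial.X D.j ^ (D.d - k) :
        MvPolynomial σ ℂ) = MvPolynomial.monomial (Finsupp.single D.i k +
          Finsupp.single D.j (D.d - k)) (D.c k) := by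
      rw [MvPolynomial.X_pow_eq_monomial, MvPolynomial.X_pow_eq_monomial,
        MvPolynomial.C_mul_monomial, MvPolynomial.monomial_mul, mul_one, mul_one]
    rw [h2] at hk2
    have h3 := MvPolynomial.support_monomial_subset hk2
    rw [Finset.mem_singleton] at h3
    subst h3
    have hij := D.hij
    refine ⟨?_, ?_⟩
    · rw [Finsupp.add_apply, Finsupp.add_apply, Finsupp.single_eq_same, Finsupp.single_eq_same,
        Finsupp.single_eq_of_ne hij, Finsupp.single_eq_of_ne hij.symm]
      omega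
    · intro l hl
      have h4 : l ≠ D.j := Finset.ne_of_mem_erase hl
      have h5 : l ≠ D.i := Finset.ne_of_mem_erase (Finset.mem_of_mem_erase hl)
      rw [Finsupp.add_apply, Finsupp.single_eq_of_ne h5, Finsupp.single_eq_of_ne h4, add_zero]
  · right
    exact D.g_deg h

theorem good_pow (m : ℕ) {s : σ →₀ ℕ} (hs : s ∈ (D.f ^ m).support) :
    Good D.i D.j (D.d * m) s := by
  classical
  induction m generalizing s with
  | zero =>
    rw [pow_zero] at hs
    have h1 : s = 0 := by
      have := MvPolynomial.support_monomial_subset (s := (0 : σ →₀ ℕ)) (a := (1 : ℂ)) hs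
      simpa using this
    subst h1
    left
    simp
  | succ m ih =>
    rw [pow_succ] at hs
    have h1 := MvPolynomial.support_mul _ _ hs
    rw [Finset.mem_add] at h1
    obtain ⟨a, ha, b, hb, rfl⟩ := h1
    have := (ih ha).add D.hij (D.good_f hb)
    rw [Nat.mul_succ]
    exact this

/-- The substitution. -/
noncomputable def φ (t : ℂ) : MvPolynomial σ ℂ →ₐ[ℂ] ℂ[X] :=
  MvPolynomial.aeval fun k => if k = D.i then C t * X else if k = D.j then C (1 - t) * X else 0

theorem φ_monomial (t : ℂ) (s : σ →₀ ℕ) (a : ℂ) :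
    D.φ t (MvPolynomial.monomial s a) =
      if ∀ k ∈ (Finset.univ.erase D.i).erase D.j, s k = 0 then
        C (a * (t ^ s D.i * (1 - t) ^ s D.j)) * X ^ (s D.i + s D.j) else 0 := by
  unfold φ
  rw [MvPolynomial.aeval_monomial, Finsupp.prod_fintype _ _ (fun _ => pow_zero _),
    prod_split D.hij]
  rw [if_pos rfl, if_neg D.hij.symm, if_pos rfl]
  have h1 : ∏ k ∈ (Finset.univ.erase D.i).erase D.j,
      ((if k = D.i then C t * X else if k = D.j then C (1 - t) * X else 0 : ℂ[X]) ^ s k)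
      = if ∀ k ∈ (Finset.univ.erase D.i).erase D.j, s k = 0 then 1 else 0 := by
    split_ifs with h
    · refine Finset.prod_eq_one fun k hk => ?_
      rw [h k hk, pow_zero]
    · push Not at h
      obtain ⟨k, hk, hk0⟩ := h
      refine Finset.prod_eq_zero hk ?_
      have h4 : k ≠ D.j := Finset.ne_of_mem_erase hk
      have h5 : k ≠ D.i := Finset.ne_of_mem_erase (Finset.mem_of_mem_erase hk)
      rw [if_neg h5, if_neg h4, zero_pow hk0]
  rw [h1]
  split_ifs with h
  · rw [mul_pow, mul_pow, ← C_pow, ← C_pow, Polynomial.algebraMap_eq]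
    simp only [C_mul, C_pow]
    ring
  · simp

theorem φ_f (t : ℂ) : (D.φ t D.f).natDegree ≤ D.d ∧ (D.φ t D.f).coeff D.d = D.p.eval t := by
  have h1 : D.φ t (FF D.i D.j D.d D.c) = C (D.p.eval t) * X ^ D.d := by
    unfold FF φ
    rw [map_sum]
    simp only [map_mul, map_pow, MvPolynomial.aeval_X, MvPolynomial.aeval_C, if_true]
    rw [if_neg D.hij.symm]
    unfold p
    rw [pp_eval, map_sum, Finset.sum_mul]
    refine Finset.sum_congr rfl fun k hk => ?_
    have hk' : k ≤ D.d := Nat.lt_succ_iff.mp (Finset.mem_range.mp hk)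
    have : (X : ℂ[X]) ^ D.d = X ^ k * X ^ (D.d - k) := by rw [← pow_add, Nat.add_sub_cancel' hk']
    rw [this, Polynomial.algebraMap_eq]
    simp only [C_mul, C_pow]
    ring
  have h2 : (D.φ t D.g).natDegree < D.d := by
    rw [D.g.as_sum, map_sum]
    rw [← Nat.le_sub_one_iff_lt D.hd]
    refine natDegree_sum_le_of_forall_le _ _ fun s hs => ?_
    rw [φ_monomial]
    have h3 := D.g_deg hs
    rw [sum_split D.hij] at h3
    split_ifs
    · refine (natDegree_C_mul_X_pow_le _ _).trans ?_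
      omega
    · simp
  unfold f
  rw [map_add, h1]
  constructor
  · refine (natDegree_add_le _ _).trans (max_le (natDegree_C_mul_X_pow_le _ _) h2.le)
  · rw [coeff_add, coeff_C_mul_X_pow, if_pos rfl, coeff_eq_zero_of_natDegree_lt h2, add_zero]

/-- The sum of the leading terms. -/
theorem lead_sum (t : ℂ) (m : ℕ) :
    ∑ s ∈ (D.f ^ m).support.filter (fun s => s D.i + s D.j = D.d * m),
      (D.f ^ m).coeff s * (t ^ s D.i * (1 - t) ^ s D.j) = D.p.eval t ^ m := by
  have h1 : (D.φ t (D.f ^ m)).coeff (m * D.d) = D.p.eval t ^ m := by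
    rw [map_pow, coeff_pow_of_natDegree_le (D.φ_f t).1, (D.φ_f t).2]
  rw [← h1]
  conv_rhs => rw [(D.f ^ m).as_sum]
  rw [map_sum, finsetSum_coeff, Finset.sum_filter]
  refine Finset.sum_congr rfl fun s hs => ?_
  rw [φ_monomial]
  have hgood := D.good_pow m hs
  rw [mul_comm m D.d]
  split_ifs with h2 h3 h3
  · rw [coeff_C_mul_X_pow, if_pos h2.symm]
  · exfalso
    apply h3
    rcases hgood with ⟨_, h⟩ | h
    · exact h
    · rw [sum_split D.hij] at h
      omega
  · rw [coeff_C_mul_X_pow, if_neg (Ne.symm h2)]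
  · rw [coeff_zero]

end Dat

end Pool.Agent.MP_410f3c_al.V
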