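import Mathlib

/-!
# Functions bounded near `0+` up to fractional powers
-/

set_option autoImplicit false

open Polynomial Filter Topology Asymptotics

namespace Pool.Agent.MP_410f3c_al.V

/-- The halving operator. -/
noncomputable def S : Module.End ℂ (ℝ → ℂ) where
  toFun g := fun x => g (x / 2)
  map_add' _ _ := rfl
  map_smul' _ _ := rfl

theorem S_apply (g : ℝ → ℂ) (x : ℝ) : S g x = g (x / 2) := rfl

/-- Bounded near `0+`. -/
def Bd (g : ℝ → ℂ) : Prop := g =O[𝓝[>] (0 : ℝ)] (fun _ => (1 : ℝ))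

theorem Bd.add {g₁ g₂ : ℝ → ℂ} (h₁ : Bd g₁) (h₂ : Bd g₂) : Bd (g₁ + g₂) :=
  IsBigO.add h₁ h₂

theorem Bd.smul {g : ℝ → ℂ} (c : ℂ) (h : Bd g) : Bd (c • g) :=
  IsBigO.const_smul_left h c

theorem Bd.neg {g : ℝ → ℂ} (h : Bd g) : Bd (-g) :=
  IsBigO.neg_left h

theorem Bd.sub {g₁ g₂ : ℝ → ℂ} (h₁ : Bd g₁) (h₂ : Bd g₂) : Bd (g₁ - g₂) :=
  IsBigO.sub h₁ h₂

theorem Bd.S {g : ℝ → ℂ} (h : Bd g) : Bd (S g) := by
  have ht : Tendsto (fun x : ℝ => x / 2) (𝓝[>] (0 : ℝ)) (𝓝[>] (0 : ℝ)) := by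
    rw [tendsto_nhdsWithin_iff]
    refine ⟨?_, ?_⟩
    · have : Tendsto (fun x : ℝ => x / 2) (𝓝 (0 : ℝ)) (𝓝 (0 / 2)) :=
        (continuous_id.div_const 2).tendsto 0
      rw [zero_div] at this
      exact this.mono_left nhdsWithin_le_nhds
    · filter_upwards [self_mem_nhdsWithin] with x hx
      have : (0 : ℝ) < x := hx
      show (0 : ℝ) < x / 2
      positivity
  exact h.comp_tendsto ht

theorem Bd.aeval {g : ℝ → ℂ} (h : Bd g) (P : ℂ[X]) : Bd (aeval V.S P g) := by
  induction P using Polynomial.induction_on' generalizing g with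
  | add p q hp hq =>
    rw [map_add, LinearMap.add_apply]
    exact (hp h).add (hq h)
  | monomial n a =>
    rw [aeval_monomial]
    rw [Module.algebraMap_end_eq_smul_id, smul_mul_assoc, LinearMap.smul_apply]
    refine Bd.smul a ?_
    rw [← Module.End.one_eq_id, one_mul]
    induction n with
    | zero => simpa using h
    | succ n ih =>
      rw [pow_succ', Module.End.mul_apply]
      exact ih.S

/-- Bounded near `0+` up to fractional powers. -/
def Tame (g : ℝ → ℂ) : Prop := ∃ P : ℂ[X], P.eval 1 ≠ 0 ∧ Bd (aeval S P g)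

theorem Bd.tame {g : ℝ → ℂ} (h : Bd g) : Tame g :=
  ⟨1, by simp, h.aeval 1⟩

theorem Tame.add {g₁ g₂ : ℝ → ℂ} (h₁ : Tame g₁) (h₂ : Tame g₂) : Tame (g₁ + g₂) := by
  obtain ⟨P, hP, hP'⟩ := h₁
  obtain ⟨Q, hQ, hQ'⟩ := h₂
  refine ⟨P * Q, ?_, ?_⟩
  · rw [eval_mul]; exact mul_ne_zero hP hQ
  · rw [map_add]
    refine Bd.add ?_ ?_
    · rw [mul_comm, map_mul, Module.End.mul_apply]
      exact hP'.aeval Q
    · rw [map_mul, Module.End.mul_apply]
      exact hQ'.aeval P

theorem Tame.smul {g : ℝ → ℂ} (c : ℂ) (h : Tame g) : Tame (c • g) := by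
  obtain ⟨P, hP, hP'⟩ := h
  refine ⟨P, hP, ?_⟩
  rw [map_smul]
  exact hP'.smul c

theorem Tame.neg {g : ℝ → ℂ} (h : Tame g) : Tame (-g) := by
  have := h.smul (-1)
  simpa using this

theorem Tame.sub {g₁ g₂ : ℝ → ℂ} (h₁ : Tame g₁) (h₂ : Tame g₂) : Tame (g₁ - g₂) := by
  rw [sub_eq_add_neg]
  exact h₁.add h₂.neg

theorem Tame.zero : Tame 0 := by
  refine ⟨1, by simp, ?_⟩
  rw [map_zero]
  exact isBigO_zero _ _

/-- The function `log (1 / x)`. -/
noncomputable def lg : ℝ → ℂ := fun x => ((-Real.log x : ℝ) : ℂ)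

theorem S_pow_apply (g : ℝ → ℂ) (n : ℕ) (x : ℝ) : (S ^ n) g x = g (x / 2 ^ n) := by
  induction n generalizing g x with
  | zero => simp
  | succ n ih =>
    rw [pow_succ, Module.End.mul_apply, ih, S_apply]
    congr 1
    rw [pow_succ, div_div]

theorem aeval_lg (P : ℂ[X]) : Bd (aeval S P lg - P.eval 1 • lg) := by
  induction P using Polynomial.induction_on' with
  | add p q hp hq =>
    have : aeval S (p + q) lg - (p + q).eval 1 • lg
        = (aeval S p lg - p.eval 1 • lg) + (aeval S q lg - q.eval 1 • lg) := by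
      rw [map_add, LinearMap.add_apply, eval_add, add_smul]
      abel
    rw [this]
    exact hp.add hq
  | monomial n a =>
    have : aeval S (monomial n a) lg - (monomial n a).eval 1 • lg
        = a • ((S ^ n) lg - lg) := by
      rw [aeval_monomial, Module.algebraMap_end_eq_smul_id, smul_mul_assoc, LinearMap.smul_apply,
        ← Module.End.one_eq_id, one_mul, eval_monomial, one_pow, mul_one, smul_sub]
    rw [this]
    refine Bd.smul a ?_
    refine IsBigO.of_bound (n * Real.log 2) ?_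
    filter_upwards [self_mem_nhdsWithin] with x hx
    have hx : (0 : ℝ) < x := hx
    rw [Pi.sub_apply, S_pow_apply]
    unfold lg
    rw [← Complex.ofReal_sub, Real.log_div hx.ne' (by positivity), Real.log_pow]
    have : (-(Real.log x - n * Real.log 2) - -Real.log x) = n * Real.log 2 := by ring
    rw [this, Complex.norm_real, Real.norm_of_nonneg (by positivity), norm_one, mul_one]

theorem eq_zero_of_tame {T : ℂ} {g : ℝ → ℂ} (hg : Tame g) (h : Bd (T • lg + g)) : T = 0 := by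
  obtain ⟨P, hP, hP'⟩ := hg
  have h1 : Bd (aeval S P (T • lg + g)) := h.aeval P
  rw [map_add, map_smul] at h1
  have h2 : Bd ((T * P.eval 1) • lg) := by
    have h3 : ((T * P.eval 1) • lg) = (T • aeval S P lg + aeval S P g) - aeval S P g
        - T • (aeval S P lg - P.eval 1 • lg) := by
      rw [smul_sub, smul_smul]; abel
    rw [h3]
    exact (h1.sub hP').sub ((aeval_lg P).smul T)
  by_contra hT
  have hc : T * P.eval 1 ≠ 0 := mul_ne_zero hT hP
  have h4 : Bd lg := by
    have := h2.smul (T * P.eval 1)⁻¹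
    rwa [smul_smul, inv_mul_cancel₀ hc, one_smul] at this
  unfold Bd at h4
  rw [isBigO_one_iff] at h4
  have h5 : Tendsto (fun x => ‖lg x‖) (𝓝[>] (0 : ℝ)) atTop := by
    have h6 : Tendsto (fun x : ℝ => -Real.log x) (𝓝[>] (0 : ℝ)) atTop :=
      tendsto_neg_atBot_atTop.comp Real.tendsto_log_nhdsGT_zero
    refine (tendsto_abs_atTop_atTop.comp h6).congr ?_
    intro x
    simp [lg]
  have h7 : ¬ IsBoundedUnder (· ≤ ·) (𝓝[>] (0 : ℝ)) (fun x => ‖lg x‖) :=
    not_isBoundedUnder_of_tendsto_atTop h5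
  exact h7 h4

end Pool.Agent.MP_410f3c_al.V
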