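import Pool.Agent.MP_410f3c_al.V.Valley

/-!
# The functionals near a tip
-/

set_option autoImplicit false

open Polynomial Filter Topology MeasureTheory

namespace Pool.Agent.MP_410f3c_al.V

theorem tip_cls (R : Ray) {p q : ℂ[X]} {P : ℕ → ℂ[X]} (hp : 0 < p.natDegree) (hA : HypA p q P)
    (hB : R.HypB p P) {e : ℂ} (he : p.eval e = R.a) :
    ∃ T : ℂ, ((derivative p).eval e ≠ 0 →
        T = -Complex.exp (q.eval e / p.eval e) / (derivative p).eval e) ∧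
      ∃ N ∈ 𝓝 e, ∀ y ∈ N, y ∈ R.DD p → R.Cls T (AA P e y) := by
  have hκ0 : R.κ ≠ 0 := by intro h; have := R.hκ; rw [h] at this; simp at this
  obtain ⟨k, hk, θ, ρ, hρ, hθe, hθ', hθ, hnb⟩ := uniformizer R hp he
  have h0ρ : ‖(0 : ℂ)‖ < ρ := by rw [norm_zero]; exact hρ
  have hθa : AnalyticAt ℂ θ 0 := (hθ 0 h0ρ).1
  have hpe : p.eval e ≠ 0 := by rw [he]; exact R.ha
  -- Taylor expansion
  have hqa : AnalyticAt ℂ (fun u => q.eval (θ u)) 0 :=
    (q.differentiable.analyticAt (θ 0)).comp hθa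
  have hpa : AnalyticAt ℂ (fun u => p.eval (θ u)) 0 :=
    (p.differentiable.analyticAt (θ 0)).comp hθa
  have hΘa : AnalyticAt ℂ (fun u => Complex.exp (q.eval (θ u) / p.eval (θ u)) * deriv θ u) 0 := by
    refine AnalyticAt.mul (AnalyticAt.cexp (hqa.div hpa ?_)) hθa.deriv
    rw [hθe]; exact hpe
  obtain ⟨c, hc0, C₂, hC₂, ρT, hρT, hT⟩ := taylor_bound hΘa k
  -- the radius
  set δ : ℝ := 2 * Real.pi / (1 + R.κ.im ^ 2) with hδ
  have hδ0 : 0 < δ := by rw [hδ]; positivity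
  obtain ⟨ρ₁, hρ₁, hρ₁ρ, hρ₁T, hρ₁1, hρ₁κ, hρ₁δ⟩ : ∃ ρ₁ : ℝ, 0 < ρ₁ ∧ ρ₁ < ρ ∧ ρ₁ < ρT ∧ ρ₁ ≤ 1 ∧
      ‖R.κ‖ * ρ₁ ≤ 1 / 4 ∧ ρ₁ < δ := by
    have hκn : 0 < ‖R.κ‖ := norm_pos_iff.mpr hκ0
    have hev : ∀ᶠ x : ℝ in 𝓝[>] 0, x < ρ ∧ x < ρT ∧ x ≤ 1 ∧ ‖R.κ‖ * x ≤ 1 / 4 ∧ x < δ := by
      have e1 : ∀ c : ℝ, 0 < c → ∀ᶠ x : ℝ in 𝓝[>] 0, x < c := fun c hc =>
        mem_nhdsWithin_of_mem_nhds (Iio_mem_nhds hc)
      filter_upwards [e1 ρ hρ, e1 ρT hρT, e1 1 one_pos, e1 (1 / (4 * ‖R.κ‖)) (by positivity),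
        e1 δ hδ0] with x h1 h2 h3 h4 h5
      refine ⟨h1, h2, h3.le, ?_, h5⟩
      rw [lt_div_iff₀ (by positivity)] at h4
      linarith
    obtain ⟨x, hx, hx0⟩ := (hev.and self_mem_nhdsWithin).exists
    exact ⟨x, hx0, hx.1, hx.2.1, hx.2.2.1, hx.2.2.2.1, hx.2.2.2.2⟩
  have hpowle : ∀ r : ℝ, 0 ≤ r → r ≤ ρ₁ → r ^ k ≤ ρ₁ := by
    intro r hr0 hr1
    calc r ^ k ≤ ρ₁ ^ k := pow_le_pow_left₀ hr0 hr1 k
      _ ≤ ρ₁ ^ 1 := pow_le_pow_of_le_one hρ₁.le hρ₁1 hk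
      _ = ρ₁ := pow_one _
  set T : ℂ := c (k - 1) / (R.a * R.κ * k) with hTdef
  refine ⟨T, ?_, {t | ∃ u : ℂ, ‖u‖ < ρ₁ ∧ θ u = t}, hnb ρ₁ hρ₁, ?_⟩
  · -- the value of `T` at a noncritical tip
    intro hd
    have hnear : (fun u => p.eval (θ u)) =ᶠ[𝓝 0] fun u => R.W (-u ^ k) := by
      rw [Filter.EventuallyEq, Metric.eventually_nhds_iff]
      exact ⟨ρ, hρ, fun u hu => (hθ u (by rwa [dist_zero_right] at hu)).2⟩
    have h1 : HasDerivAt (fun u => p.eval (θ u)) ((derivative p).eval (θ 0) * deriv θ 0) 0 :=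
      HasDerivAt.comp (0 : ℂ) (h₂ := fun z => p.eval z) (h := θ) (p.hasDerivAt _)
        hθa.differentiableAt.hasDerivAt
    have h2 : HasDerivAt (fun u : ℂ => R.W (-u ^ k)) (R.a * (Complex.exp (R.κ * -(0 : ℂ) ^ k) *
        (R.κ * -(k * (0 : ℂ) ^ (k - 1))))) 0 := by
      have h3 : HasDerivAt (fun u : ℂ => R.κ * -u ^ k) (R.κ * -(k * (0 : ℂ) ^ (k - 1))) 0 :=
        ((hasDerivAt_pow k (0 : ℂ)).neg).const_mul R.κ
      exact (h3.cexp).const_mul R.a
    have h4 := (h1.congr_of_eventuallyEq hnear.symm).unique h2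
    rw [hθe] at h4
    have hk1 : k = 1 := by
      by_contra hk1
      have h5 : (0 : ℂ) ^ (k - 1) = 0 := zero_pow (by omega)
      rw [h5] at h4
      simp only [mul_zero, neg_zero] at h4
      rcases mul_eq_zero.mp h4 with h | h
      · exact hd h
      · exact hθ' h
    subst hk1
    have h6 : (derivative p).eval e * deriv θ 0 = -(R.a * R.κ) := by
      rw [h4]
      simp
    have h7 := hc0 one_pos
    rw [hθe] at h7
    rw [hTdef, h7]
    have h8 : R.a * R.κ ≠ 0 := mul_ne_zero R.ha hκ0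
    rw [Nat.cast_one, mul_one, div_eq_div_iff h8 hd]
    linear_combination Complex.exp (q.eval e / p.eval e) * h6
  · rintro y ⟨u, hu, rfl⟩ hyD
    have huρ : ‖u‖ < ρ := hu.trans hρ₁ρ
    have hyL : R.W (-u ^ k) ∉ R.Lam 0 := by
      rw [← (hθ u huρ).2]; exact hyD
    have hu0 : u ≠ 0 := by
      rintro rfl
      apply hyL
      rw [zero_pow hk.ne', neg_zero, R.W_zero]
      exact ⟨0, le_rfl, by rw [Complex.ofReal_zero, R.W_zero]⟩
    have hr0 : 0 < ‖u‖ := norm_pos_iff.mpr hu0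
    set α : ℝ := Complex.arg (u ^ k) with hα
    have huk : (u ^ k : ℂ) = ((‖u‖ ^ k : ℝ) : ℂ) * Complex.exp (α * Complex.I) := by
      have := Complex.norm_mul_exp_arg_mul_I (u ^ k)
      rw [norm_pow] at this
      exact this.symm
    have hαπ : α < Real.pi := by
      rcases lt_or_eq_of_le (Complex.arg_le_pi (u ^ k)) with h | h
      · exact h
      · exfalso
        apply hyL
        refine ⟨‖u‖ ^ k, by positivity, ?_⟩
        congr 1
        rw [huk, hα, h, Complex.exp_pi_mul_I]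
        ring
    have hαπ' : -Real.pi < α := Complex.neg_pi_lt_arg (u ^ k)
    -- the path
    set g : ℝ → ℂ := fun s => u * Complex.exp (-(s * α / k : ℝ) * Complex.I) with hg
    have hgn : ∀ s, ‖g s‖ = ‖u‖ := by
      intro s
      rw [hg]
      simp only
      rw [norm_mul, ← Complex.ofReal_neg, Complex.norm_exp_ofReal_mul_I, mul_one]
    have hkR : (k : ℝ) ≠ 0 := by exact_mod_cast hk.ne'
    have hgk : ∀ s, (g s) ^ k = ((‖u‖ ^ k : ℝ) : ℂ) * Complex.exp (((1 - s) * α : ℝ) * Complex.I) := by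
      intro s
      rw [hg]
      simp only
      rw [mul_pow, huk, ← Complex.exp_nat_mul, mul_assoc, ← Complex.exp_add]
      congr 2
      have hkC : (k : ℂ) ≠ 0 := by exact_mod_cast hk.ne'
      push_cast
      field_simp
      ring
    have hgD : ∀ s ∈ Set.Icc (0 : ℝ) 1, θ (g s) ∈ R.DD p := by
      intro s hs hmem
      rw [(hθ (g s) (by rw [hgn]; exact huρ)).2] at hmem
      have hβ : |(1 - s) * α| < Real.pi := by
        rw [abs_mul, abs_of_nonneg (by linarith [hs.2] : (0 : ℝ) ≤ 1 - s)]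
        have h1 : |α| < Real.pi := abs_lt.mpr ⟨hαπ', hαπ⟩
        have h2 : (1 - s) * |α| ≤ 1 * |α| :=
          mul_le_mul_of_nonneg_right (by linarith [hs.1]) (abs_nonneg _)
        linarith
      have him : |(-(g s) ^ k).im| < 2 * Real.pi / (1 + R.κ.im ^ 2) := by
        refine lt_of_le_of_lt (Complex.abs_im_le_norm _) ?_
        rw [norm_neg, norm_pow, hgn]
        exact lt_of_le_of_lt (hpowle _ hr0.le hu.le) hρ₁δ
      obtain ⟨h3, h4⟩ := R.im_eq_zero_of_mem him hmem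
      rw [hgk, Complex.neg_im, Complex.im_ofReal_mul, Complex.exp_ofReal_mul_I_im, neg_eq_zero,
        mul_eq_zero] at h3
      rw [hgk, Complex.neg_re, Complex.re_ofReal_mul, Complex.exp_ofReal_mul_I_re] at h4
      have hrk : 0 < ‖u‖ ^ k := by positivity
      rcases h3 with h3 | h3
      · exact hrk.ne' h3
      · rw [Real.sin_eq_zero_iff_of_lt_of_lt (abs_lt.mp hβ).1 (abs_lt.mp hβ).2] at h3
        rw [h3, Real.cos_zero, mul_one] at h4
        linarith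
    -- the end point of the path
    set ω : ℂ := g 1 / ‖u‖ with hω
    have hrC : (‖u‖ : ℂ) ≠ 0 := by exact_mod_cast hr0.ne'
    have hωk : ω ^ k = 1 := by
      rw [hω, div_pow, hgk 1, sub_self, zero_mul, Complex.ofReal_zero, zero_mul, Complex.exp_zero,
        mul_one, Complex.ofReal_pow]
      exact div_self (pow_ne_zero _ hrC)
    have hωr : ω * (‖u‖ : ℝ) = g 1 := by
      rw [hω, div_mul_cancel₀ _ hrC]
    have hval := valley_cls R hA hk hρ₁ hρ₁ρ hρ₁1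
      (by
        have := hpowle ρ₁ hρ₁.le le_rfl
        calc ‖R.κ‖ * ρ₁ ^ k ≤ ‖R.κ‖ * ρ₁ := mul_le_mul_of_nonneg_left this (norm_nonneg _)
          _ ≤ 1 / 4 := hρ₁κ) hθ hC₂ (fun v hv => hT v (lt_of_le_of_lt hv hρ₁T)) hωk hr0 hu.le
    rw [hωr, hθe] at hval
    have hgc : Continuous g := by rw [hg]; fun_prop
    have hrel : R.Rel P (θ (g 1)) (θ u) := by
      refine R.rel_of_preconnected hB (s := (fun s => θ (g s)) '' Set.Icc (0 : ℝ) 1) ?_ ?_
        ⟨1, ⟨zero_le_one, le_rfl⟩, rfl⟩ ⟨0, ⟨le_rfl, zero_le_one⟩, ?_⟩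
      · refine isPreconnected_Icc.image _ ?_
        intro s hs
        have : ContinuousAt θ (g s) := (hθ (g s) (by rw [hgn]; exact huρ)).1.continuousAt
        exact (ContinuousAt.comp (f := g) (g := θ) this hgc.continuousAt).continuousWithinAt
      · rintro _ ⟨s, hs, rfl⟩
        exact hgD s hs
      · show θ (g 0) = θ u
        rw [hg]
        simp
    have := Ray.Cls.add hval hrel
    rw [AA_add, add_zero] at this
    exact this

end Pool.Agent.MP_410f3c_al.V
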